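import Pool.Agent.Lib.FPS.IrrMain3

/-!
# FPW: constant window — definitions

Continuation of `Lib/FPS` (fat points on general surfaces of `P^3`). For a linear system on a surface
the leading forms at a general point of the members of multiplicity `≥ j` form a Macaulay inverse
system in two variables; this gives strong information on the number of conditions imposed by one
more general fat point.
-/

namespace FPS

open MvPolynomial

noncomputable section

/-- point of the surface `F = 0` where `∂F/∂z ≠ 0` -/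
def Sm (F : MvPolynomial (Fin 3) ℂ) (p : Fin 3 → ℂ) : Prop :=
  eval p F = 0 ∧ eval p (pderiv 2 F) ≠ 0

/-- the polynomials whose restriction to the surface `F = 0` has multiplicity `≥ j` at `p` -/
def JI (F : MvPolynomial (Fin 3) ℂ) (p : Fin 3 → ℂ) (j : ℕ) :
    Submodule ℂ (MvPolynomial (Fin 3) ℂ) :=
  (Ideal.span {F} ⊔ ptIdeal p ^ j).restrictScalars ℂ

/-- the two derivations `F_z ∂_x - F_x ∂_z` (for `i = 0`) and `F_z ∂_y - F_y ∂_z` (for `i = 1`) -/
def dl (F : MvPolynomial (Fin 3) ℂ) (i : Fin 2) :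
    Derivation ℂ (MvPolynomial (Fin 3) ℂ) (MvPolynomial (Fin 3) ℂ) :=
  pderiv 2 F • pderiv i.castSucc - pderiv i.castSucc F • pderiv 2

/-- iterated derivations: `wd F [i1, ..., ik] G = δ_{i1} (... (δ_{ik} G))` -/
def wd (F : MvPolynomial (Fin 3) ℂ) :
    List (Fin 2) → MvPolynomial (Fin 3) ℂ →ₗ[ℂ] MvPolynomial (Fin 3) ℂ
  | [] => LinearMap.id
  | i :: w => (dl F i : MvPolynomial (Fin 3) ℂ →ₗ[ℂ] MvPolynomial (Fin 3) ℂ) ∘ₗ wd F w

/-- the word `0 ... 0 1 ... 1` with `i` letters `0` and `j - i` letters `1` -/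
def cw (j i : ℕ) : List (Fin 2) := List.replicate i 0 ++ List.replicate (j - i) 1

/-- the derivatives of order `j` at `p` -/
def lead (F : MvPolynomial (Fin 3) ℂ) (p : Fin 3 → ℂ) (j : ℕ) :
    MvPolynomial (Fin 3) ℂ →ₗ[ℂ] (Fin (j + 1) → ℂ) :=
  LinearMap.pi fun i => (aeval p).toLinearMap ∘ₗ wd F (cw j i)

/-- minimal dimension of the series with multiplicities `m`, at smooth points -/
def Dm (F : MvPolynomial (Fin 3) ℂ) (e : ℕ) {r : ℕ} (m : Fin r → ℕ) : ℕ :=
  sInf {n | ∃ q : Fin r → Fin 3 → ℂ, (∀ l, Sm F (q l)) ∧ Module.finrank ℂ (series F e q m) = n}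

/-- the same for a list of multiplicities, modulo the multiples of `F` -/
def NL (F : MvPolynomial (Fin 3) ℂ) (e : ℕ) (L : List ℕ) : ℕ :=
  Dm F e L.get - Module.finrank ℂ (mults F e)

/-- number of conditions of a list of multiplicities -/
def ST (L : List ℕ) : ℕ := (L.map T).sum

/-- the error term used for the crude bounds -/
def Wn (μ e : ℕ) : ℕ := 2 * μ * (e + 1) + 11 * μ ^ 3

/-- the properties of the dimension function used in the combinatorial part -/
structure Sys (N : List ℕ → ℕ) (B : ℕ) : Prop where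
  swap : ∀ a b L, N (a :: b :: L) = N (b :: a :: L)
  zero : ∀ L, N (0 :: L) = N L
  anti : ∀ a L, N ((a + 1) :: L) ≤ N (a :: L)
  step : ∀ a L, N (a :: L) ≤ N ((a + 1) :: L) + (a + 1)
  mac : ∀ a L, N (a :: L) ≤ N ((a + 1) :: L) + a →
    2 * N ((a + 1) :: L) ≤ N ((a + 2) :: L) + N (a :: L)
  top : N [B] = 0

end

end FPS
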