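import Pool.Agent.Lib.FPS.Prime
import Pool.Agent.Lib.FPW.Defs

/-!
# FPW.GenA: intersection of finitely many open conditions; a bound for `h0`

PROOFS. `common_fin`: `Finset.induction` with `common` (`FPS/Prime.lean`) and products; `Φ = 1` for the
empty set (`F = 0` as a witness).
`sum_get`: `List.sum_ofFn` / `Fin.sum_univ_fun_getElem` or induction on `L` (`Fin.sum_univ_succ`).
`h0_ge`: `h0 d e = C(e+3,3) - C(e-d+3,3)` if `d ≤ e`, where `C(e-d+3,3) ≤ C(e-1,3)`, and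
`C(e+3,3) = C(e-1,3) + 2 e^2 + 2`; if `e < d`, then `h0 d e = C(e+3,3) ≥ 2 e^2 + 2` (`e ≥ 5`).
-/

namespace FPS

open MvPolynomial

theorem common_fin (d : ℕ) {ι : Type*} (s : Finset ι) (P : ι → MvPolynomial (Fin 3) ℂ → Prop)
    (h : ∀ i ∈ s, ∃ Φ : MvPolynomial (Fin 3 →₀ ℕ) ℂ,
      (∃ F : MvPolynomial (Fin 3) ℂ, F.totalDegree ≤ d ∧ eval (fun α => coeff α F) Φ ≠ 0) ∧
      ∀ F : MvPolynomial (Fin 3) ℂ, F.totalDegree ≤ d → eval (fun α => coeff α F) Φ ≠ 0 → P i F) :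
    ∃ Φ : MvPolynomial (Fin 3 →₀ ℕ) ℂ,
      (∃ F : MvPolynomial (Fin 3) ℂ, F.totalDegree ≤ d ∧ eval (fun α => coeff α F) Φ ≠ 0) ∧
      ∀ F : MvPolynomial (Fin 3) ℂ, F.totalDegree ≤ d → eval (fun α => coeff α F) Φ ≠ 0 →
        ∀ i ∈ s, P i F := by
  classical
  induction s using Finset.induction with
  | empty =>
    refine ⟨1, ⟨0, by simp, by simp⟩, ?_⟩
    intro F _ _ i hi
    exact absurd hi (Finset.notMem_empty i)
  | insert a s _ ih =>
    obtain ⟨Φ1, h1, h1'⟩ := h a (Finset.mem_insert_self a s)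
    obtain ⟨Φ2, h2, h2'⟩ := ih (fun i hi => h i (Finset.mem_insert_of_mem hi))
    refine ⟨Φ1 * Φ2, common d Φ1 Φ2 h1 h2, ?_⟩
    intro F hF hne i hi
    rw [map_mul] at hne
    rcases Finset.mem_insert.1 hi with rfl | hi
    · exact h1' F hF (left_ne_zero_of_mul hne)
    · exact h2' F hF (right_ne_zero_of_mul hne) i hi

theorem sum_get (L : List ℕ) : ∑ l, T (L.get l) = ST L := by
  induction L with
  | nil => simp [ST]
  | cons a L ih =>
    have h1 : ∑ l : Fin (a :: L).length, T ((a :: L).get l) =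
        T ((a :: L).get (0 : Fin (L.length + 1))) +
          ∑ l : Fin L.length, T ((a :: L).get (Fin.succ l)) :=
      Fin.sum_univ_succ (n := L.length) (fun l => T ((a :: L).get l))
    rw [h1]
    have h2 : ∑ l : Fin L.length, T ((a :: L).get (Fin.succ l)) = ∑ l, T (L.get l) := rfl
    have h3 : (a :: L).get (0 : Fin (L.length + 1)) = a := rfl
    rw [h2, h3, ih, ST, ST, List.map_cons, List.sum_cons]

theorem h0_ge (d e : ℕ) (hd : 4 ≤ d) (he : 5 ≤ e) : 2 * e ^ 2 + 2 ≤ h0 d e := by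
  have hc : ∀ n : ℕ, 6 * (n + 3).choose 3 = (n + 3) * (n + 2) * (n + 1) := by
    intro n
    have h1 := Nat.descFactorial_eq_factorial_mul_choose (n + 3) 3
    have h2 : (n + 3).descFactorial 3 = (n + 1) * ((n + 2) * ((n + 3) * 1)) := by
      simp [Nat.descFactorial]
    rw [h2] at h1
    have h3 : Nat.factorial 3 = 6 := rfl
    rw [h3] at h1
    rw [← h1]
    ring
  obtain ⟨n, rfl⟩ : ∃ n, e = n + 4 := ⟨e - 4, by omega⟩
  have hA := hc (n + 4)
  have hB := hc n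
  have hA' : 6 * (n + 4 + 3).choose 3 = 6 * (n + 3).choose 3 + 6 * (2 * (n + 4) ^ 2 + 2) := by
    rw [hA, hB]
    ring
  have hC : (n + 4 + 3).choose 3 = (n + 3).choose 3 + (2 * (n + 4) ^ 2 + 2) := by omega
  rw [h0, hC]
  split_ifs with h
  · have h1 : (n + 4 - d + 3).choose 3 ≤ (n + 3).choose 3 :=
      Nat.choose_le_choose 3 (by omega)
    omega
  · omega

end FPS
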