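import Pool.Agent.Lib.FPW.BootB

/-!
# FPW.BootC: the abstract window theorem

PROOFS. `exact_step` (`W = Wn μ e`): if `N L + W < T (e - μ)`, `claimC` gives `X`, `numF μ b (N L) X`
gives `(b - 1) * X < N L`, and `sys_key` gives `N (b :: L) + T b = N L`. Otherwise
`T (e - μ) ≤ N L + W`, and `numY` (`2 T μ + Y^2 + 6 W + 2 ≤ 2 T (e-μ)`) gives `T b + W ≤ N L`, i.e.
`ST L + T b + W ≤ h`, so `A5` with `M = b` (`b + μ ≤ e`).
`lower`: let `P L : N L + ST L = h`; apply `last_true` to `L0` (`h0`). Case 1: `P L0`. Case 2: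
`L0 = R ++ (b :: L)`, all suffixes of `L` exact, `b :: L` not exact. `b = 0`: `zero`, `T 0 = 0`,
contradiction. `b = 1`: if `N L > 0`, `sys_one` contradicts; so `N L = 0`, `ST L = h`; then `N L0 = 0`
(`sys_append_le`) and `ST L0 ≥ ST L = h`. `b ≥ 2`: the hypothesis for `b :: L` gives
`N L ≥ 3 * b * μ^2` and `exact_step` contradicts.
`upper`: suppose `N L0 > 0`. As before (`last_true`): if `P L0`, then `ST L0 ≤ h`, contradicting
`2 * h + 3 * μ^4 ≤ 2 * ST L0`. Otherwise `L0 = R ++ (b :: L)` and `b = 0` is impossible, `b = 1` gives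
`N L = 0` and `N L0 = 0`. So `b ≥ 2`, and `exact_step` gives `N L < 3 * b * μ^2 ≤ 3 * μ^3`. With
`R' = R ++ [b]`: `drop_sum'`: `R'.sum < N L`, `2 * ST R' ≤ (μ+1) * R'.sum ≤ (μ+1) * N L` (`ST_sum`), and
`ST L0 = ST L + ST R' = h - N L + ST R'`. So `3 μ^4 ≤ 2 ST L0 - 2 h = 2 ST R' - 2 N L ≤ (μ-1) N L <
3 μ^4`.
-/

namespace FPS

theorem exact_step {N : List ℕ → ℕ} {B : ℕ} (hN : Sys N B) (μ e h : ℕ) (hμ : 2 ≤ μ)
    (he : 25 * μ ^ 2 ≤ e) (h0 : N [] = h) (hh : T (e - μ) + Wn μ e ≤ h) (L0 : List ℕ)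
    (hL0 : ∀ b ∈ L0, b ≤ μ)
    (A5 : ∀ L, L <:+ L0 → ∀ M, M + μ ≤ e → ST L + T M + Wn μ e ≤ h →
      N (M :: L) + (ST L + T M) = h)
    (A6 : ∀ L, L <:+ L0 → ∀ M, M + μ ≤ e → h + Wn μ e < ST L + T M → N (M :: L) = 0)
    (b : ℕ) (L : List ℕ) (hL : (b :: L) <:+ L0) (hex : ∀ L', L' <:+ L → N L' + ST L' = h)
    (hb : 2 ≤ b) (hbN : 3 * b * μ ^ 2 ≤ N L) : N (b :: L) + T b = N L := by
  have hL' : L <:+ L0 := (List.suffix_cons b L).trans hL
  have hbμ : b ≤ μ := hL0 b (hL.subset List.mem_cons_self)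
  have hexL : N L + ST L = h := hex L List.suffix_rfl
  rcases Nat.lt_or_ge (N L + Wn μ e) (T (e - μ)) with h1 | h1
  · obtain ⟨X, hX, hX'⟩ := claimC hN μ e h hμ he h0 hh L0 hL0 A5 A6 L hL' hex h1
    exact sys_key hN b (by omega) L X hX (numF μ b (N L) X hb hbμ hbN hX')
  · obtain ⟨Y, -, hY⟩ := numY μ e hμ he
    have h2 : T b ≤ T μ := T_mono hbμ
    have h3 : b + μ ≤ e := by nlinarith
    have h4 := A5 L hL' b h3 (by omega)
    omega

/-- the two cases of the induction -/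
theorem bootC_cases {N : List ℕ → ℕ} {B : ℕ} (hN : Sys N B) (h : ℕ) (h0 : N [] = h) (L0 : List ℕ) :
    (∀ L, L <:+ L0 → N L + ST L = h) ∨
    (N L0 = 0 ∧ h ≤ ST L0) ∨
    ∃ (R : List ℕ) (b : ℕ) (L : List ℕ), L0 = R ++ (b :: L) ∧
      (∀ L', L' <:+ L → N L' + ST L' = h) ∧ ¬ N (b :: L) + ST (b :: L) = h ∧ 2 ≤ b := by
  have hP0 : N [] + ST [] = h := by
    have h1 : ST [] = 0 := rfl
    omega
  rcases last_true (fun L => N L + ST L = h) hP0 L0 with h1 | ⟨R, b, L, h1, h2, h3⟩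
  · exact Or.inl h1
  right
  have hexL : N L + ST L = h := h2 L List.suffix_rfl
  have hST : ST (b :: L) = T b + ST L := ST_cons b L
  rcases Nat.lt_or_ge b 2 with hb | hb
  · have hb01 : b = 0 ∨ b = 1 := by omega
    rcases hb01 with rfl | rfl
    · exfalso
      apply h3
      have h4 := hN.zero L
      have h5 : T 0 = 0 := rfl
      omega
    · left
      have hT1 : T 1 = 1 := by
        have := two_T 1
        omega
      have hNL : N L = 0 := by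
        by_contra hne
        apply h3
        have h4 := sys_one hN L (Nat.pos_of_ne_zero hne)
        omega
      have h4 := sys_append_le hN (R ++ [1]) L
      have h5 := ST_append (R ++ [1]) L
      have h6 : L0 = (R ++ [1]) ++ L := by
        rw [h1]
        simp
      rw [← h6] at h4 h5
      omega
  · exact Or.inr ⟨R, b, L, h1, h2, h3, hb⟩

theorem lower {N : List ℕ → ℕ} {B : ℕ} (hN : Sys N B) (μ e h : ℕ) (hμ : 2 ≤ μ)
    (he : 25 * μ ^ 2 ≤ e) (h0 : N [] = h) (hh : T (e - μ) + Wn μ e ≤ h) (L0 : List ℕ)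
    (hL0 : ∀ b ∈ L0, b ≤ μ)
    (A5 : ∀ L, L <:+ L0 → ∀ M, M + μ ≤ e → ST L + T M + Wn μ e ≤ h →
      N (M :: L) + (ST L + T M) = h)
    (A6 : ∀ L, L <:+ L0 → ∀ M, M + μ ≤ e → h + Wn μ e < ST L + T M → N (M :: L) = 0)
    (hl : ∀ b L, (b :: L) <:+ L0 → 2 ≤ b → ST (b :: L) + 3 * b * μ ^ 2 ≤ h) :
    N L0 = h - ST L0 := by
  rcases bootC_cases hN h h0 L0 with h1 | h1 | ⟨R, b, L, h1, h2, h3, hb⟩
  · have := h1 L0 List.suffix_rfl
    omega
  · omega
  · exfalso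
    apply h3
    have hsuf : (b :: L) <:+ L0 := ⟨R, h1.symm⟩
    have hexL : N L + ST L = h := h2 L List.suffix_rfl
    have hST : ST (b :: L) = T b + ST L := ST_cons b L
    have h4 := hl b L hsuf hb
    have h5 := exact_step hN μ e h hμ he h0 hh L0 hL0 A5 A6 b L hsuf h2 hb (by omega)
    omega

theorem upper {N : List ℕ → ℕ} {B : ℕ} (hN : Sys N B) (μ e h : ℕ) (hμ : 2 ≤ μ)
    (he : 25 * μ ^ 2 ≤ e) (h0 : N [] = h) (hh : T (e - μ) + Wn μ e ≤ h) (L0 : List ℕ)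
    (hL0 : ∀ b ∈ L0, b ≤ μ)
    (A5 : ∀ L, L <:+ L0 → ∀ M, M + μ ≤ e → ST L + T M + Wn μ e ≤ h →
      N (M :: L) + (ST L + T M) = h)
    (A6 : ∀ L, L <:+ L0 → ∀ M, M + μ ≤ e → h + Wn μ e < ST L + T M → N (M :: L) = 0)
    (hu : 2 * h + 3 * μ ^ 4 ≤ 2 * ST L0) : N L0 = 0 := by
  rcases bootC_cases hN h h0 L0 with h1 | h1 | ⟨R, b, L, h1, h2, h3, hb⟩
  · have h2 := h1 L0 List.suffix_rfl
    have h3 : 0 < μ ^ 4 := by positivity
    omega
  · exact h1.1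
  · by_contra hne
    have hsuf : (b :: L) <:+ L0 := ⟨R, h1.symm⟩
    have hbμ : b ≤ μ := hL0 b (hsuf.subset List.mem_cons_self)
    have hexL : N L + ST L = h := h2 L List.suffix_rfl
    have hST : ST (b :: L) = T b + ST L := ST_cons b L
    have h4 : N L < 3 * b * μ ^ 2 := by
      by_contra hcon
      push Not at hcon
      have h5 := exact_step hN μ e h hμ he h0 hh L0 hL0 A5 A6 b L hsuf h2 hb hcon
      apply h3
      omega
    have h5 : 3 * b * μ ^ 2 ≤ 3 * μ * μ ^ 2 := by gcongr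
    have h6 : L0 = (R ++ [b]) ++ L := by
      rw [h1]
      simp
    have h7 := drop_sum' hN (R ++ [b]) L (by rw [← h6]; exact Nat.pos_of_ne_zero hne)
    have h8 := ST_append (R ++ [b]) L
    rw [← h6] at h7 h8
    have h9 := ST_sum μ (R ++ [b]) fun c hc => hL0 c (by
      rw [h6]
      exact List.mem_append_left _ hc)
    have h10 : (μ + 1) * (R ++ [b]).sum ≤ (μ + 1) * N L := Nat.mul_le_mul_left _ (by omega)
    obtain ⟨ν, rfl⟩ : ∃ ν, μ = ν + 1 := ⟨μ - 1, by omega⟩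
    have h11 : (ν + 1 + 1) * N L = ν * N L + 2 * N L := by ring
    have h12 : ν * N L ≤ ν * (3 * (ν + 1) * (ν + 1) ^ 2) := Nat.mul_le_mul_left _ (by omega)
    have h13 : ν * (3 * (ν + 1) * (ν + 1) ^ 2) < 3 * (ν + 1) ^ 4 := by
      have : 3 * (ν + 1) ^ 4 = ν * (3 * (ν + 1) * (ν + 1) ^ 2) + 3 * (ν + 1) ^ 3 := by ring
      have h14 : 0 < (ν + 1) ^ 3 := by positivity
      omega
    omega

end FPS
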