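import Pool.Agent.Lib.FPW.TwoU

/-!
# FPW.TwoS: one big point and many small ones on the surface `z = x^a y^2`

PROOF of `two_special`: compare `V_a1`, `special_a1`, `special_b1` in `FPS/Main2.lean`, with the profile
`prof a e M` instead of `rowN a 1 e` and with the big point at row `0`.
First case: `pack2 (prof a e M) μ (2 (e+1)) _ w` with the same `w`, `K = min μ (a+1) ≤ μ` (rows with
`E_i ≥ 2 μ`: `usable2`; other rows: `prof ≤ rowN ≤ E_i K`, `small1`), `low1`, `sum_prof`,
`4 μ^2 K ≤ 11 μ^3`: rows `t`. For the multiplicities `Fin.cons M m` and the rows `Fin.cons 0 t` the load is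
`(M - i) + load m t i ≤ rowN a 1 e i` (`fit`) (`Fin.sum_univ_succ`), total load `T M + ∑ T (m l)`;
`horace_dim` as in `V_a1`, then `special a 2 e` as in `special_gen` / `special_b1`.
Second case: `cover2 (prof a e M) μ (2 (e+1)) (2 (e+2-2μ) - 1) (2 μ K)` as in `special_b1` (`up1` with
`n = prof a e M`; if `μ = 0` then all `m l = 0` and `T M ≤ h0` by `sum_prof`, contradiction), then
`horace_bot` for `Fin.cons M m`, `Fin.cons 0 t`.
-/

namespace FPS

open MvPolynomial

namespace TwoSAux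

theorem load_cons (M : ℕ) {r : ℕ} (m t : Fin r → ℕ) (i : ℕ) :
    load (Fin.cons M m : Fin (r + 1) → ℕ) (Fin.cons 0 t : Fin (r + 1) → ℕ) i
      = (M - i) + load m t i := by
  unfold load
  rw [Fin.sum_univ_succ]
  simp

theorem inj (r : ℕ) : Function.Injective (fun l : Fin r => ((l : ℕ) : ℝ) + 1) := by
  intro l l' hl
  have : ((l : ℕ) : ℝ) = ((l' : ℕ) : ℝ) := by simpa using hl
  exact Fin.ext (by exact_mod_cast this)

theorem prof_le (a e M i : ℕ) : prof a e M i ≤ rowN a 1 e i := Nat.sub_le _ _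

theorem prof_zero (a e M i : ℕ) (hi : 2 * (e + 1) ≤ i) : prof a e M i = 0 :=
  Nat.le_zero.1 ((prof_le a e M i).trans (rowN_one_zero a e i hi).le)

theorem sq_min (μ a : ℕ) : μ ^ 2 * min μ (a + 1) ≤ μ ^ 3 := by
  calc μ ^ 2 * min μ (a + 1) ≤ μ ^ 2 * μ := Nat.mul_le_mul_left _ (min_le_left _ _)
    _ = μ ^ 3 := by ring

end TwoSAux

open TwoSAux in
theorem two_special (a e μ M : ℕ) (ha : 1 ≤ a) (hM : M + μ ≤ e) {r : ℕ} (m : Fin r → ℕ)
    (hμ : ∀ l, m l ≤ μ)
    (h : T M + ∑ l, T (m l) + Wn μ e ≤ h0 (a + 2) e ∨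
      h0 (a + 2) e + Wn μ e < T M + ∑ l, T (m l)) :
    ∃ x y : Fin (r + 1) → ℂ,
      Module.finrank ℂ (series (F0 a 2) e (fun l => p0 a 2 (x l) (y l))
        (Fin.cons M m : Fin (r + 1) → ℕ)) + h0 (a + 2) e
        ≤ (e + 3).choose 3 + (h0 (a + 2) e - (T M + ∑ l, T (m l))) := by
  have hsp0 := sum_prof a e M ha (by omega)
  have hsum' := sum_card_Lam a 2 e ha (by omega)
  have hsq := sq_min μ a
  unfold Wn at h
  rcases h with h | h
  · have hlow := low1 e μ (min μ (a + 1))
    obtain ⟨t, ht1, ht2⟩ := pack2 (prof a e M) μ (2 * (e + 1)) (prof_zero a e M)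
      (fun i => if 2 * μ ≤ e + 1 - i % 2 - i / 2 then μ
        else (e + 1 - i % 2 - i / 2) * min μ (a + 1))
      (fun i _ => by
        by_cases hE : 2 * μ ≤ e + 1 - i % 2 - i / 2
        · left
          exact ⟨usable2 a e μ M i ha hM hE, by rw [if_pos hE]⟩
        · right
          rw [if_neg hE]
          exact (prof_le a e M i).trans (small1 a e μ i ha (by omega))) m hμ
      (by
        have e1 : 4 * μ ^ 2 * min μ (a + 1) = 4 * (μ ^ 2 * min μ (a + 1)) := by ring
        rw [e1] at hlow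
        omega)
    obtain ⟨y, hy⟩ := horace_dim (2 * (e + 1)) (Lam a 2 e)
      (fun i hi => Lam_empty a 2 e i (by omega) hi)
      (fun l : Fin (r + 1) => ((l : ℕ) : ℝ) + 1) (inj (r + 1))
      (by intro l; positivity) (Fin.cons M m : Fin (r + 1) → ℕ) (Fin.cons 0 t : Fin (r + 1) → ℕ)
      (by
        intro i _
        rw [card_Lam_two a e i ha, load_cons]
        have h1 := ht1 i
        have h2 := fit a e M i (by omega)
        unfold prof at h1
        omega)
    have hload : ∑ i ∈ Finset.range (2 * (e + 1)),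
        load (Fin.cons M m : Fin (r + 1) → ℕ) (Fin.cons 0 t : Fin (r + 1) → ℕ) i
        = T M + ∑ l, T (m l) := by
      simp only [load_cons]
      rw [Finset.sum_add_distrib, ht2, PackAux.tri_eq M (2 * (e + 1)) (by omega)]
    rw [hload, hsum'] at hy
    refine ⟨fun l => ((((l : ℕ) : ℝ) + 1 : ℝ) : ℂ), y, ?_⟩
    have hsp := special a 2 e ha (by omega)
      (fun l : Fin (r + 1) => ((((l : ℕ) : ℝ) + 1 : ℝ) : ℂ)) y (Fin.cons M m : Fin (r + 1) → ℕ)
    rw [hsum'] at hsp
    beta_reduce at hy hsp ⊢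
    omega
  · have hμ1 : 1 ≤ μ := by
      by_contra hcon
      have h1 : ∑ l, T (m l) = 0 := by
        refine Finset.sum_eq_zero fun l _ => ?_
        have h2 := hμ l
        have h3 : m l = 0 := by omega
        rw [h3]
        rfl
      omega
    have hK : 1 ≤ min μ (a + 1) := by omega
    have hup := up1 (prof a e M) e μ (min μ (a + 1)) hμ1 hK
    have e1 : 11 * μ ^ 2 * min μ (a + 1) = 11 * (μ ^ 2 * min μ (a + 1)) := by ring
    rw [e1] at hup
    have hsmall : ∀ i, 2 * (e + 2 - 2 * μ) - 1 ≤ i →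
        prof a e M i ≤ 2 * μ * min μ (a + 1) := by
      intro i hi
      refine (prof_le a e M i).trans ((small1 a e μ i ha (by omega)).trans ?_)
      exact Nat.mul_le_mul_right _ (by omega)
    obtain ⟨t, ht⟩ := cover2 (prof a e M) μ (2 * (e + 1)) (2 * (e + 2 - 2 * μ) - 1)
      (2 * μ * min μ (a + 1)) (by omega) (fun i hi => usable2 a e μ M i ha hM (by omega)) hsmall
      m hμ (by omega)
    obtain ⟨y, hy⟩ := horace_bot (2 * (e + 1)) (Lam a 2 e)
      (fun i hi => Lam_empty a 2 e i (by omega) hi)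
      (fun l : Fin (r + 1) => ((l : ℕ) : ℝ) + 1) (inj (r + 1))
      (by intro l; positivity) (Fin.cons M m : Fin (r + 1) → ℕ) (Fin.cons 0 t : Fin (r + 1) → ℕ)
      (by
        intro i hi
        rw [card_Lam_two a e i ha, load_cons]
        have h1 := ht i hi
        unfold prof at h1
        omega)
    refine ⟨fun l => ((((l : ℕ) : ℝ) + 1 : ℝ) : ℂ), y, ?_⟩
    have hsp := special a 2 e ha (by omega)
      (fun l : Fin (r + 1) => ((((l : ℕ) : ℝ) + 1 : ℝ) : ℂ)) y (Fin.cons M m : Fin (r + 1) → ℕ)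
    rw [hsum'] at hsp
    beta_reduce at hy hsp ⊢
    omega

end FPS
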