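import Pool.Agent.Lib.FPW.SysA

/-!
# FPW.BootA: walks along a list
-/

namespace FPS

theorem two_T (m : ℕ) : 2 * T m = m * (m + 1) := by
  unfold T
  exact Nat.mul_div_cancel' (Nat.even_mul_succ_self m).two_dvd

theorem T_mono {a b : ℕ} (h : a ≤ b) : T a ≤ T b := by
  have h1 := two_T a
  have h2 := two_T b
  have h3 : a * (a + 1) ≤ b * (b + 1) := Nat.mul_le_mul h (by omega)
  omega

theorem ST_cons (a : ℕ) (L : List ℕ) : ST (a :: L) = T a + ST L := by
  simp [ST]

theorem ST_append (R L : List ℕ) : ST (R ++ L) = ST R + ST L := by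
  simp [ST]

theorem ST_sum (μ : ℕ) (R : List ℕ) (hR : ∀ b ∈ R, b ≤ μ) : 2 * ST R ≤ (μ + 1) * R.sum := by
  induction R with
  | nil => simp [ST]
  | cons a R ih =>
    rw [ST_cons, List.sum_cons, Nat.mul_add, Nat.mul_add, two_T]
    have h1 := ih fun b hb => hR b (List.mem_cons_of_mem _ hb)
    have h2 : a * (a + 1) ≤ (μ + 1) * a := by
      rw [Nat.mul_comm]
      exact Nat.mul_le_mul_right _ (by have := hR a List.mem_cons_self; omega)
    omega

theorem drop_sum {N : List ℕ → ℕ} {B : ℕ} (hN : Sys N B) (M : ℕ) (R L : List ℕ)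
    (h : 0 < N (M :: (R ++ L))) : N (M :: (R ++ L)) + R.sum ≤ N (M :: L) := by
  induction R with
  | nil => simp
  | cons a R ih =>
    rw [List.cons_append] at h ⊢
    rw [hN.swap] at h ⊢
    have h1 := sys_drop hN a (M :: (R ++ L)) h
    have h2 := ih (by omega)
    rw [List.sum_cons]
    omega

theorem drop_sum' {N : List ℕ → ℕ} {B : ℕ} (hN : Sys N B) (R L : List ℕ)
    (h : 0 < N (R ++ L)) : N (R ++ L) + R.sum ≤ N L := by
  induction R with
  | nil => simp
  | cons a R ih =>
    rw [List.cons_append] at h ⊢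
    have h1 := sys_drop hN a (R ++ L) h
    have h2 := ih (by omega)
    rw [List.sum_cons]
    omega

theorem last_true (P : List ℕ → Prop) (h0 : P []) (L : List ℕ) :
    (∀ L', L' <:+ L → P L') ∨ ∃ (R : List ℕ) (m : ℕ) (L' : List ℕ), L = R ++ (m :: L') ∧
      (∀ L'', L'' <:+ L' → P L'') ∧ ¬ P (m :: L') := by
  induction L with
  | nil =>
    left
    intro L' hL'
    rw [List.suffix_nil.1 hL']
    exact h0
  | cons a L ih =>
    rcases ih with ih | ⟨R, m, L', h1, h2, h3⟩
    · by_cases h : P (a :: L)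
      · left
        intro L' hL'
        rcases List.suffix_cons_iff.1 hL' with h4 | h4
        · rw [h4]
          exact h
        · exact ih L' h4
      · exact Or.inr ⟨[], a, L, rfl, ih, h⟩
    · exact Or.inr ⟨a :: R, m, L', by rw [h1, List.cons_append], h2, h3⟩

theorem sys_append_le {N : List ℕ → ℕ} {B : ℕ} (hN : Sys N B) (R L : List ℕ) :
    N (R ++ L) ≤ N L := by
  induction R with
  | nil => simp
  | cons a R ih => exact (sys_le hN a (R ++ L)).trans ih

theorem sys_one {N : List ℕ → ℕ} {B : ℕ} (hN : Sys N B) (L : List ℕ) (h : 0 < N L) :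
    N (1 :: L) + 1 = N L := by
  have h1 := sys_lower hN 1 L
  have h2 : T 1 = 1 := by
    have := two_T 1
    omega
  rcases Nat.eq_zero_or_pos (N (1 :: L)) with h3 | h3
  · omega
  · have h4 := sys_drop hN 1 L h3
    omega

/-- the list `M :: L` is annihilated by a point annihilating `L` -/
theorem sys_zero_cons {N : List ℕ → ℕ} {B : ℕ} (hN : Sys N B) (M X : ℕ) (L : List ℕ)
    (h : N (X :: L) = 0) : N (X :: M :: L) = 0 := by
  rw [hN.swap]
  have := sys_le hN M (X :: L)
  omega

end FPS
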