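import Mathlib

/-!
# FPW.Shift: Macaulay's inequality in two variables (inverse system form)

PROOF. `Γ` has dimension `≤ j < j + 1`, so there is `c ≠ 0` with `∑ c_i a_i = 0` for all `a ∈ Γ`
(dual annihilator). The polynomial `∑ c_i X^i` is nonzero, so there is `s : ℂ` with `∑ c_i s^i ≠ 0`.
The linear map `a ↦ (a_{i+1} - s a_i)_i` maps `Γ'` into `Γ`; it is injective on `Γ'`: in its kernel
`a_i = s^i a_0`, and `(s^i a_0)_{i ≤ j} ∈ Γ` gives `a_0 ∑ c_i s^i = 0`, so `a_0 = 0`.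
-/

namespace FPS

theorem macaulay (j : ℕ) (Γ : Submodule ℂ (Fin (j + 1) → ℂ)) (Γ' : Submodule ℂ (Fin (j + 2) → ℂ))
    (h1 : ∀ a ∈ Γ', (fun i : Fin (j + 1) => a i.castSucc) ∈ Γ)
    (h2 : ∀ a ∈ Γ', (fun i : Fin (j + 1) => a i.succ) ∈ Γ)
    (h : Module.finrank ℂ Γ ≤ j) : Module.finrank ℂ Γ' ≤ Module.finrank ℂ Γ := by
  classical
  have hlt : Γ < ⊤ := by
    refine lt_top_iff_ne_top.2 ?_
    intro he
    rw [he, finrank_top, Module.finrank_fin_fun] at h
    omega
  obtain ⟨f, hf0, hfΓ⟩ := Submodule.exists_le_ker_of_lt_top Γ hlt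
  set c : Fin (j + 1) → ℂ := fun i => f (fun k => if i = k then 1 else 0) with hc
  have hf : ∀ v : Fin (j + 1) → ℂ, f v = ∑ i, v i * c i := by
    intro v
    rw [LinearMap.pi_apply_eq_sum_univ f v]
    simp [hc, smul_eq_mul]
  have hcne : ∃ i, c i ≠ 0 := by
    by_contra hcon
    push Not at hcon
    apply hf0
    ext v
    simp only [LinearMap.coe_comp, LinearMap.coe_single, Function.comp_apply, LinearMap.zero_comp,
      LinearMap.zero_apply]
    rw [hf]
    exact Finset.sum_eq_zero (fun i _ => by rw [hcon i, mul_zero])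
  set p : Polynomial ℂ := ∑ i : Fin (j + 1), Polynomial.C (c i) * Polynomial.X ^ (i : ℕ) with hp
  have hpne : p ≠ 0 := by
    obtain ⟨i, hi⟩ := hcne
    intro h0
    apply hi
    have : p.coeff (i : ℕ) = c i := by
      rw [hp, Polynomial.finsetSum_coeff]
      rw [Finset.sum_eq_single i]
      · simp
      · intro b _ hb
        rw [Polynomial.coeff_C_mul_X_pow]
        rw [if_neg]
        intro hh
        exact hb (Fin.ext hh.symm)
      · simp
    rw [← this, h0, Polynomial.coeff_zero]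
  obtain ⟨s, hs⟩ : ∃ s : ℂ, p.eval s ≠ 0 := by
    by_contra hcon
    push Not at hcon
    exact hpne (Polynomial.funext (fun r => by rw [hcon r, Polynomial.eval_zero]))
  have hs' : ∑ i : Fin (j + 1), s ^ (i : ℕ) * c i ≠ 0 := by
    have : p.eval s = ∑ i : Fin (j + 1), s ^ (i : ℕ) * c i := by
      rw [hp, Polynomial.eval_finsetSum]
      exact Finset.sum_congr rfl (fun i _ => by
        rw [Polynomial.eval_mul, Polynomial.eval_C, Polynomial.eval_pow, Polynomial.eval_X, mul_comm])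
    rwa [this] at hs
  let L : (Fin (j + 2) → ℂ) →ₗ[ℂ] (Fin (j + 1) → ℂ) :=
    { toFun := fun a i => a i.succ - s * a i.castSucc
      map_add' := by intro a b; ext i; simp only [Pi.add_apply]; ring
      map_smul' := by
        intro r a; ext i
        simp only [Pi.smul_apply, smul_eq_mul, RingHom.id_apply]; ring }
  have hL : ∀ a : Γ', (L.domRestrict Γ') a ∈ Γ := by
    intro a
    have e : (L.domRestrict Γ') a = (fun i : Fin (j + 1) => (a : Fin (j + 2) → ℂ) i.succ)
        - s • (fun i : Fin (j + 1) => (a : Fin (j + 2) → ℂ) i.castSucc) := by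
      ext i
      rfl
    rw [e]
    exact Γ.sub_mem (h2 _ a.2) (Γ.smul_mem _ (h1 _ a.2))
  refine LinearMap.finrank_le_finrank_of_injective (f := (L.domRestrict Γ').codRestrict Γ hL) ?_
  rw [← LinearMap.ker_eq_bot, LinearMap.ker_eq_bot']
  intro a ha
  have ha0 : ∀ i : Fin (j + 1), (a : Fin (j + 2) → ℂ) i.succ = s * (a : Fin (j + 2) → ℂ) i.castSucc := by
    intro i
    have h3 := congrArg (fun x : Γ => (x : Fin (j + 1) → ℂ) i) ha
    have h4 : (a : Fin (j + 2) → ℂ) i.succ - s * (a : Fin (j + 2) → ℂ) i.castSucc = 0 := h3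
    exact sub_eq_zero.1 h4
  have hpow : ∀ n : ℕ, ∀ hn : n < j + 2, (a : Fin (j + 2) → ℂ) ⟨n, hn⟩ = s ^ n * (a : Fin (j + 2) → ℂ) 0 := by
    intro n
    induction n with
    | zero => intro hn; simp
    | succ n ih =>
      intro hn
      have h5 := ha0 ⟨n, by omega⟩
      have h6 : (a : Fin (j + 2) → ℂ) ⟨n + 1, hn⟩ = s * (a : Fin (j + 2) → ℂ) ⟨n, by omega⟩ := h5
      rw [h6, ih (by omega)]
      ring
  have h7 : f (fun i : Fin (j + 1) => (a : Fin (j + 2) → ℂ) i.castSucc) = 0 :=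
    LinearMap.mem_ker.1 (hfΓ (h1 _ a.2))
  rw [hf] at h7
  have h8 : ∑ i : Fin (j + 1), (a : Fin (j + 2) → ℂ) i.castSucc * c i
      = (∑ i : Fin (j + 1), s ^ (i : ℕ) * c i) * (a : Fin (j + 2) → ℂ) 0 := by
    rw [Finset.sum_mul]
    refine Finset.sum_congr rfl (fun i _ => ?_)
    have h9 : (a : Fin (j + 2) → ℂ) i.castSucc = s ^ (i : ℕ) * (a : Fin (j + 2) → ℂ) 0 :=
      hpow i (by omega)
    rw [h9]; ring
  rw [h8] at h7
  have h10 : (a : Fin (j + 2) → ℂ) 0 = 0 := (mul_eq_zero.1 h7).resolve_left hs'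
  ext n
  have h11 := hpow n n.2
  rw [h10, mul_zero] at h11
  simpa using h11

end FPS
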