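import Pool.Agent.Lib.FPW.JetW

/-!
# FPW.Sym: symmetry of the derivatives of leading order

PROOF of `wd_perm`. `List.Perm` induction reduces to the interchange of two adjacent letters inside a
word: `w = u ++ [i, i'] ++ v`. The commutator `C = [δ_i, δ_i']` (Mathlib: `⁅dl F i, dl F i'⁆` is a
derivation) kills `F` (`dl_self`), so `C (JI F p (k+1)) ⊆ JI F p k` (Leibniz, `C (m^(k+1)) ⊆ m^k`; same
proof as `dl_JI`, for any derivation `D` with `F ∣ D F`). Hence, with `k = |w|`, `wd v G ∈ JI (k - |v|)`,
`C (wd v G) ∈ JI (k - |v| - 1)`, `wd u (C (wd v G)) ∈ JI (k - |v| - 1 - |u|) = JI 1`, so its value at `p`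
is `0`.
`mem_succ_iff_lead`: `mem_JI_words`: `G ∈ JI F p (j+1)` iff all `wd w G` with `|w| ≤ j` vanish at `p`;
those with `|w| < j` do since `G ∈ JI F p j`; a word of length `j` with `i` letters `0` is a permutation
of `cw j i`.
-/

namespace FPS

open MvPolynomial

/-- Leibniz: a derivation maps `I ^ (j + 1)` into `I ^ j` -/
theorem sym_der_pow (D : Derivation ℂ (MvPolynomial (Fin 3) ℂ) (MvPolynomial (Fin 3) ℂ))
    (I : Ideal (MvPolynomial (Fin 3) ℂ)) (j : ℕ) (G : MvPolynomial (Fin 3) ℂ)
    (hG : G ∈ I ^ (j + 1)) : D G ∈ I ^ j := by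
  induction j generalizing G with
  | zero => simp
  | succ j ih =>
    rw [pow_succ] at hG
    refine Submodule.mul_induction_on hG ?_ ?_
    · intro a ha b hb
      rw [Derivation.leibniz]
      simp only [smul_eq_mul]
      refine Ideal.add_mem _ (Ideal.mul_mem_right _ _ ha) ?_
      have h1 := Ideal.mul_mem_mul (ih a ha) hb
      rw [← pow_succ] at h1
      rwa [mul_comm]
    · intro a b ha hb
      rw [map_add]
      exact Ideal.add_mem _ ha hb

theorem sym_der_JI (F : MvPolynomial (Fin 3) ℂ) (p : Fin 3 → ℂ) (j : ℕ)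
    (D : Derivation ℂ (MvPolynomial (Fin 3) ℂ) (MvPolynomial (Fin 3) ℂ)) (hD : D F = 0)
    (G : MvPolynomial (Fin 3) ℂ) (hG : G ∈ JI F p (j + 1)) : D G ∈ JI F p j := by
  have hG' : G ∈ Ideal.span {F} ⊔ ptIdeal p ^ (j + 1) := hG
  show D G ∈ Ideal.span {F} ⊔ ptIdeal p ^ j
  obtain ⟨a, ha, b, hb, rfl⟩ := Submodule.mem_sup.1 hG'
  obtain ⟨c, rfl⟩ := Ideal.mem_span_singleton'.1 ha
  rw [map_add]
  refine Ideal.add_mem _ ?_ ?_
  · rw [Derivation.leibniz, hD]
    simp only [smul_eq_mul, mul_zero, zero_add]
    exact Ideal.mem_sup_left (Ideal.mul_mem_right _ _ (Ideal.mem_span_singleton_self F))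
  · exact Ideal.mem_sup_right (sym_der_pow D _ j b hb)

theorem sym_wd_JI (F : MvPolynomial (Fin 3) ℂ) (p : Fin 3 → ℂ) (w : List (Fin 2)) (j : ℕ)
    (G : MvPolynomial (Fin 3) ℂ) (hG : G ∈ JI F p (j + w.length)) : wd F w G ∈ JI F p j := by
  induction w generalizing j with
  | nil => exact hG
  | cons i w ih =>
    show dl F i (wd F w G) ∈ JI F p j
    refine dl_JI F p j i _ (ih (j + 1) ?_)
    rw [List.length_cons] at hG
    rwa [show j + 1 + w.length = j + (w.length + 1) by ring]

theorem sym_swap (F : MvPolynomial (Fin 3) ℂ) (p : Fin 3 → ℂ) (hp : Sm F p)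
    (u v : List (Fin 2)) (i i' : Fin 2) (G : MvPolynomial (Fin 3) ℂ)
    (hG : G ∈ JI F p (u ++ i :: i' :: v).length) :
    eval p (wd F (u ++ i :: i' :: v) G) = eval p (wd F (u ++ i' :: i :: v) G) := by
  rw [wd_append, wd_append]
  show eval p (wd F u (dl F i (dl F i' (wd F v G)))) = eval p (wd F u (dl F i' (dl F i (wd F v G))))
  have h1 : dl F i (dl F i' (wd F v G)) - dl F i' (dl F i (wd F v G)) = ⁅dl F i, dl F i'⁆ (wd F v G) := by
    rw [Derivation.commutator_apply]
  have h2 : wd F v G ∈ JI F p (1 + u.length + 1) := by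
    apply sym_wd_JI
    rw [List.length_append, List.length_cons, List.length_cons] at hG
    rwa [show 1 + u.length + 1 + v.length = u.length + (v.length + 1 + 1) by ring]
  have h3 : ⁅dl F i, dl F i'⁆ (wd F v G) ∈ JI F p (1 + u.length) := by
    refine sym_der_JI F p _ _ ?_ _ h2
    rw [Derivation.commutator_apply, dl_self, dl_self, map_zero, map_zero, sub_zero]
  have h4 := sym_wd_JI F p u 1 _ h3
  rw [mem_JI_one F p hp.1, ← h1, map_sub, map_sub, sub_eq_zero] at h4
  exact h4

theorem wd_perm (F : MvPolynomial (Fin 3) ℂ) (p : Fin 3 → ℂ) (hp : Sm F p)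
    (w w' : List (Fin 2)) (hw : w.Perm w') (G : MvPolynomial (Fin 3) ℂ)
    (hG : G ∈ JI F p w.length) : eval p (wd F w G) = eval p (wd F w' G) := by
  have key : ∀ u : List (Fin 2), G ∈ JI F p (u ++ w).length →
      eval p (wd F (u ++ w) G) = eval p (wd F (u ++ w') G) := by
    clear hG
    induction hw with
    | nil => intro u _; rfl
    | cons x _ ih =>
      intro u hu
      have := ih (u ++ [x]) (by simpa using hu)
      simpa using this
    | swap x y l =>
      intro u hu
      exact sym_swap F p hp u l y x G hu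
    | trans h1 _ ih1 ih2 =>
      intro u hu
      refine (ih1 u hu).trans (ih2 u ?_)
      rw [List.length_append, ← h1.length_eq, ← List.length_append]
      exact hu
  exact key [] hG

theorem mem_succ_iff_lead (F : MvPolynomial (Fin 3) ℂ) (p : Fin 3 → ℂ) (hp : Sm F p) (j : ℕ)
    (G : MvPolynomial (Fin 3) ℂ) (hG : G ∈ JI F p j) :
    G ∈ JI F p (j + 1) ↔ lead F p j G = 0 := by
  rw [mem_JI_words F p hp]
  have hG0 := (mem_JI_words F p hp j G).1 hG
  constructor
  · intro h
    funext i
    show aeval p (wd F (cw j i) G) = 0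
    rw [MvPolynomial.aeval_eq_eval]
    refine h _ ?_
    have : (i : ℕ) ≤ j := by omega
    simp only [cw, List.length_append, List.length_replicate]
    omega
  · intro h w hw
    rcases Nat.lt_or_ge w.length j with h1 | h1
    · exact hG0 w h1
    · have h2 : w.length = j := by omega
      have h3 : w.count 0 ≤ j := h2 ▸ List.count_le_length
      have h4 : w.Perm (cw j (w.count 0)) := by
        rw [List.perm_iff_count]
        intro a
        have h5 : w.count 0 + w.count 1 = w.length := by
          clear h1 h2 h3 hw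
          induction w with
          | nil => rfl
          | cons b w ih =>
            fin_cases b <;> simp at ih ⊢ <;> omega
        fin_cases a
        · simp [cw, List.count_append, List.count_replicate]
        · simp [cw, List.count_append, List.count_replicate]
          omega
      rw [wd_perm F p hp w _ h4 G (h2.symm ▸ hG)]
      have h6 := congrFun h ⟨w.count 0, by omega⟩
      have h7 : aeval p (wd F (cw j (w.count 0)) G) = 0 := h6
      rwa [MvPolynomial.aeval_eq_eval] at h7

end FPS
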