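import Pool.Agent.Lib.FPW.MaxR
import Pool.Agent.Lib.FPW.Sym
import Pool.Agent.Lib.FPW.Shift

/-!
# FPW.MacV: Macaulay's inequality for the dimensions of the subspaces of given order

`V_j = V ⊓ JI F x0 j`. `JI F x0 (j+1) ≤ JI F x0 j`.
PROOF of `step_V`: the kernel of `lead F x0 j` on `V_j` is `V_{j+1}` (`mem_succ_iff_lead`), the target
has dimension `j + 1` (rank-nullity).
PROOF of `mac_V`: let `Γ_j = (lead F x0 j) (V_j)`, a submodule of `Fin (j+1) → ℂ` of dimension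
`dim V_j - dim V_{j+1} ≤ j`, and `Γ' = (lead F x0 (j+1)) (V_{j+1})`. `macaulay j Γ_j Γ'` gives
`finrank Γ' ≤ finrank Γ_j`, as required. The two hypotheses: let `G ∈ V_{j+1}`,
`a i = eval x0 (wd F (cw (j+1) i) G)`. Let `ι = {w : List (Fin 2) // w.length ≤ j}` (finite:
`List.finite_length_le`), `A w = wd F w`. By `mem_JI_words`, for every smooth `x`,
`zer V A x = V ⊓ JI F x (j+1)`. So `maxrank` with `D = dl F k` (`D F = 0`, `dl_self`) gives `G1 ∈ V` with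
`eval x0 (wd F w G1) = eval x0 (wd F (k :: w) G)` for all `|w| ≤ j`. For `|w| < j` the right side is `0`
(`mem_JI_words`), so `G1 ∈ JI F x0 j`. For `w = cw j i`, `i : Fin (j+1)`: if `k = 0`, `0 :: cw j i =
cw (j+1) (i+1)`, so `lead F x0 j G1 = fun i => a i.succ`; if `k = 1`, `1 :: cw j i` is a permutation of
`cw (j+1) i`, so `lead F x0 j G1 = fun i => a i.castSucc` by `wd_perm`.
-/

namespace FPS

open MvPolynomial

theorem JI_succ_le (F : MvPolynomial (Fin 3) ℂ) (p : Fin 3 → ℂ) (j : ℕ) :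
    JI F p (j + 1) ≤ JI F p j := by
  intro x hx
  have hx' : x ∈ Ideal.span {F} ⊔ ptIdeal p ^ (j + 1) := hx
  have h : Ideal.span {F} ⊔ ptIdeal p ^ (j + 1) ≤ Ideal.span {F} ⊔ ptIdeal p ^ j :=
    sup_le_sup_left (Ideal.pow_le_pow_right (Nat.le_succ j)) _
  exact h hx'

theorem lead_apply (F : MvPolynomial (Fin 3) ℂ) (p : Fin 3 → ℂ) (j : ℕ)
    (G : MvPolynomial (Fin 3) ℂ) (i : Fin (j + 1)) :
    lead F p j G i = eval p (wd F (cw j i) G) := by
  have h : lead F p j G i = aeval p (wd F (cw j i) G) := rfl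
  rw [h, MvPolynomial.aeval_eq_eval]

theorem cw_length (j i : ℕ) (h : i ≤ j) : (cw j i).length = j := by
  unfold cw
  rw [List.length_append, List.length_replicate, List.length_replicate]
  omega

theorem cw_zero_cons (j i : ℕ) : (0 : Fin 2) :: cw j i = cw (j + 1) (i + 1) := by
  unfold cw
  rw [List.replicate_succ, Nat.add_sub_add_right]
  rfl

theorem cw_one_cons (j i : ℕ) (h : i ≤ j) : ((1 : Fin 2) :: cw j i).Perm (cw (j + 1) i) := by
  unfold cw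
  have e : j + 1 - i = (j - i) + 1 := by omega
  rw [e, List.replicate_succ]
  exact List.perm_middle.symm

theorem rank_V (F : MvPolynomial (Fin 3) ℂ) (x0 : Fin 3 → ℂ) (hx0 : Sm F x0)
    (V : Submodule ℂ (MvPolynomial (Fin 3) ℂ)) [FiniteDimensional ℂ V] (j : ℕ) :
    Module.finrank ℂ (V ⊓ JI F x0 j : Submodule ℂ (MvPolynomial (Fin 3) ℂ)) =
      Module.finrank ℂ (V ⊓ JI F x0 (j + 1) : Submodule ℂ (MvPolynomial (Fin 3) ℂ)) +
      Module.finrank ℂ ((V ⊓ JI F x0 j).map (lead F x0 j)) := by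
  have hfd : FiniteDimensional ℂ (V ⊓ JI F x0 j : Submodule ℂ (MvPolynomial (Fin 3) ℂ)) :=
    Submodule.finiteDimensional_of_le inf_le_left
  have hk := LinearMap.finrank_range_add_finrank_ker
    ((lead F x0 j).domRestrict (V ⊓ JI F x0 j : Submodule ℂ (MvPolynomial (Fin 3) ℂ)))
  have hr : LinearMap.range
      ((lead F x0 j).domRestrict (V ⊓ JI F x0 j : Submodule ℂ (MvPolynomial (Fin 3) ℂ))) =
      (V ⊓ JI F x0 j).map (lead F x0 j) := LinearMap.range_domRestrict _ _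
  have hker : (LinearMap.ker
      ((lead F x0 j).domRestrict (V ⊓ JI F x0 j : Submodule ℂ (MvPolynomial (Fin 3) ℂ)))).map
      (V ⊓ JI F x0 j : Submodule ℂ (MvPolynomial (Fin 3) ℂ)).subtype = V ⊓ JI F x0 (j + 1) := by
    ext G
    constructor
    · rintro ⟨⟨H, hH⟩, h1, rfl⟩
      have h2 : lead F x0 j H = 0 := h1
      exact ⟨hH.1, (mem_succ_iff_lead F x0 hx0 j H hH.2).2 h2⟩
    · intro hG
      have hj : G ∈ JI F x0 j := JI_succ_le F x0 j hG.2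
      refine ⟨⟨G, ⟨hG.1, hj⟩⟩, ?_, rfl⟩
      have h2 : lead F x0 j G = 0 := (mem_succ_iff_lead F x0 hx0 j G hj).1 hG.2
      exact h2
  have hfk : Module.finrank ℂ (V ⊓ JI F x0 (j + 1) : Submodule ℂ (MvPolynomial (Fin 3) ℂ)) =
      Module.finrank ℂ (LinearMap.ker
      ((lead F x0 j).domRestrict (V ⊓ JI F x0 j : Submodule ℂ (MvPolynomial (Fin 3) ℂ)))) := by
    rw [← hker]
    exact Submodule.finrank_map_subtype_eq _ _
  rw [hr] at hk
  omega

theorem step_V (F : MvPolynomial (Fin 3) ℂ) (x0 : Fin 3 → ℂ) (hx0 : Sm F x0)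
    (V : Submodule ℂ (MvPolynomial (Fin 3) ℂ)) [FiniteDimensional ℂ V] (j : ℕ) :
    Module.finrank ℂ (V ⊓ JI F x0 j : Submodule ℂ (MvPolynomial (Fin 3) ℂ)) ≤
      Module.finrank ℂ (V ⊓ JI F x0 (j + 1) : Submodule ℂ (MvPolynomial (Fin 3) ℂ)) + (j + 1) := by
  have h1 := rank_V F x0 hx0 V j
  have h2 : Module.finrank ℂ ((V ⊓ JI F x0 j).map (lead F x0 j)) ≤ j + 1 := by
    have h3 := Submodule.finrank_le ((V ⊓ JI F x0 j).map (lead F x0 j))
    rwa [Module.finrank_fin_fun] at h3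
  omega

theorem zer_eq (F : MvPolynomial (Fin 3) ℂ) (V : Submodule ℂ (MvPolynomial (Fin 3) ℂ)) (j : ℕ)
    (x : Fin 3 → ℂ) (hx : Sm F x) :
    zer V (fun w : {w : List (Fin 2) // w.length ≤ j} => wd F w.1) x = V ⊓ JI F x (j + 1) := by
  ext G
  constructor
  · rintro ⟨h1, h2⟩
    exact ⟨h1, (mem_JI_words F x hx (j + 1) G).2 fun w hw => h2 ⟨w, Nat.lt_succ_iff.1 hw⟩⟩
  · rintro ⟨h1, h2⟩
    exact ⟨h1, fun w => (mem_JI_words F x hx (j + 1) G).1 h2 w.1 (Nat.lt_succ_iff.2 w.2)⟩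

theorem key_V (F : MvPolynomial (Fin 3) ℂ) (hF : Prime F) (x0 : Fin 3 → ℂ) (hx0 : Sm F x0)
    (V : Submodule ℂ (MvPolynomial (Fin 3) ℂ)) [FiniteDimensional ℂ V] (j : ℕ)
    (hmax : ∀ x, Sm F x →
      Module.finrank ℂ (V ⊓ JI F x0 (j + 1) : Submodule ℂ (MvPolynomial (Fin 3) ℂ)) ≤
      Module.finrank ℂ (V ⊓ JI F x (j + 1) : Submodule ℂ (MvPolynomial (Fin 3) ℂ)))
    (G : MvPolynomial (Fin 3) ℂ) (hG : G ∈ V ⊓ JI F x0 (j + 1)) (k : Fin 2) :
    ∃ G1 ∈ V ⊓ JI F x0 j, ∀ w : List (Fin 2), w.length ≤ j →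
      eval x0 (wd F w G1) = eval x0 (wd F (k :: w) G) := by
  have : Finite {w : List (Fin 2) // w.length ≤ j} :=
    (List.finite_length_le (Fin 2) j).to_subtype
  have hD : F ∣ dl F k F := by
    rw [dl_self]
    exact dvd_zero _
  obtain ⟨G1, h1, h2⟩ := maxrank F hF V (dl F k) hD
    (fun w : {w : List (Fin 2) // w.length ≤ j} => wd F w.1) x0 hx0
    (fun x hx => by
      rw [zer_eq F V j x0 hx0, zer_eq F V j x hx]
      exact hmax x hx) G (by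
      rw [zer_eq F V j x0 hx0]
      exact hG)
  have h3 : ∀ w : List (Fin 2), w.length ≤ j →
      eval x0 (wd F w G1) = eval x0 (wd F (k :: w) G) := fun w hw => h2 ⟨w, hw⟩
  refine ⟨G1, ⟨h1, ?_⟩, h3⟩
  refine (mem_JI_words F x0 hx0 j G1).2 fun w hw => ?_
  rw [h3 w hw.le]
  refine (mem_JI_words F x0 hx0 (j + 1) G).1 hG.2 (k :: w) ?_
  rw [List.length_cons]
  omega

theorem mac_V (F : MvPolynomial (Fin 3) ℂ) (hF : Prime F) (x0 : Fin 3 → ℂ) (hx0 : Sm F x0)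
    (V : Submodule ℂ (MvPolynomial (Fin 3) ℂ)) [FiniteDimensional ℂ V] (j : ℕ)
    (hmax : ∀ x, Sm F x →
      Module.finrank ℂ (V ⊓ JI F x0 (j + 1) : Submodule ℂ (MvPolynomial (Fin 3) ℂ)) ≤
      Module.finrank ℂ (V ⊓ JI F x (j + 1) : Submodule ℂ (MvPolynomial (Fin 3) ℂ)))
    (h : Module.finrank ℂ (V ⊓ JI F x0 j : Submodule ℂ (MvPolynomial (Fin 3) ℂ)) ≤
      Module.finrank ℂ (V ⊓ JI F x0 (j + 1) : Submodule ℂ (MvPolynomial (Fin 3) ℂ)) + j) :
    2 * Module.finrank ℂ (V ⊓ JI F x0 (j + 1) : Submodule ℂ (MvPolynomial (Fin 3) ℂ)) ≤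
      Module.finrank ℂ (V ⊓ JI F x0 (j + 2) : Submodule ℂ (MvPolynomial (Fin 3) ℂ)) +
      Module.finrank ℂ (V ⊓ JI F x0 j : Submodule ℂ (MvPolynomial (Fin 3) ℂ)) := by
  have r1 := rank_V F x0 hx0 V j
  have r2 : Module.finrank ℂ (V ⊓ JI F x0 (j + 1) : Submodule ℂ (MvPolynomial (Fin 3) ℂ)) =
      Module.finrank ℂ (V ⊓ JI F x0 (j + 2) : Submodule ℂ (MvPolynomial (Fin 3) ℂ)) +
      Module.finrank ℂ ((V ⊓ JI F x0 (j + 1)).map (lead F x0 (j + 1))) :=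
    rank_V F x0 hx0 V (j + 1)
  have key := key_V F hF x0 hx0 V j hmax
  have h1 : ∀ a ∈ (V ⊓ JI F x0 (j + 1)).map (lead F x0 (j + 1)),
      (fun i : Fin (j + 1) => a i.castSucc) ∈ (V ⊓ JI F x0 j).map (lead F x0 j) := by
    rintro a ⟨G, hG, rfl⟩
    obtain ⟨G1, hG1, h3⟩ := key G hG 1
    refine ⟨G1, hG1, ?_⟩
    funext i
    have hi : (i : ℕ) ≤ j := Nat.lt_succ_iff.1 i.2
    rw [lead_apply, lead_apply, h3 _ (cw_length j i hi).le, Fin.val_castSucc]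
    refine wd_perm F x0 hx0 _ _ (cw_one_cons j i hi) G ?_
    rw [List.length_cons, cw_length j i hi]
    exact hG.2
  have h2 : ∀ a ∈ (V ⊓ JI F x0 (j + 1)).map (lead F x0 (j + 1)),
      (fun i : Fin (j + 1) => a i.succ) ∈ (V ⊓ JI F x0 j).map (lead F x0 j) := by
    rintro a ⟨G, hG, rfl⟩
    obtain ⟨G1, hG1, h3⟩ := key G hG 0
    refine ⟨G1, hG1, ?_⟩
    funext i
    have hi : (i : ℕ) ≤ j := Nat.lt_succ_iff.1 i.2
    rw [lead_apply, lead_apply, h3 _ (cw_length j i hi).le, cw_zero_cons, Fin.val_succ]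
  have h3 : Module.finrank ℂ ((V ⊓ JI F x0 (j + 1)).map (lead F x0 (j + 1))) ≤
      Module.finrank ℂ ((V ⊓ JI F x0 j).map (lead F x0 j)) :=
    macaulay j _ _ h1 h2 (by omega)
  omega

end FPS
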