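import Pool.Agent.Lib.FPW.Defs

/-!
# FPW.ProdIrr: irreducibility of the powers of the surface

PROOF of `prod_irr`: induction on `r`. `r = 0`: there is only one `q`, so the two values are the values
at the same point. Step: let `Ψ1(a) ≠ 0`, `Ψ2(b) ≠ 0` with tuples `a`, `b` on `F = 0` (length `r + 1`).
Fix the first point: `Ψ1(a_0, ·)` and `Ψ2(b_0, ·)` are polynomials in the other `r` points, nonzero at
the tails of `a`, `b`; by induction there is a common `r`-tuple `c` with `Ψ1(a_0, c) ≠ 0 ≠ Ψ2(b_0, c)`.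
Now `Ψ1(·, c)`, `Ψ2(·, c)` are polynomials in one point, not divisible by `F` (nonzero at `a_0`, `b_0`);
`F` is prime, so it does not divide their product, and `exists_point` (`FPS/Pencil.lean`) gives `x` on
`F = 0` where both are nonzero. Take `(x, c)`.
`prod_irr_finset`: `Finset.induction` on `s` (products of polynomials).
-/

namespace FPS

open MvPolynomial

theorem prodIrr_evalA {r : ℕ} (x : Fin 3 → ℂ) (q : Fin r → Fin 3 → ℂ)
    (Ψ : MvPolynomial (Fin (r + 1) × Fin 3) ℂ) :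
    eval (fun i : Fin r × Fin 3 => q i.1 i.2)
      (bind₁ (fun i : Fin (r + 1) × Fin 3 => (Fin.cons (fun k => C (x k)) (fun l k => X (l, k)) :
        Fin (r + 1) → Fin 3 → MvPolynomial (Fin r × Fin 3) ℂ) i.1 i.2) Ψ)
      = eval (fun i : Fin (r + 1) × Fin 3 =>
        (Fin.cons x q : Fin (r + 1) → Fin 3 → ℂ) i.1 i.2) Ψ := by
  rw [FamilyAux.eval_bind]
  congr 2
  funext i
  obtain ⟨l, k⟩ := i
  refine Fin.cases ?_ (fun l => ?_) l
  · simp
  · simp

theorem prodIrr_evalB {r : ℕ} (x : Fin 3 → ℂ) (q : Fin r → Fin 3 → ℂ)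
    (Ψ : MvPolynomial (Fin (r + 1) × Fin 3) ℂ) :
    eval x
      (bind₁ (fun i : Fin (r + 1) × Fin 3 => (Fin.cons (fun k => X k) (fun l k => C (q l k)) :
        Fin (r + 1) → Fin 3 → MvPolynomial (Fin 3) ℂ) i.1 i.2) Ψ)
      = eval (fun i : Fin (r + 1) × Fin 3 =>
        (Fin.cons x q : Fin (r + 1) → Fin 3 → ℂ) i.1 i.2) Ψ := by
  rw [FamilyAux.eval_bind]
  congr 2
  funext i
  obtain ⟨l, k⟩ := i
  refine Fin.cases ?_ (fun l => ?_) l
  · simp
  · simp

theorem prod_irr (F : MvPolynomial (Fin 3) ℂ) (hF : Prime F) {r : ℕ}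
    (Ψ1 Ψ2 : MvPolynomial (Fin r × Fin 3) ℂ)
    (h1 : ∃ q : Fin r → Fin 3 → ℂ, (∀ l, eval (q l) F = 0) ∧
      eval (fun i : Fin r × Fin 3 => q i.1 i.2) Ψ1 ≠ 0)
    (h2 : ∃ q : Fin r → Fin 3 → ℂ, (∀ l, eval (q l) F = 0) ∧
      eval (fun i : Fin r × Fin 3 => q i.1 i.2) Ψ2 ≠ 0) :
    ∃ q : Fin r → Fin 3 → ℂ, (∀ l, eval (q l) F = 0) ∧
      eval (fun i : Fin r × Fin 3 => q i.1 i.2) (Ψ1 * Ψ2) ≠ 0 := by
  induction r with
  | zero =>
    obtain ⟨q, -, h1⟩ := h1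
    obtain ⟨q', -, h2⟩ := h2
    refine ⟨q, fun l => l.elim0, ?_⟩
    have : q' = q := Subsingleton.elim _ _
    rw [this] at h2
    rw [map_mul]
    exact mul_ne_zero h1 h2
  | succ r ih =>
    obtain ⟨a, ha, h1⟩ := h1
    obtain ⟨b, hb, h2⟩ := h2
    rw [← Fin.cons_self_tail a, ← prodIrr_evalA] at h1
    rw [← Fin.cons_self_tail b, ← prodIrr_evalA] at h2
    obtain ⟨c, hc, h3⟩ := ih _ _ ⟨Fin.tail a, fun l => ha l.succ, h1⟩
      ⟨Fin.tail b, fun l => hb l.succ, h2⟩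
    rw [map_mul, prodIrr_evalA, prodIrr_evalA] at h3
    have h4 := left_ne_zero_of_mul h3
    have h5 := right_ne_zero_of_mul h3
    rw [← prodIrr_evalB] at h4 h5
    have hd : ∀ (x : Fin 3 → ℂ) (H : MvPolynomial (Fin 3) ℂ), eval x F = 0 → eval x H ≠ 0 →
        ¬ F ∣ H := by
      rintro x H hx hH ⟨K, rfl⟩
      rw [map_mul, hx, zero_mul] at hH
      exact hH rfl
    obtain ⟨x, hx, h6⟩ := exists_point F hF _ (fun hdvd =>
      (hF.dvd_or_dvd hdvd).elim (hd _ _ (ha 0) h4) (hd _ _ (hb 0) h5))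
    refine ⟨Fin.cons x c, fun l => ?_, ?_⟩
    · refine Fin.cases ?_ (fun l => ?_) l
      · simpa using hx
      · simpa using hc l
    · rw [map_mul, prodIrr_evalB, prodIrr_evalB] at h6
      rw [map_mul]
      exact h6

theorem prod_irr_finset (F : MvPolynomial (Fin 3) ℂ) (hF : Prime F) {r : ℕ} {ι : Type*}
    (s : Finset ι) (Ψ : ι → MvPolynomial (Fin r × Fin 3) ℂ)
    (h : ∀ i ∈ s, ∃ q : Fin r → Fin 3 → ℂ, (∀ l, eval (q l) F = 0) ∧
      eval (fun k : Fin r × Fin 3 => q k.1 k.2) (Ψ i) ≠ 0) :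
    ∃ q : Fin r → Fin 3 → ℂ, (∀ l, eval (q l) F = 0) ∧
      ∀ i ∈ s, eval (fun k : Fin r × Fin 3 => q k.1 k.2) (Ψ i) ≠ 0 := by
  classical
  have key : ∃ q : Fin r → Fin 3 → ℂ, (∀ l, eval (q l) F = 0) ∧
      eval (fun k : Fin r × Fin 3 => q k.1 k.2) (∏ i ∈ s, Ψ i) ≠ 0 := by
    induction s using Finset.induction_on with
    | empty =>
      obtain ⟨x, hx, -⟩ := exists_point F hF 1 (fun h => hF.not_unit (isUnit_of_dvd_one h))
      exact ⟨fun _ => x, fun _ => hx, by simp⟩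
    | insert i s hi ih =>
      rw [Finset.prod_insert hi]
      exact prod_irr F hF _ _ (h i (Finset.mem_insert_self i s))
        (ih fun j hj => h j (Finset.mem_insert_of_mem hj))
  obtain ⟨q, hq, h1⟩ := key
  rw [map_prod] at h1
  exact ⟨q, hq, fun i hi => Finset.prod_ne_zero_iff.1 h1 i hi⟩

end FPS
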