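import Pool.Agent.Lib.FPW.DmB
import Pool.Agent.Lib.FPW.MacV
import Pool.Agent.Lib.FPW.ProdIrr
import Pool.Agent.Lib.FPS.OpenFix

/-!
# FPW.DmM: the generic dimensions form a `Sys`

PROOF of `common_point`: for every `m ∈ s` take a tuple attaining `Dm F e m` (`Dm_attained`) and
`open_fixed` there: `Ψ m`; `prod_irr_finset` gives one tuple `q` on `F = 0` with all `Ψ m (q) ≠ 0`; all
`q l` are smooth and `finrank (series F e q m) ≤ Dm F e m`, with equality by `Dm_le`. (If `s` is empty use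
the constant tuple.)
PROOF of `Dm_step`: take `(x, q)` attaining `Dm` for `Fin.cons (a+1) m` (`Fin.cons_self_tail`),
`series_cons`, `step_V` for `V = series F e q m`, and `Dm_le`.
PROOF of `Dm_mac`: take `(x, q)` attaining the three `Dm` for `Fin.cons a m`, `Fin.cons (a+1) m`,
`Fin.cons (a+2) m` (`common_point`), `V = series F e q m`; `mac_V`: `hmax` holds since
`finrank (V ⊓ JI F x (a+1)) = finrank (series F e (Fin.cons x q) (Fin.cons (a+1) m)) ≥ Dm`.
PROOF of `NL_sys`: `(a :: L).get = Fin.cons a L.get`; `Dm_swap`, `Dm_cons_zero`, `Dm_anti`, `Dm_step`,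
`Dm_mac` and `mults_le_Dm` (truncated subtraction).
-/

namespace FPS

open MvPolynomial

theorem common_point (F : MvPolynomial (Fin 3) ℂ) (hF : Prime F) (hsm : ∃ p, Sm F p) (e : ℕ)
    {r : ℕ} (s : Finset (Fin r → ℕ)) :
    ∃ q : Fin r → Fin 3 → ℂ, (∀ l, Sm F (q l)) ∧
      ∀ m ∈ s, Module.finrank ℂ (series F e q m) = Dm F e m := by
  classical
  have hex : ∀ m : Fin r → ℕ, ∃ Ψ : MvPolynomial (Fin r × Fin 3) ℂ,
      (∃ q : Fin r → Fin 3 → ℂ, (∀ l, eval (q l) F = 0) ∧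
        eval (fun k : Fin r × Fin 3 => q k.1 k.2) Ψ ≠ 0) ∧
      ∀ q : Fin r → Fin 3 → ℂ, (∀ l, eval (q l) F = 0) →
        eval (fun k : Fin r × Fin 3 => q k.1 k.2) Ψ ≠ 0 →
        Module.finrank ℂ (series F e q m) ≤ Dm F e m ∧ ∀ l, Sm F (q l) := by
    intro m
    obtain ⟨q0, hq0, hd⟩ := Dm_attained F hsm e m
    obtain ⟨Ψ, h0, h⟩ := open_fixed F e m q0 (fun l => (hq0 l).1) (fun l => (hq0 l).2)
    refine ⟨Ψ, ⟨q0, fun l => (hq0 l).1, h0⟩, fun q hq hne => ?_⟩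
    obtain ⟨h1, -, h2⟩ := h q hq hne
    exact ⟨hd ▸ h1, fun l => ⟨hq l, h2 l⟩⟩
  choose Ψ hΨ0 hΨ using hex
  obtain ⟨q, hq, hne⟩ := prod_irr_finset F hF (insert 0 s) Ψ (fun m _ => hΨ0 m)
  refine ⟨q, (hΨ 0 q hq (hne 0 (Finset.mem_insert_self _ _))).2, fun m hm => ?_⟩
  obtain ⟨h1, h2⟩ := hΨ m q hq (hne m (Finset.mem_insert_of_mem hm))
  exact le_antisymm h1 (Dm_le F e m q h2)

theorem Dm_step (F : MvPolynomial (Fin 3) ℂ) (hsm : ∃ p, Sm F p) (e : ℕ) {r : ℕ} (a : ℕ)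
    (m : Fin r → ℕ) :
    Dm F e (Fin.cons a m : Fin (r + 1) → ℕ) ≤ Dm F e (Fin.cons (a + 1) m : Fin (r + 1) → ℕ)
      + (a + 1) := by
  obtain ⟨q, hq, hd⟩ := Dm_attained F hsm e (Fin.cons (a + 1) m : Fin (r + 1) → ℕ)
  have h1 := Dm_le F e (Fin.cons a m : Fin (r + 1) → ℕ) q hq
  rw [← hd]
  refine h1.trans ?_
  rw [← Fin.cons_self_tail q, series_cons, series_cons]
  have := series_fin F e (Fin.tail q) m
  exact step_V F (q 0) (hq 0) (series F e (Fin.tail q) m) a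

theorem Dm_mac (F : MvPolynomial (Fin 3) ℂ) (hF : Prime F) (hsm : ∃ p, Sm F p) (e : ℕ) {r : ℕ}
    (a : ℕ) (m : Fin r → ℕ)
    (h : Dm F e (Fin.cons a m : Fin (r + 1) → ℕ)
      ≤ Dm F e (Fin.cons (a + 1) m : Fin (r + 1) → ℕ) + a) :
    2 * Dm F e (Fin.cons (a + 1) m : Fin (r + 1) → ℕ)
      ≤ Dm F e (Fin.cons (a + 2) m : Fin (r + 1) → ℕ) + Dm F e (Fin.cons a m : Fin (r + 1) → ℕ) := by
  classical
  obtain ⟨q, hq, hd⟩ := common_point F hF hsm e
    ({(Fin.cons a m : Fin (r + 1) → ℕ), (Fin.cons (a + 1) m : Fin (r + 1) → ℕ),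
      (Fin.cons (a + 2) m : Fin (r + 1) → ℕ)} : Finset (Fin (r + 1) → ℕ))
  have h0 := hd (Fin.cons a m : Fin (r + 1) → ℕ) (by simp)
  have h1 := hd (Fin.cons (a + 1) m : Fin (r + 1) → ℕ) (by simp)
  have h2 := hd (Fin.cons (a + 2) m : Fin (r + 1) → ℕ) (by simp)
  have hfin := series_fin F e (Fin.tail q) m
  have hcons : ∀ c : ℕ, Module.finrank ℂ (series F e q (Fin.cons c m : Fin (r + 1) → ℕ)) =
      Module.finrank ℂ (series F e (Fin.tail q) m ⊓ JI F (q 0) c :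
        Submodule ℂ (MvPolynomial (Fin 3) ℂ)) := by
    intro c
    conv_lhs => rw [← Fin.cons_self_tail q]
    rw [series_cons]
  rw [hcons] at h0 h1 h2
  rw [← h0, ← h1] at h
  rw [← h0, ← h1, ← h2]
  refine mac_V F hF (q 0) (hq 0) (series F e (Fin.tail q) m) a ?_ h
  intro x hx
  rw [h1]
  have h3 := Dm_le F e (Fin.cons (a + 1) m : Fin (r + 1) → ℕ)
    (Fin.cons x (Fin.tail q) : Fin (r + 1) → Fin 3 → ℂ) (fun l => by
      refine Fin.cases ?_ (fun l => ?_) l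
      · exact hx
      · exact hq l.succ)
  rwa [series_cons] at h3

theorem NL_sys (F : MvPolynomial (Fin 3) ℂ) (hF : Prime F) (hsm : ∃ p, Sm F p) (e B : ℕ)
    (hB : NL F e [B] = 0) : Sys (NL F e) B := by
  have hget : ∀ (a : ℕ) (L : List ℕ), (a :: L).get = (Fin.cons a L.get : Fin (L.length + 1) → ℕ) := by
    intro a L
    funext l
    refine Fin.cases ?_ (fun l => ?_) l
    · rfl
    · rfl
  have hNL : ∀ L : List ℕ, NL F e L = Dm F e L.get - Module.finrank ℂ (mults F e) := fun L => rfl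
  have hcons : ∀ (a : ℕ) (L : List ℕ), NL F e (a :: L) =
      Dm F e (Fin.cons a L.get : Fin (L.length + 1) → ℕ) - Module.finrank ℂ (mults F e) := by
    intro a L
    rw [hNL, hget]
  refine ⟨?_, ?_, ?_, ?_, ?_, hB⟩
  · intro a b L
    rw [hcons, hcons, hget, hget]
    have := Dm_swap F e a b L.get
    exact congrArg (· - Module.finrank ℂ (mults F e)) this
  · intro L
    rw [hcons, Dm_cons_zero F hsm, hNL]
  · intro a L
    rw [hcons, hcons]
    exact Nat.sub_le_sub_right (Dm_anti F hsm e a L.get) _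
  · intro a L
    rw [hcons, hcons]
    have := Dm_step F hsm e a L.get
    omega
  · intro a L h
    rw [hcons, hcons] at h
    rw [hcons, hcons, hcons]
    have h0 := mults_le_Dm F hsm e (Fin.cons a L.get : Fin (L.length + 1) → ℕ)
    have h1 := mults_le_Dm F hsm e (Fin.cons (a + 1) L.get : Fin (L.length + 1) → ℕ)
    have h2 := mults_le_Dm F hsm e (Fin.cons (a + 2) L.get : Fin (L.length + 1) → ℕ)
    have := Dm_mac F hF hsm e a L.get (by omega)
    omega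

end FPS
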