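import Pool.Agent.Lib.FPW.DmB
import Pool.Agent.Lib.FPW.TwoS
import Pool.Agent.Lib.FPW.GenA

/-!
# FPW.Gen: statements for the general surface

PROOFS. `Dm_count`: `count` (`FPS/Jets.lean`) at a point where `Dm` is attained (`Dm_attained`).
`NL_count`: `Dm_count`, `finrank_mults` (`FPS/Main.lean`), `sum_get`. `NL_nil`: `Dm_nil`,
`finrank_mults`.
`two_gen`: `main_gen (d - 2) 2 d e` with `Fin.cons M L.get` (which is `(M :: L).get`; hypothesis by
`two_special (d - 2) e μ M`), at a `q` with `Ψ ≠ 0` (all `q l` are smooth points, `Dm_le`), `NL_count`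
and `mults_le_Dm`, `finrank_mults`; if neither alternative holds use `Φ = 1`.
-/

namespace FPS

open MvPolynomial

namespace GenAux

theorem ne_zero {F : MvPolynomial (Fin 3) ℂ} (hsm : ∃ p, Sm F p) : F ≠ 0 := by
  rintro rfl
  obtain ⟨p, -, h⟩ := hsm
  rw [map_zero, map_zero] at h
  exact h rfl

theorem get_cons (M : ℕ) (L : List ℕ) :
    (M :: L).get = (Fin.cons M L.get : Fin (L.length + 1) → ℕ) := by
  funext l
  refine Fin.cases ?_ (fun i => ?_) l
  · rfl
  · rfl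

theorem ST_cons' (M : ℕ) (L : List ℕ) : ST (M :: L) = T M + ST L := rfl

end GenAux

open GenAux

theorem Dm_count (F : MvPolynomial (Fin 3) ℂ) (hsm : ∃ p, Sm F p) (e : ℕ) {r : ℕ}
    (m : Fin r → ℕ) : (e + 3).choose 3 ≤ Dm F e m + ∑ l, T (m l) := by
  obtain ⟨q, hq, h⟩ := Dm_attained F hsm e m
  rw [← h]
  exact count F e q m (fun l => (hq l).1) (fun l => (hq l).2)

theorem NL_count (F : MvPolynomial (Fin 3) ℂ) (hsm : ∃ p, Sm F p) (d e : ℕ)
    (hF : F.totalDegree = d) (L : List ℕ) : h0 d e ≤ NL F e L + ST L := by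
  have h1 := Dm_count F hsm e L.get
  have h2 := finrank_mults F d e (ne_zero hsm) hF
  rw [sum_get] at h1
  unfold NL
  omega

theorem NL_nil (F : MvPolynomial (Fin 3) ℂ) (hsm : ∃ p, Sm F p) (d e : ℕ)
    (hF : F.totalDegree = d) : NL F e [] = h0 d e := by
  have h1 : Dm F e ([] : List ℕ).get = (e + 3).choose 3 := Dm_nil F hsm e _
  have h2 := finrank_mults F d e (ne_zero hsm) hF
  unfold NL
  rw [h1]
  omega

theorem two_gen (d e μ M : ℕ) (hd : 4 ≤ d) (hM : M + μ ≤ e) (L : List ℕ)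
    (hL : ∀ b ∈ L, b ≤ μ) :
    ∃ Φ : MvPolynomial (Fin 3 →₀ ℕ) ℂ,
      (∃ F : MvPolynomial (Fin 3) ℂ, F.totalDegree ≤ d ∧ eval (fun α => coeff α F) Φ ≠ 0) ∧
      ∀ F : MvPolynomial (Fin 3) ℂ, F.totalDegree ≤ d → eval (fun α => coeff α F) Φ ≠ 0 →
        (ST L + T M + Wn μ e ≤ h0 d e → NL F e (M :: L) + (ST L + T M) = h0 d e) ∧
        (h0 d e + Wn μ e < ST L + T M → NL F e (M :: L) = 0) := by
  by_cases hc : T M + ST L + Wn μ e ≤ h0 d e ∨ h0 d e + Wn μ e < T M + ST L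
  · obtain ⟨x, y, hxy⟩ := two_special (d - 2) e μ M (by omega) hM L.get
      (fun l => hL _ (List.get_mem L l)) (by
        rw [sum_get, Nat.sub_add_cancel (by omega : 2 ≤ d)]
        exact hc)
    rw [sum_get, Nat.sub_add_cancel (by omega : 2 ≤ d)] at hxy
    have hsum : ∑ l, T ((Fin.cons M L.get : Fin (L.length + 1) → ℕ) l) = T M + ST L := by
      rw [Fin.sum_univ_succ, ← sum_get L]
      rfl
    obtain ⟨Φ, hΦ0, hΦ⟩ := main_gen (d - 2) 2 d e (by omega) hd
      (Fin.cons M L.get : Fin (L.length + 1) → ℕ) ⟨x, y, by rw [hsum]; exact hxy⟩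
    refine ⟨Φ, hΦ0, fun F hFd hF => ?_⟩
    obtain ⟨hdeg, Ψ, ⟨q, hq0, hq⟩, hΨ⟩ := hΦ F hFd hF
    obtain ⟨-, h2, h3⟩ := hΨ q hq0 hq
    rw [hsum] at h2
    have hsm : ∃ p, Sm F p := ⟨q 0, hq0 0, h3 0⟩
    have h4 := Dm_le F e (Fin.cons M L.get : Fin (L.length + 1) → ℕ) q
      (fun l => ⟨hq0 l, h3 l⟩)
    have h5 := finrank_mults F d e (ne_zero hsm) hdeg
    have h6 := NL_count F hsm d e hdeg (M :: L)
    rw [ST_cons'] at h6
    have h7 : NL F e (M :: L) =
        Dm F e (Fin.cons M L.get : Fin (L.length + 1) → ℕ) - Module.finrank ℂ (mults F e) := by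
      unfold NL
      rw [get_cons]
    constructor
    · intro h8
      omega
    · intro h8
      omega
  · refine ⟨1, ⟨0, by simp, by simp⟩, fun F _ _ => ⟨fun h => ?_, fun h => ?_⟩⟩
    · exact absurd (Or.inl (by omega)) hc
    · exact absurd (Or.inr (by omega)) hc

end FPS
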