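import Pool.Agent.Lib.FPW.DmB
import Pool.Agent.Lib.FPW.GenA

/-!
# FPW.GenT: a point of very high multiplicity on the general surface

PROOF. `main2 d e hd he (r := 1) (fun _ => B) B` (`FPS/Main2.lean`) with the last alternative of
`Outside2`, where `B` is larger than the bound there and `B ≥ h0 d e` (so `h0 d e ≤ T B`); at a `q` with
`Ψ ≠ 0` (`q 0` is a smooth point): `Dm_le` and `finrank_mults` (`FPS/Main.lean`, `F ≠ 0` as `d > 0`) give
`Dm F e [B].get ≤ finrank (mults F e)`.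
-/

namespace FPS

open MvPolynomial

theorem top_gen (d e : ℕ) (hd : 4 ≤ d) (he : 1 ≤ e) :
    ∃ (B : ℕ) (Φ : MvPolynomial (Fin 3 →₀ ℕ) ℂ),
      (∃ F : MvPolynomial (Fin 3) ℂ, F.totalDegree ≤ d ∧ eval (fun α => coeff α F) Φ ≠ 0) ∧
      ∀ F : MvPolynomial (Fin 3) ℂ, F.totalDegree ≤ d → eval (fun α => coeff α F) Φ ≠ 0 →
        F.totalDegree = d ∧ (∃ p, Sm F p) ∧ NL F e [B] = 0 := by
  set B := ((min d e).sqrt + 1) * (e + 1) + (e + 2) * (1 + min d e / (min d e).sqrt) + h0 d e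
    with hB
  obtain ⟨Φ, hF1, hΦ⟩ := main2 d e hd he (r := 1) (fun _ => B) B (fun _ => le_rfl)
    (Or.inr (Or.inr (Or.inr ⟨0, by
      show _ ≤ B
      omega⟩)))
  refine ⟨B, Φ, hF1, fun F hFd hF => ?_⟩
  obtain ⟨hdeg, Ψ, ⟨q, hq1, hq2⟩, hΨ⟩ := hΦ F hFd hF
  obtain ⟨-, hb, hsm⟩ := hΨ q hq1 hq2
  refine ⟨hdeg, ⟨q 0, hq1 0, hsm 0⟩, ?_⟩
  have hF0 : F ≠ 0 := by
    rintro rfl
    rw [totalDegree_zero] at hdeg
    omega
  have hdim := finrank_mults F d e hF0 hdeg
  have hT : h0 d e ≤ T B := by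
    have h1 : h0 d e ≤ B := by omega
    have h2 : B ≤ T B := by
      unfold T
      rw [Nat.le_div_iff_mul_le (by norm_num)]
      rcases Nat.eq_zero_or_pos B with h | h
      · rw [h]
      · exact Nat.mul_le_mul_left _ (by omega)
    exact h1.trans h2
  have hD : Dm F e [B].get ≤ Module.finrank ℂ (series F e q (fun _ : Fin 1 => B)) := by
    have h3 := Dm_le F e [B].get q (fun l => ⟨hq1 l, hsm l⟩)
    have h4 : ([B].get : Fin 1 → ℕ) = fun _ => B := by
      funext l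
      fin_cases l
      rfl
    have h5 : series F e q ([B].get : Fin 1 → ℕ) = series F e q (fun _ : Fin 1 => B) := by
      rw [h4]
      rfl
    exact h3.trans (le_of_eq (by
      show Module.finrank ℂ (series F e q ([B].get : Fin 1 → ℕ)) = _
      rw [h5]))
  have hs : ∑ _l : Fin 1, T B = T B := by simp
  unfold NL
  rw [hs] at hb
  omega

end FPS
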