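import Pool.Agent.Lib.FPW.DmM
import Pool.Agent.Lib.FPW.Gen
import Pool.Agent.Lib.FPW.GenT
import Pool.Agent.Lib.FPW.BootC

/-!
# FPW.Asm: the constant window theorem

PROOF of `window_list`: `common_fin` over the finite set of the pairs (suffix of `L0`, `M ≤ e`)
(`L0.tails`, `List.mem_tails`; `two_gen`), together with `top_gen` and `general_prime`
(`FPS/Prime.lean`) (`common`). For such `F`, `NL_sys`, and `lower`, `upper` with `h = h0 d e`, `h0 = NL_nil`,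
`hh` from `h0_ge` and `numZ`.
PROOF of `window`: let `L0` be the list of the `m l`, sorted such that the larger entries come
later (`Tuple.sort m`, `L0 = List.ofFn (m ∘ σ)`); every suffix `b :: L` of `L0` consists of entries
`≥ b`, so `ST (b :: L) ≤ ∑ l, if b ≤ m l then T (m l) else 0`. `Dm_perm`: `NL F e L0 = Dm F e m -
finrank (mults F e)`. `open_fixed` at a tuple attaining `Dm F e m` gives `Ψ`.
-/

namespace FPS

open MvPolynomial

theorem window_list (d e μ : ℕ) (hd : 4 ≤ d) (hμ : 2 ≤ μ) (he : 25 * μ ^ 2 ≤ e) (L0 : List ℕ)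
    (hL0 : ∀ b ∈ L0, b ≤ μ) :
    ∃ Φ : MvPolynomial (Fin 3 →₀ ℕ) ℂ,
      (∃ F : MvPolynomial (Fin 3) ℂ, F.totalDegree ≤ d ∧ eval (fun α => coeff α F) Φ ≠ 0) ∧
      ∀ F : MvPolynomial (Fin 3) ℂ, F.totalDegree ≤ d → eval (fun α => coeff α F) Φ ≠ 0 →
        F.totalDegree = d ∧ (∃ p, Sm F p) ∧
        ((∀ b L, (b :: L) <:+ L0 → 2 ≤ b → ST (b :: L) + 3 * b * μ ^ 2 ≤ h0 d e) →
          NL F e L0 = h0 d e - ST L0) ∧
        (2 * h0 d e + 3 * μ ^ 4 ≤ 2 * ST L0 → NL F e L0 = 0) := by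
  classical
  have he5 : 5 ≤ e := by nlinarith
  obtain ⟨Φ1, h1, hΦ1⟩ := common_fin d (L0.tails.toFinset ×ˢ Finset.range (e + 1))
    (fun i F => i.2 + μ ≤ e →
      (ST i.1 + T i.2 + Wn μ e ≤ h0 d e → NL F e (i.2 :: i.1) + (ST i.1 + T i.2) = h0 d e) ∧
        (h0 d e + Wn μ e < ST i.1 + T i.2 → NL F e (i.2 :: i.1) = 0))
    (by
      rintro ⟨L, M⟩ hi
      have hL : L <:+ L0 := by
        have := (Finset.mem_product.1 hi).1
        rwa [List.mem_toFinset, List.mem_tails] at this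
      by_cases hM : M + μ ≤ e
      · obtain ⟨Φ, h, hΦ⟩ := two_gen d e μ M hd hM L fun b hb => hL0 b (hL.subset hb)
        exact ⟨Φ, h, fun F hF hne _ => hΦ F hF hne⟩
      · exact ⟨1, ⟨0, by simp, by simp⟩, fun F _ _ h => absurd h hM⟩)
  obtain ⟨B, Φ2, h2, hΦ2⟩ := top_gen d e hd (by omega)
  obtain ⟨Φ3, h3, hΦ3⟩ := general_prime d (by omega)
  refine ⟨Φ1 * Φ2 * Φ3, common d (Φ1 * Φ2) Φ3 (common d Φ1 Φ2 h1 h2) h3, fun F hF hne => ?_⟩
  rw [map_mul, map_mul] at hne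
  have hne1 := left_ne_zero_of_mul (left_ne_zero_of_mul hne)
  have hne2 := right_ne_zero_of_mul (left_ne_zero_of_mul hne)
  have hne3 := right_ne_zero_of_mul hne
  obtain ⟨hdeg, hsm, htop⟩ := hΦ2 F hF hne2
  have hprime := hΦ3 F hdeg hne3
  have hN := NL_sys F hprime hsm e B htop
  have hnil := NL_nil F hsm d e hdeg
  have hh : T (e - μ) + Wn μ e ≤ h0 d e :=
    (numZ μ e hμ he).trans ((Nat.le_add_right _ _).trans (h0_ge d e hd he5))
  have hP : ∀ L, L <:+ L0 → ∀ M, M + μ ≤ e →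
      (ST L + T M + Wn μ e ≤ h0 d e → NL F e (M :: L) + (ST L + T M) = h0 d e) ∧
        (h0 d e + Wn μ e < ST L + T M → NL F e (M :: L) = 0) := by
    intro L hL M hM
    refine hΦ1 F hF hne1 (L, M) ?_ hM
    rw [Finset.mem_product, List.mem_toFinset, List.mem_tails]
    exact ⟨hL, Finset.mem_range.2 (by
      change M < e + 1
      omega)⟩
  have A5 : ∀ L, L <:+ L0 → ∀ M, M + μ ≤ e → ST L + T M + Wn μ e ≤ h0 d e →
      NL F e (M :: L) + (ST L + T M) = h0 d e := fun L hL M hM => (hP L hL M hM).1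
  have A6 : ∀ L, L <:+ L0 → ∀ M, M + μ ≤ e → h0 d e + Wn μ e < ST L + T M →
      NL F e (M :: L) = 0 := fun L hL M hM => (hP L hL M hM).2
  exact ⟨hdeg, hsm, fun hl => lower hN μ e (h0 d e) hμ he hnil hh L0 hL0 A5 A6 hl,
    fun hu => upper hN μ e (h0 d e) hμ he hnil hh L0 hL0 A5 A6 hu⟩

theorem Dm_cast (F : MvPolynomial (Fin 3) ℂ) (e : ℕ) {r n : ℕ} (h : n = r) (f : Fin r → ℕ) :
    Dm F e (f ∘ Fin.cast h) = Dm F e f := by
  subst h
  rfl

theorem Dm_ofFn (F : MvPolynomial (Fin 3) ℂ) (e : ℕ) {r : ℕ} (f : Fin r → ℕ) :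
    Dm F e (List.ofFn f).get = Dm F e f := by
  rw [← Dm_cast F e (List.length_ofFn (f := f)) f]
  congr 1
  funext i
  rw [List.get_ofFn]
  rfl

theorem window (d e μ : ℕ) (hd : 4 ≤ d) (hμ : 2 ≤ μ) (he : 25 * μ ^ 2 ≤ e) {r : ℕ}
    (m : Fin r → ℕ) (hm : ∀ l, m l ≤ μ)
    (h : (∀ l, 2 ≤ m l → ∑ k, (if m l ≤ m k then T (m k) else 0) + 3 * m l * μ ^ 2 ≤ h0 d e) ∨
      2 * h0 d e + 3 * μ ^ 4 ≤ 2 * ∑ l, T (m l)) :
    ∃ Φ : MvPolynomial (Fin 3 →₀ ℕ) ℂ,
      (∃ F : MvPolynomial (Fin 3) ℂ, F.totalDegree ≤ d ∧ eval (fun α => coeff α F) Φ ≠ 0) ∧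
      ∀ F : MvPolynomial (Fin 3) ℂ, F.totalDegree ≤ d → eval (fun α => coeff α F) Φ ≠ 0 →
        F.totalDegree = d ∧
        ∃ Ψ : MvPolynomial (Fin r × Fin 3) ℂ,
          (∃ q : Fin r → Fin 3 → ℂ, (∀ l, eval (q l) F = 0) ∧
            eval (fun i : Fin r × Fin 3 => q i.1 i.2) Ψ ≠ 0) ∧
          ∀ q : Fin r → Fin 3 → ℂ, (∀ l, eval (q l) F = 0) →
            eval (fun i : Fin r × Fin 3 => q i.1 i.2) Ψ ≠ 0 →
            Module.finrank ℂ (series F e q m)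
              = Module.finrank ℂ (mults F e) + (h0 d e - ∑ l, T (m l)) := by
  classical
  set σ := Tuple.sort m with hσ
  set L0 : List ℕ := List.ofFn (m ∘ σ) with hL0
  have hmem : ∀ b ∈ L0, ∃ l, m l = b := by
    intro b hb
    rw [hL0, List.mem_ofFn] at hb
    obtain ⟨i, hi⟩ := hb
    exact ⟨σ i, hi⟩
  have hsum : ∀ g : ℕ → ℕ, (L0.map g).sum = ∑ l, g (m l) := by
    intro g
    rw [hL0, List.map_ofFn, List.sum_ofFn]
    exact Equiv.sum_comp σ (fun l => g (m l))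
  have hST : ST L0 = ∑ l, T (m l) := hsum T
  have hsorted : L0.Pairwise (· ≤ ·) := by
    rw [hL0, List.pairwise_ofFn]
    intro i j hij
    exact Tuple.monotone_sort m hij.le
  have hsuf : ∀ b L, (b :: L) <:+ L0 → ST (b :: L) ≤ ∑ k, (if b ≤ m k then T (m k) else 0) := by
    intro b L hL
    have hpw : (b :: L).Pairwise (· ≤ ·) := hsorted.sublist hL.sublist
    have hge : ∀ x ∈ b :: L, b ≤ x := by
      intro x hx
      rcases List.mem_cons.1 hx with rfl | hx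
      · exact le_rfl
      · exact (List.pairwise_cons.1 hpw).1 x hx
    have e1 : ST (b :: L) = ((b :: L).map fun x => if b ≤ x then T x else 0).sum := by
      unfold ST
      congr 1
      refine List.map_congr_left fun x hx => ?_
      rw [if_pos (hge x hx)]
    rw [e1, ← hsum fun x => if b ≤ x then T x else 0]
    obtain ⟨pre, hpre⟩ := hL
    rw [← hpre, List.map_append, List.sum_append]
    exact Nat.le_add_left _ _
  obtain ⟨Φ, hΦ0, hΦ⟩ := window_list d e μ hd hμ he L0 fun b hb => by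
    obtain ⟨l, rfl⟩ := hmem b hb
    exact hm l
  refine ⟨Φ, hΦ0, fun F hF hne => ?_⟩
  obtain ⟨hdeg, hsm, hlow, hup⟩ := hΦ F hF hne
  refine ⟨hdeg, ?_⟩
  have hNL : NL F e L0 = h0 d e - ∑ l, T (m l) := by
    rcases h with h | h
    · rw [hlow ?_, hST]
      intro b L hL hb
      obtain ⟨l, rfl⟩ := hmem b (hL.subset List.mem_cons_self)
      exact (Nat.add_le_add_right (hsuf _ _ hL) _).trans (h l hb)
    · rw [hup (by rw [hST]; exact h)]
      have : h0 d e ≤ ∑ l, T (m l) := by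
        have h4 : 0 ≤ 3 * μ ^ 4 := Nat.zero_le _
        omega
      omega
  have hDm : Dm F e m = Module.finrank ℂ (mults F e) + (h0 d e - ∑ l, T (m l)) := by
    have e1 : Dm F e L0.get = Dm F e m := by
      rw [hL0, Dm_ofFn, Dm_perm]
    have e2 : NL F e L0 = Dm F e L0.get - Module.finrank ℂ (mults F e) := rfl
    have e3 := mults_le_Dm F hsm e m
    rw [← hNL, e2, e1]
    omega
  obtain ⟨q0, hq0, hq0'⟩ := Dm_attained F hsm e m
  obtain ⟨Ψ, hΨ0, hΨ⟩ := open_fixed F e m q0 (fun l => (hq0 l).1) fun l => (hq0 l).2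
  refine ⟨Ψ, ⟨q0, fun l => (hq0 l).1, hΨ0⟩, fun q hq hqΨ => ?_⟩
  obtain ⟨k1, -, k2⟩ := hΨ q hq hqΨ
  rw [← hDm]
  exact le_antisymm (k1.trans hq0'.le) (Dm_le F e m q fun l => ⟨hq l, k2 l⟩)

end FPS
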