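import Pool.Agent.Lib.FPW.Asm
import Pool.Agent.Lib.FPS.IrrMain3

/-!
# FPW.AsmI: the constant window theorem with irreducibility
-/

namespace FPS

open MvPolynomial

/-- the lower side of the window -/
def Low (d e μ : ℕ) {r : ℕ} (m : Fin r → ℕ) : Prop :=
  ∀ l, 2 ≤ m l → ∑ k, (if m l ≤ m k then T (m k) else 0) + 3 * m l * μ ^ 2 ≤ h0 d e

theorem window_Dm (d e μ : ℕ) (hd : 4 ≤ d) (hμ : 2 ≤ μ) (he : 25 * μ ^ 2 ≤ e) {r : ℕ}
    (m : Fin r → ℕ) (hm : ∀ l, m l ≤ μ)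
    (h : (∀ l, 2 ≤ m l → ∑ k, (if m l ≤ m k then T (m k) else 0) + 3 * m l * μ ^ 2 ≤ h0 d e) ∨
      2 * h0 d e + 3 * μ ^ 4 ≤ 2 * ∑ l, T (m l)) :
    ∃ Φ : MvPolynomial (Fin 3 →₀ ℕ) ℂ,
      (∃ F : MvPolynomial (Fin 3) ℂ, F.totalDegree ≤ d ∧ eval (fun α => coeff α F) Φ ≠ 0) ∧
      ∀ F : MvPolynomial (Fin 3) ℂ, F.totalDegree ≤ d → eval (fun α => coeff α F) Φ ≠ 0 →
        F.totalDegree = d ∧ (∃ p, Sm F p) ∧
        Dm F e m = Module.finrank ℂ (mults F e) + (h0 d e - ∑ l, T (m l)) := by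
  classical
  set σ := Tuple.sort m with hσ
  set L0 : List ℕ := List.ofFn (m ∘ σ) with hL0
  have hmem : ∀ b ∈ L0, ∃ l, m l = b := by
    intro b hb
    rw [hL0, List.mem_ofFn] at hb
    obtain ⟨i, hi⟩ := hb
    exact ⟨σ i, hi⟩
  have hsum : ∀ g : ℕ → ℕ, (L0.map g).sum = ∑ l, g (m l) := by
    intro g
    rw [hL0, List.map_ofFn, List.sum_ofFn]
    exact Equiv.sum_comp σ (fun l => g (m l))
  have hST : ST L0 = ∑ l, T (m l) := hsum T
  have hsorted : L0.Pairwise (· ≤ ·) := by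
    rw [hL0, List.pairwise_ofFn]
    intro i j hij
    exact Tuple.monotone_sort m hij.le
  have hsuf : ∀ b L, (b :: L) <:+ L0 → ST (b :: L) ≤ ∑ k, (if b ≤ m k then T (m k) else 0) := by
    intro b L hL
    have hpw : (b :: L).Pairwise (· ≤ ·) := hsorted.sublist hL.sublist
    have hge : ∀ x ∈ b :: L, b ≤ x := by
      intro x hx
      rcases List.mem_cons.1 hx with rfl | hx
      · exact le_rfl
      · exact (List.pairwise_cons.1 hpw).1 x hx
    have e1 : ST (b :: L) = ((b :: L).map fun x => if b ≤ x then T x else 0).sum := by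
      unfold ST
      congr 1
      refine List.map_congr_left fun x hx => ?_
      rw [if_pos (hge x hx)]
    rw [e1, ← hsum fun x => if b ≤ x then T x else 0]
    obtain ⟨pre, hpre⟩ := hL
    rw [← hpre, List.map_append, List.sum_append]
    exact Nat.le_add_left _ _
  obtain ⟨Φ, hΦ0, hΦ⟩ := window_list d e μ hd hμ he L0 fun b hb => by
    obtain ⟨l, rfl⟩ := hmem b hb
    exact hm l
  refine ⟨Φ, hΦ0, fun F hF hne => ?_⟩
  obtain ⟨hdeg, hsm, hlow, hup⟩ := hΦ F hF hne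
  refine ⟨hdeg, hsm, ?_⟩
  have hNL : NL F e L0 = h0 d e - ∑ l, T (m l) := by
    rcases h with h | h
    · rw [hlow ?_, hST]
      intro b L hL hb
      obtain ⟨l, rfl⟩ := hmem b (hL.subset List.mem_cons_self)
      exact (Nat.add_le_add_right (hsuf _ _ hL) _).trans (h l hb)
    · rw [hup (by rw [hST]; exact h)]
      have : h0 d e ≤ ∑ l, T (m l) := by
        have h4 : 0 ≤ 3 * μ ^ 4 := Nat.zero_le _
        omega
      omega
  have e1 : Dm F e L0.get = Dm F e m := by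
    rw [hL0, Dm_ofFn, Dm_perm]
  have e2 : NL F e L0 = Dm F e L0.get - Module.finrank ℂ (mults F e) := rfl
  have e3 := mults_le_Dm F hsm e m
  rw [← hNL, e2, e1]
  omega

theorem irr_core (d e : ℕ) (hd : 4 ≤ d) (he : 3 ≤ e) {r : ℕ} (m m' : Fin r → ℕ)
    (hm' : m' = fun l => if 2 ≤ m l then m l else 0)
    (F : MvPolynomial (Fin 3) ℂ) (hdeg : F.totalDegree = d) (hprime : Prime F)
    (q1 : Fin r → Fin 3 → ℂ) (hq1 : ∀ l, eval (q1 l) F = 0)
    (hs : ∀ l, eval (q1 l) (pderiv 2 F) ≠ 0)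
    (hb' : Module.finrank ℂ (series F (e - 1) q1 m') + ∑ l, T (m' l) ≤ (e - 1 + 3).choose 3)
    (hlt : ∑ l, T (m l) < h0 d e) :
    ∃ Ψ : MvPolynomial (Fin r × Fin 3) ℂ,
      (∃ q : Fin r → Fin 3 → ℂ, (∀ l, eval (q l) F = 0) ∧
        eval (fun i : Fin r × Fin 3 => q i.1 i.2) Ψ ≠ 0) ∧
      ∀ q : Fin r → Fin 3 → ℂ, (∀ l, eval (q l) F = 0) →
        eval (fun i : Fin r × Fin 3 => q i.1 i.2) Ψ ≠ 0 →
        Module.finrank ℂ (series F e q m)
          = Module.finrank ℂ (mults F e) + (h0 d e - ∑ l, T (m l)) ∧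
        ∃ P : MvPolynomial (Fin 3 →₀ ℕ) ℂ,
          (∃ G ∈ series F e q m, eval (fun α => coeff α G) P ≠ 0) ∧
          ∀ G ∈ series F e q m, eval (fun α => coeff α G) P ≠ 0 → Indec F e G := by
  classical
  have hF0 : F ≠ 0 := hprime.ne_zero
  have hTm' : ∀ l, T (m' l) = if 2 ≤ m l then T (m l) else 0 := by
    intro l
    simp only [hm']
    split_ifs
    · rfl
    · rfl
  have hsurj : ∀ H : MvPolynomial (Fin 3) ℂ, ∃ G : MvPolynomial (Fin 3) ℂ,
      G.totalDegree ≤ e - 1 ∧ ∀ l, H - G ∈ Ideal.span {F} ⊔ ptIdeal (q1 l) ^ m' l :=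
    fun H => surj F q1 m' (e - 1) (fun e' => count F e' q1 m' hq1 hs) hb' H
  obtain ⟨P, hPg, hP1, hP2⟩ := irr_poly d e hd he F hdeg
  obtain ⟨G0, hG0, hPG0⟩ := irr_exists e (by omega) F q1 m' P hPg hP1 hsurj
  have hdimup := dim_up F e q1 m' hb' hsurj
  have hsplit : ∑ l, T (m l) = ∑ l, T (m' l) + (Finset.univ.filter fun l => m l = 1).card := by
    rw [Finset.card_filter, ← Finset.sum_add_distrib]
    refine Finset.sum_congr rfl fun l _ => ?_
    rw [hTm' l]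
    split_ifs with h1 h2
    · omega
    · rfl
    · rename_i h2
      rw [h2]
      rfl
    · have : m l = 0 := by omega
      rw [this]
      rfl
  obtain ⟨q0, hq0, hs0, hd0, G1, hG1, hPG1⟩ := simple_points d e F hprime hdeg P
    (fun G hG hPG hdvd => by
      refine hP2 G hG hPG 1 (e - 1) (le_refl 1) (by omega) (by omega) 0 0 (by simp) (by simp) ?_
      rw [mul_zero, sub_zero]
      exact hdvd)
    q1 m' hq1 hs hdimup ⟨G0, hG0, hPG0⟩ (Finset.univ.filter fun l => m l = 1)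
    (fun l hl => by
      rw [Finset.mem_filter] at hl
      simp only [hm']
      rw [if_neg (by omega)])
    (by omega)
  have hm : (fun l => if l ∈ Finset.univ.filter (fun l => m l = 1) then 1 else m' l) = m := by
    funext l
    simp only [Finset.mem_filter, Finset.mem_univ, true_and, hm']
    split_ifs <;> omega
  rw [hm] at hd0 hG1
  have hd0' : Module.finrank ℂ (series F e q0 m) + ∑ l, T (m l) ≤ (e + 3).choose 3 := by omega
  obtain ⟨Ψa, hΨa0, hΨa⟩ := open_fixed F e m q0 hq0 hs0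
  obtain ⟨Ψb, hΨb0, hΨb⟩ := family F e q0 m hq0 hs0 hd0' P G1 hG1 hPG1
  refine ⟨Ψa * Ψb, ⟨q0, hq0, ?_⟩, fun q hq1 hq2 => ?_⟩
  · rw [map_mul]
    exact mul_ne_zero hΨa0 hΨb0
  · rw [map_mul] at hq2
    obtain ⟨h1, h2, -⟩ := hΨa q hq1 (left_ne_zero_of_mul hq2)
    obtain ⟨G, hG, hPG⟩ := hΨb q hq1 (right_ne_zero_of_mul hq2)
    have h3 := finrank_mults F d e hF0 hdeg
    refine ⟨by omega, P, ⟨G, hG, hPG⟩, fun G' hG' hPG' => hP2 G' hG'.1 hPG'⟩

theorem window_irr (d e μ : ℕ) (hd : 4 ≤ d) (hμ : 2 ≤ μ) (he : 25 * μ ^ 2 < e) {r : ℕ}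
    (m : Fin r → ℕ) (hm : ∀ l, m l ≤ μ)
    (hl1 : Low d (e - 1) μ m) (hl2 : ∑ l, T (m l) < h0 d e) :
    ∃ Φ : MvPolynomial (Fin 3 →₀ ℕ) ℂ,
      (∃ F : MvPolynomial (Fin 3) ℂ, F.totalDegree ≤ d ∧ eval (fun α => coeff α F) Φ ≠ 0) ∧
      ∀ F : MvPolynomial (Fin 3) ℂ, F.totalDegree ≤ d → eval (fun α => coeff α F) Φ ≠ 0 →
        F.totalDegree = d ∧ Prime F ∧
        ∃ Ψ : MvPolynomial (Fin r × Fin 3) ℂ,
          (∃ q : Fin r → Fin 3 → ℂ, (∀ l, eval (q l) F = 0) ∧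
            eval (fun i : Fin r × Fin 3 => q i.1 i.2) Ψ ≠ 0) ∧
          ∀ q : Fin r → Fin 3 → ℂ, (∀ l, eval (q l) F = 0) →
            eval (fun i : Fin r × Fin 3 => q i.1 i.2) Ψ ≠ 0 →
            Module.finrank ℂ (series F e q m)
              = Module.finrank ℂ (mults F e) + (h0 d e - ∑ l, T (m l)) ∧
            ∃ P : MvPolynomial (Fin 3 →₀ ℕ) ℂ,
              (∃ G ∈ series F e q m, eval (fun α => coeff α G) P ≠ 0) ∧
              ∀ G ∈ series F e q m, eval (fun α => coeff α G) P ≠ 0 → Indec F e G := by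
  classical
  set m' : Fin r → ℕ := fun l => if 2 ≤ m l then m l else 0 with hm'
  have hTm' : ∀ l, T (m' l) = if 2 ≤ m l then T (m l) else 0 := by
    intro l
    simp only [hm']
    split_ifs
    · rfl
    · rfl
  have hl' : ∀ l, 2 ≤ m' l →
      ∑ k, (if m' l ≤ m' k then T (m' k) else 0) + 3 * m' l * μ ^ 2 ≤ h0 d (e - 1) := by
    intro l hl
    have h1 : 2 ≤ m l := by
      by_contra hc
      simp only [hm', if_neg hc] at hl
      omega
    have h2 : m' l = m l := by simp only [hm', if_pos h1]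
    rw [h2]
    refine le_trans (le_of_eq ?_) (hl1 l h1)
    congr 1
    refine Finset.sum_congr rfl fun k _ => ?_
    by_cases h3 : 2 ≤ m k
    · simp only [hm', if_pos h3]
    · have h4 : m' k = 0 := by simp only [hm', if_neg h3]
      rw [h4, if_neg (by omega), if_neg (by omega)]
  have hsum' : ∑ l, T (m' l) ≤ h0 d (e - 1) := by
    by_cases hex : ∃ l, 2 ≤ m l
    · obtain ⟨l0, hl0, hmin⟩ := Finset.exists_min_image
        (Finset.univ.filter fun l => 2 ≤ m l) m (by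
          obtain ⟨l, hl⟩ := hex
          exact ⟨l, by simpa using hl⟩)
      have h1 : 2 ≤ m l0 := by simpa using hl0
      have h2 := hl1 l0 h1
      refine le_trans ?_ ((Nat.le_add_right _ _).trans h2)
      refine Finset.sum_le_sum fun k _ => ?_
      rw [hTm']
      by_cases h3 : 2 ≤ m k
      · rw [if_pos h3, if_pos (hmin k (by simpa using h3))]
      · rw [if_neg h3]
        exact Nat.zero_le _
    · have h1 : ∑ l, T (m' l) = 0 := by
        refine Finset.sum_eq_zero fun l _ => ?_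
        rw [hTm', if_neg (fun h => hex ⟨l, h⟩)]
      rw [h1]
      exact Nat.zero_le _
  obtain ⟨Φ1, hF1, hΦ1⟩ := window_Dm d (e - 1) μ hd hμ (by omega) m'
    (fun l => by
      simp only [hm']
      split_ifs
      · exact hm l
      · exact Nat.zero_le _) (Or.inl hl')
  obtain ⟨Φ2, hF2, hΦ2⟩ := general_prime d (by omega)
  refine ⟨Φ1 * Φ2, common d Φ1 Φ2 hF1 hF2, fun F hFd hF => ?_⟩
  rw [map_mul] at hF
  obtain ⟨hdeg, hsm, hdm⟩ := hΦ1 F hFd (left_ne_zero_of_mul hF)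
  have hprime : Prime F := hΦ2 F hdeg (right_ne_zero_of_mul hF)
  obtain ⟨q1, hq1, hq1'⟩ := Dm_attained F hsm (e - 1) m'
  have h3 := finrank_mults F d (e - 1) hprime.ne_zero hdeg
  have he3 : 3 ≤ e := by
    have : 4 ≤ μ ^ 2 := by nlinarith
    omega
  obtain ⟨Ψ, hΨ0, hΨ⟩ := irr_core d e hd he3 m m' hm' F hdeg hprime q1 (fun l => (hq1 l).1)
    (fun l => (hq1 l).2) (by omega) hl2
  exact ⟨hdeg, hprime, Ψ, hΨ0, hΨ⟩

/-- all three error terms -/
theorem irr_main4 (d e : ℕ) (hd : 4 ≤ d) (he : 3 ≤ e) {r : ℕ} (m : Fin r → ℕ) (μ : ℕ)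
    (hμ : ∀ l, m l ≤ μ)
    (h : ∑ l, (if 2 ≤ m l then T (m l) else 0) + min (err1 d (e - 1) μ) (err d (e - 1) μ)
      ≤ h0 d (e - 1) ∨ (2 ≤ μ ∧ 25 * μ ^ 2 < e ∧ Low d (e - 1) μ m))
    (hlt : ∑ l, T (m l) < h0 d e) :
    ∃ Φ : MvPolynomial (Fin 3 →₀ ℕ) ℂ,
      (∃ F : MvPolynomial (Fin 3) ℂ, F.totalDegree ≤ d ∧ eval (fun α => coeff α F) Φ ≠ 0) ∧
      ∀ F : MvPolynomial (Fin 3) ℂ, F.totalDegree ≤ d → eval (fun α => coeff α F) Φ ≠ 0 →
        F.totalDegree = d ∧ Prime F ∧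
        ∃ Ψ : MvPolynomial (Fin r × Fin 3) ℂ,
          (∃ q : Fin r → Fin 3 → ℂ, (∀ l, eval (q l) F = 0) ∧
            eval (fun i : Fin r × Fin 3 => q i.1 i.2) Ψ ≠ 0) ∧
          ∀ q : Fin r → Fin 3 → ℂ, (∀ l, eval (q l) F = 0) →
            eval (fun i : Fin r × Fin 3 => q i.1 i.2) Ψ ≠ 0 →
            Module.finrank ℂ (series F e q m)
              = Module.finrank ℂ (mults F e) + (h0 d e - ∑ l, T (m l)) ∧
            ∃ P : MvPolynomial (Fin 3 →₀ ℕ) ℂ,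
              (∃ G ∈ series F e q m, eval (fun α => coeff α G) P ≠ 0) ∧
              ∀ G ∈ series F e q m, eval (fun α => coeff α G) P ≠ 0 → Indec F e G := by
  rcases h with h | ⟨h2, h3, h4⟩
  · exact irr_main3 d e hd he m μ hμ h hlt
  · exact window_irr d e μ hd h2 h3 m hμ h4 hlt

end FPS
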