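import Pool.Agent.Lib.FPW.Defs

/-!
# FPW.NumW: two numerical inequalities

`Wn μ e = 2 μ (e+1) + 11 μ^3`. Both were checked numerically.
`numY`: take `Y = 7 * e / 10 + μ^2 + 1` (integer division). `2 T μ ≤ μ (μ+1)`,
`2 T (e-μ) = (e-μ)(e-μ+1)`.
`numZ`: `2 T (e - μ) ≤ e (e + 1)`, `Wn ≤ e^2 / 4`.
-/

namespace FPS

theorem two_T_numW (m : ℕ) : 2 * T m = m * (m + 1) := by
  unfold T
  exact Nat.mul_div_cancel' (Nat.even_mul_succ_self m).two_dvd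

theorem numY (μ e : ℕ) (hμ : 2 ≤ μ) (he : 25 * μ ^ 2 ≤ e) :
    ∃ Y : ℕ, 2 * Wn μ e + (2 * μ ^ 2) ^ 2 ≤ (2 * (2 * μ ^ 2) - 1) * Y ∧
      2 * T μ + Y ^ 2 + 6 * Wn μ e + 2 ≤ 2 * T (e - μ) := by
  obtain ⟨j, rfl⟩ := Nat.exists_eq_add_of_le hμ
  obtain ⟨k, hk⟩ := Nat.exists_eq_add_of_le he
  obtain ⟨a, ha⟩ : ∃ a, a = 7 * e / 10 := ⟨_, rfl⟩
  have h1 : 10 * a ≤ 7 * e := by omega
  have h2 : 7 * e + 1 ≤ 10 * a + 10 := by omega
  have hμe : 2 + j ≤ e := by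
    have : (2 + j) * 1 ≤ 25 * (2 + j) ^ 2 := by nlinarith
    omega
  obtain ⟨n, hn⟩ := Nat.exists_eq_add_of_le hμe
  refine ⟨a + (2 + j) ^ 2 + 1, ?_, ?_⟩
  · have h3 : 1 ≤ 2 * (2 * (2 + j) ^ 2) := by nlinarith
    zify [h3]
    zify at h2 hk
    unfold Wn
    push_cast
    have h4 : (0 : ℤ) ≤ 2 * (2 * (2 + (j : ℤ)) ^ 2) - 1 := by nlinarith
    have h5 := mul_le_mul_of_nonneg_left h2 h4
    have hj : (0 : ℤ) ≤ j := by positivity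
    have hk0 : (0 : ℤ) ≤ k := by positivity
    have h6 : 10 * (2 * (2 * (2 + (j : ℤ)) * ((e : ℤ) + 1) + 11 * (2 + (j : ℤ)) ^ 3)
        + (2 * (2 + (j : ℤ)) ^ 2) ^ 2) ≤ (2 * (2 * (2 + (j : ℤ)) ^ 2) - 1) *
        (7 * (e : ℤ) + 1 + 10 * (2 + (j : ℤ)) ^ 2) := by
      rw [hk, ← sub_nonneg]
      ring_nf
      positivity
    nlinarith
  · rw [two_T_numW, two_T_numW]
    have h3 : e - (2 + j) = n := by omega
    rw [h3]
    zify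
    zify at h1 hk hn
    unfold Wn
    push_cast
    have hj : (0 : ℤ) ≤ j := by positivity
    have hk0 : (0 : ℤ) ≤ k := by positivity
    have ha0 : (0 : ℤ) ≤ a := by positivity
    have h4 : (n : ℤ) = e - (2 + j) := by linarith
    have h5 : (10 * ((a : ℤ) + (2 + j) ^ 2 + 1)) ^ 2 ≤ (7 * e + 10 * (2 + (j : ℤ)) ^ 2 + 10) ^ 2 := by
      apply pow_le_pow_left₀ (by positivity)
      linarith
    have h6 : 100 * ((2 + (j : ℤ)) * (2 + j + 1) + 6 * (2 * (2 + (j : ℤ)) * ((e : ℤ) + 1)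
        + 11 * (2 + (j : ℤ)) ^ 3) + 2) + (7 * e + 10 * (2 + (j : ℤ)) ^ 2 + 10) ^ 2 ≤
        100 * ((n : ℤ) * (n + 1)) := by
      rw [h4, hk, ← sub_nonneg]
      ring_nf
      positivity
    nlinarith

theorem numZ (μ e : ℕ) (hμ : 2 ≤ μ) (he : 25 * μ ^ 2 ≤ e) : T (e - μ) + Wn μ e ≤ 2 * e ^ 2 := by
  obtain ⟨j, rfl⟩ := Nat.exists_eq_add_of_le hμ
  obtain ⟨k, hk⟩ := Nat.exists_eq_add_of_le he
  have h1 : 2 * T (e - (2 + j)) ≤ e * (e + 1) := by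
    rw [two_T_numW]
    gcongr <;> omega
  have h2 : e * (e + 1) + 2 * Wn (2 + j) e ≤ 4 * e ^ 2 := by
    zify
    zify at hk
    unfold Wn
    push_cast
    have hj : (0 : ℤ) ≤ j := by positivity
    have hk0 : (0 : ℤ) ≤ k := by positivity
    rw [hk, ← sub_nonneg]
    ring_nf
    positivity
  omega

end FPS
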