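import Pool.Agent.Lib.FPW.Defs

/-!
# FPW.NumX: three numerical inequalities

All were checked numerically.
`numF`: `2 N ≥ 6 b μ^2`. If `X ≤ 2 μ^2`: `(b-1) 2 μ^2 < 3 b μ^2`. Otherwise `X = 2 μ^2 + y`,
`y^2 ≤ 2 N`, and `(b-1) y ≤ N/3 + 2 μ^2 `(as `(N/3 + 2 μ^2)^2 ≥ (8/3) N μ^2 ≥ 2 N (b-1)^2`), while
`(b-1) 2 μ^2 + 2 μ^2 = 2 b μ^2 ≤ 2N/3`; strictness from `b - 1 < μ` and `8/3 > 2`.
`numB`: `(X-K)^2 = X (X-1) - (2K-1) X + K^2 ≤ 2N + 2W + K^2 - (2K-1) X` for `X > K`; if `X ≥ Y` this is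
`≤ 2N`; if `X < Y`, then `(X-K)^2 ≤ Y^2 ≤ 2N`.
`numC`: write `K = 2 μ^2`. Suppose `X > K`; we want `(X-K)^2 ≤ 2N`. We know
`X (X-1) ≤ 2N + (μ-1)^2 X2`, and (`X2 ≤ K` or `(X2-K)^2 ≤ 2 N2`), `2 N2 ≤ 2 N + (μ^2-1) X2`.
`(X-K)^2 = X (X-1) - (2K-1) X + K^2 ≤ 2N + (μ-1)^2 X2 - (2K-1) X + K^2`, so we are done if
`(μ-1)^2 X2 + K^2 ≤ (2K-1) X`. Otherwise `(2K-1) K < (2K-1) X < (μ-1)^2 X2 + K^2`, so
`X2 > (K^2-K)/(μ-1)^2 > K`, hence `(X2-K)^2 - (μ^2-1) X2 ≤ 2N`, and it is enough that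
`(X-K)^2 ≤ (X2-K)^2 - (μ^2-1) X2` where `(2K-1) X < (μ-1)^2 X2 + K^2` (units `μ^2`: `X2 = β`, `β > 4`,
`X < (β + 4)/4`, `(X-2)^2 < (β/4-1)^2 ≤ (β-2)^2 - β`).
-/

namespace FPS

theorem numF (μ b N X : ℕ) (hb : 2 ≤ b) (hbμ : b ≤ μ) (hN : 3 * b * μ ^ 2 ≤ N)
    (hX : X ≤ 2 * μ ^ 2 ∨ (X - 2 * μ ^ 2) ^ 2 ≤ 2 * N) : (b - 1) * X < N := by
  obtain ⟨d, rfl⟩ := Nat.exists_eq_add_of_le hb
  obtain ⟨j, rfl⟩ := Nat.exists_eq_add_of_le hbμ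
  obtain ⟨t, rfl⟩ := Nat.exists_eq_add_of_le hN
  have hd : 2 + d - 1 = d + 1 := by omega
  rw [hd]
  have hcase1 : X ≤ 2 * (2 + d + j) ^ 2 →
      (d + 1) * X < 3 * (2 + d) * (2 + d + j) ^ 2 + t := by
    intro h
    calc (d + 1) * X ≤ (d + 1) * (2 * (2 + d + j) ^ 2) := Nat.mul_le_mul_left _ h
      _ < 3 * (2 + d) * (2 + d + j) ^ 2 + t := by
        have h1 : 0 < (2 + d + j) ^ 2 := by positivity
        nlinarith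
  rcases hX with h | h
  · exact hcase1 h
  · rcases Nat.lt_or_ge (2 * (2 + d + j) ^ 2) X with h2 | h2
    · obtain ⟨y, rfl⟩ := Nat.exists_eq_add_of_lt h2
      have h3 : 2 * (2 + d + j) ^ 2 + y + 1 - 2 * (2 + d + j) ^ 2 = y + 1 := by omega
      rw [h3] at h
      by_contra hcon
      push Not at hcon
      have h4 : (4 + d) * (2 + d + j) ^ 2 + t ≤ (d + 1) * (y + 1) := by nlinarith
      have h5 : ((4 + d) * (2 + d + j) ^ 2 + t) ^ 2 ≤ ((d + 1) * (y + 1)) ^ 2 :=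
        Nat.pow_le_pow_left h4 2
      have h6 : ((d + 1) * (y + 1)) ^ 2 ≤
          (d + 1) ^ 2 * (2 * (3 * (2 + d) * (2 + d + j) ^ 2 + t)) := by
        rw [mul_pow]
        exact Nat.mul_le_mul_left _ h
      have h7 : (d + 1) ^ 2 * (2 * (3 * (2 + d) * (2 + d + j) ^ 2 + t)) <
          ((4 + d) * (2 + d + j) ^ 2 + t) ^ 2 := by
        zify
        rw [← sub_pos]
        ring_nf
        positivity
      omega
    · exact hcase1 h2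

theorem numC (μ X X2 N N2 : ℕ) (hμ : 2 ≤ μ) (h1 : X * (X - 1) ≤ 2 * N + (μ - 1) ^ 2 * X2)
    (h2 : 2 * N2 ≤ 2 * N + (μ ^ 2 - 1) * X2)
    (h3 : X2 ≤ 2 * μ ^ 2 ∨ (X2 - 2 * μ ^ 2) ^ 2 ≤ 2 * N2) :
    X ≤ 2 * μ ^ 2 ∨ (X - 2 * μ ^ 2) ^ 2 ≤ 2 * N := by
  rcases Nat.lt_or_ge (2 * μ ^ 2) X with hX | hX
  swap
  · exact Or.inl hX
  right
  obtain ⟨x, rfl⟩ := Nat.exists_eq_add_of_le hX.le
  have hx : 1 ≤ x := by omega
  have e1 : 2 * μ ^ 2 + x - 2 * μ ^ 2 = x := by omega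
  rw [e1]
  obtain ⟨ν, rfl⟩ := Nat.exists_eq_add_of_le hμ
  have e2 : 2 + ν - 1 = ν + 1 := by omega
  rw [e2] at h1
  have e3 : (2 + ν) ^ 2 - 1 = (ν + 1) * (ν + 3) := by
    have : (2 + ν) ^ 2 = (ν + 1) * (ν + 3) + 1 := by ring
    omega
  rw [e3] at h2
  by_contra hcon
  push Not at hcon
  have e4 : 2 * (2 + ν) ^ 2 + x - 1 = 2 * (2 + ν) ^ 2 + (x - 1) := by omega
  rw [e4] at h1
  obtain ⟨y, rfl⟩ : ∃ y, x = y + 1 := ⟨x - 1, by omega⟩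
  have e5 : y + 1 - 1 = y := by omega
  rw [e5] at h1
  -- the main inequality
  have h4 : (4 * (2 + ν) ^ 2) * (2 * (2 + ν) ^ 2 + (y + 1)) <
      (ν + 1) ^ 2 * X2 + 4 * (2 + ν) ^ 4 + (2 * (2 + ν) ^ 2 + (y + 1)) := by
    nlinarith
  rcases h3 with h3 | h3
  · have h5 : (ν + 1) ^ 2 * X2 ≤ (ν + 1) ^ 2 * (2 * (2 + ν) ^ 2) := Nat.mul_le_mul_left _ h3
    have h6 : (ν + 1) ^ 2 * (2 * (2 + ν) ^ 2) + 4 * (2 + ν) ^ 4 + (2 * (2 + ν) ^ 2 + (y + 1)) <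
        (4 * (2 + ν) ^ 2) * (2 * (2 + ν) ^ 2 + (y + 1)) := by
      zify
      rw [← sub_pos]
      ring_nf
      positivity
    omega
  · rcases Nat.lt_or_ge (2 * (2 + ν) ^ 2) X2 with hX2 | hX2
    · obtain ⟨β, rfl⟩ := Nat.exists_eq_add_of_le hX2.le
      have e6 : 2 * (2 + ν) ^ 2 + β - 2 * (2 + ν) ^ 2 = β := by omega
      rw [e6] at h3
      have h5 : 2 * (2 + ν) ^ 2 + 4 * (y + 1) < β := by
        by_contra hc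
        push Not at hc
        have h6 : (ν + 1) ^ 2 * (2 * (2 + ν) ^ 2 + β) ≤
            (ν + 1) ^ 2 * (2 * (2 + ν) ^ 2 + (2 * (2 + ν) ^ 2 + 4 * (y + 1))) :=
          Nat.mul_le_mul_left _ (by omega)
        have h7 : (ν + 1) ^ 2 * (2 * (2 + ν) ^ 2 + (2 * (2 + ν) ^ 2 + 4 * (y + 1))) +
            4 * (2 + ν) ^ 4 + (2 * (2 + ν) ^ 2 + (y + 1)) <
            (4 * (2 + ν) ^ 2) * (2 * (2 + ν) ^ 2 + (y + 1)) := by
          zify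
          rw [← sub_pos]
          ring_nf
          positivity
        omega
      have h6 : β ^ 2 ≤ 2 * N + (ν + 1) * (ν + 3) * (2 * (2 + ν) ^ 2 + β) := h3.trans h2
      have h7 : (y + 1) ^ 2 + (ν + 1) * (ν + 3) * (2 * (2 + ν) ^ 2 + β) ≤ β ^ 2 := by
        obtain ⟨γ, rfl⟩ := Nat.exists_eq_add_of_le h5.le
        zify
        rw [← sub_nonneg]
        ring_nf
        positivity
      omega
    · have h5 : (ν + 1) ^ 2 * X2 ≤ (ν + 1) ^ 2 * (2 * (2 + ν) ^ 2) := Nat.mul_le_mul_left _ hX2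
      have h6 : (ν + 1) ^ 2 * (2 * (2 + ν) ^ 2) + 4 * (2 + ν) ^ 4 + (2 * (2 + ν) ^ 2 + (y + 1)) <
          (4 * (2 + ν) ^ 2) * (2 * (2 + ν) ^ 2 + (y + 1)) := by
        zify
        rw [← sub_pos]
        ring_nf
        positivity
      omega

theorem numB (K W X Y N : ℕ) (hK : 1 ≤ K) (hY : 2 * W + K ^ 2 ≤ (2 * K - 1) * Y)
    (h1 : X * (X - 1) ≤ 2 * N + 2 * W) (h2 : Y ^ 2 ≤ 2 * N) :
    X ≤ K ∨ (X - K) ^ 2 ≤ 2 * N := by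
  rcases Nat.lt_or_ge K X with hX | hX
  swap
  · exact Or.inl hX
  right
  obtain ⟨x, rfl⟩ := Nat.exists_eq_add_of_le hX.le
  have hx : 1 ≤ x := by omega
  have e1 : K + x - K = x := by omega
  rw [e1]
  rcases Nat.lt_or_ge (K + x) Y with h | h
  · exact (Nat.pow_le_pow_left (by omega) 2).trans h2
  · obtain ⟨y, rfl⟩ : ∃ y, x = y + 1 := ⟨x - 1, by omega⟩
    obtain ⟨k, rfl⟩ : ∃ k, K = k + 1 := ⟨K - 1, by omega⟩
    have e2 : k + 1 + (y + 1) - 1 = k + 1 + y := by omega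
    have e3 : 2 * (k + 1) - 1 = 2 * k + 1 := by omega
    rw [e2] at h1
    rw [e3] at hY
    have h3 : (2 * k + 1) * Y ≤ (2 * k + 1) * (k + 1 + (y + 1)) := Nat.mul_le_mul_left _ h
    nlinarith

end FPS
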