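import Pool.Agent.Lib.FPW.BootA
import Pool.Agent.Lib.FPW.NumW
import Pool.Agent.Lib.FPW.NumX

/-!
# FPW.BootB: the multiplicity which annihilates an exact list

PROOF of `claimC` (write `K = 2 μ^2`, `W = Wn μ e`, `n = N L`). Strong induction on the length of `L`.
Let `X` be minimal with `N (X :: L) = 0` (exists: `sys_top`). If `X = 0`, done (`X ≤ K`). Let
`M = X - 1`, so `N (M :: L) > 0`.
(i) `X ≤ e - μ`: `A6` with `e - μ` (as `h = n + ST L`, `hz` gives `h + W < ST L + T (e - μ)`); so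
`M + μ ≤ e`, and `A6` for `M` gives `T M ≤ n + W` (otherwise `N (M :: L) = 0`). `2 T M = X (X-1)`
(`two_T`).
(ii) Take `Y` from `numY`. If `Y^2 ≤ 2 n`, then `numB K W X Y n` finishes.
(iii) Otherwise `2 n < Y^2`. Let `P L' : N (M :: L') + ST L' + T M = h`. `P []`: `A5` with
`ST [] = 0`, `T M + W ≤ T (e - μ) + W ≤ h` (`hh`, `T_mono`). Apply `last_true` to `L`.
Case 1: `P L`. Then `N (M :: L) + T M = n`, so `T M < n`, and `numC μ X 0 n 0` finishes.
Case 2: `L = R ++ (m :: L')`, `P L'`, `¬ P (m :: L')`. Let `u = N (M :: L')`, `n' = N L'`, so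
`n' + ST L' = h` (`hex`), `u + T M = n'`. `m ≥ 1` (if `m = 0`: `swap`, `zero`, `T 0 = 0` give
`P (0 :: L')`). By `A5` for `m :: L'` (contrapositive): `h < T m + ST L' + T M + W`, so
`n' < T μ + (n + W) + W` and `n' + W < T (e - μ)` by `numY`. The induction hypothesis for `L'` gives `X2`
with `N (X2 :: L') = 0` and `X2 ≤ K ∨ (X2 - K)^2 ≤ 2 n'`. By `sys_zero_cons`, `N (X2 :: M :: L') = 0`;
`sys_key` (contrapositive, `b = m`, list `M :: L'`, `P` fails at `m :: L'`, `swap`) gives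
`u ≤ (m - 1) * X2 ≤ (μ - 1) * X2`. By `drop_sum` (`R ++ [m]`), `N (M :: L) + (R.sum + m) ≤ u`, so
`R.sum + m < u`; with `ρ = ST (R ++ [m])`, `2 ρ ≤ (μ + 1) (R.sum + m) ≤ (μ + 1) u` (`ST_sum`), and
`n' = n + ρ` (`hex` for `L` and `L'`). So `2 n' ≤ 2 n + (μ+1) (μ-1) X2 = 2 n + (μ^2-1) X2`, and
`2 T M = 2 n' - 2 u = 2 n + 2 ρ - 2 u ≤ 2 n + (μ - 1) u ≤ 2 n + (μ-1)^2 X2`. `numC μ X X2 n n'` finishes.
-/

namespace FPS

theorem claimC {N : List ℕ → ℕ} {B : ℕ} (hN : Sys N B) (μ e h : ℕ) (hμ : 2 ≤ μ)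
    (he : 25 * μ ^ 2 ≤ e) (h0 : N [] = h) (hh : T (e - μ) + Wn μ e ≤ h) (L0 : List ℕ)
    (hL0 : ∀ b ∈ L0, b ≤ μ)
    (A5 : ∀ L, L <:+ L0 → ∀ M, M + μ ≤ e → ST L + T M + Wn μ e ≤ h →
      N (M :: L) + (ST L + T M) = h)
    (A6 : ∀ L, L <:+ L0 → ∀ M, M + μ ≤ e → h + Wn μ e < ST L + T M → N (M :: L) = 0)
    (L : List ℕ) (hL : L <:+ L0) (hex : ∀ L', L' <:+ L → N L' + ST L' = h)
    (hz : N L + Wn μ e < T (e - μ)) :
    ∃ X, N (X :: L) = 0 ∧ (X ≤ 2 * μ ^ 2 ∨ (X - 2 * μ ^ 2) ^ 2 ≤ 2 * N L) := by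
  have hμe : μ ≤ e := by nlinarith
  induction hn : L.length using Nat.strong_induction_on generalizing L with
  | _ n ih =>
  -- the least multiplicity annihilating `L`
  have hX0 : ∃ X, N (X :: L) = 0 := ⟨B, sys_top hN L⟩
  obtain ⟨X, hX, hXmin⟩ : ∃ X, N (X :: L) = 0 ∧ ∀ M < X, N (M :: L) ≠ 0 := by
    classical
    exact ⟨Nat.find hX0, Nat.find_spec hX0, fun M hM => Nat.find_min hX0 hM⟩
  refine ⟨X, hX, ?_⟩
  rcases Nat.eq_zero_or_pos X with rfl | hXpos
  · left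
    exact Nat.zero_le _
  obtain ⟨M, rfl⟩ : ∃ M, X = M + 1 := ⟨X - 1, by omega⟩
  have hMpos : 0 < N (M :: L) := Nat.pos_of_ne_zero (hXmin M (Nat.lt_succ_self M))
  -- (i)
  have hexL : N L + ST L = h := hex L List.suffix_rfl
  have hA6e : N ((e - μ) :: L) = 0 := A6 L hL (e - μ) (by omega) (by omega)
  have hXe : M + 1 ≤ e - μ := by
    by_contra hlt
    exact hXmin (e - μ) (by omega) hA6e
  have hMe : M + μ ≤ e := by omega
  have hTM : T M ≤ N L + Wn μ e := by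
    by_contra hlt
    exact hMpos.ne' (A6 L hL M hMe (by omega))
  have h2M : 2 * T M = (M + 1) * (M + 1 - 1) := by
    rw [two_T, Nat.add_sub_cancel, mul_comm]
  -- (ii)
  obtain ⟨Y, hY1, hY2⟩ := numY μ e hμ he
  by_cases hYn : Y ^ 2 ≤ 2 * N L
  · exact numB (2 * μ ^ 2) (Wn μ e) (M + 1) Y (N L) (by nlinarith) hY1 (by rw [← h2M]; omega) hYn
  push Not at hYn
  -- (iii)
  have hTMe : T M ≤ T (e - μ) := T_mono (by omega)
  have hP0 : N (M :: []) + ST [] + T M = h := by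
    have h1 : ST [] = 0 := rfl
    have h2 := A5 [] List.nil_suffix M hMe (by rw [h1]; omega)
    omega
  rcases last_true (fun L' => N (M :: L') + ST L' + T M = h) hP0 L with hall | hcase
  · have h1 := hall L List.suffix_rfl
    refine numC μ (M + 1) 0 (N L) 0 hμ (by rw [← h2M]; omega) (by omega) (Or.inl (by omega))
  obtain ⟨R, m, L', hLR, hP, hnP⟩ := hcase
  have hPL' := hP L' List.suffix_rfl
  have hsuf1 : (m :: L') <:+ L := ⟨R, hLR.symm⟩
  have hsuf : L' <:+ L := (List.suffix_cons m L').trans hsuf1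
  have hmμ : m ≤ μ := hL0 m ((hL.subset) (hsuf1.subset List.mem_cons_self))
  have hexL' : N L' + ST L' = h := hex L' hsuf
  have hST : ST (m :: L') = T m + ST L' := ST_cons m L'
  have hm1 : 1 ≤ m := by
    by_contra hm0
    have hm0' : m = 0 := by omega
    apply hnP
    have h1 : N (M :: m :: L') = N (M :: L') := by rw [hm0', hN.swap, hN.zero]
    have h2 : T m = 0 := by rw [hm0']; rfl
    omega
  have hA5 : h < T m + ST L' + T M + Wn μ e := by
    by_contra hlt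
    apply hnP
    have h1 := A5 (m :: L') (hsuf1.trans hL) M hMe (by rw [hST]; omega)
    omega
  have hTm : T m ≤ T μ := T_mono hmμ
  obtain ⟨X2, hX2, hX2'⟩ := ih L'.length (by
      rw [← hn, hLR]
      simp only [List.length_append, List.length_cons]
      omega) L' (hsuf.trans hL) (fun L'' h'' => hex L'' (h''.trans hsuf)) (by omega) rfl
  have hX2M : N (X2 :: M :: L') = 0 := sys_zero_cons hN M X2 L' hX2
  have hu : N (M :: L') ≤ (m - 1) * X2 := by
    by_contra hlt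
    push Not at hlt
    have h1 := sys_key hN m hm1 (M :: L') X2 hX2M hlt
    apply hnP
    rw [hN.swap] at h1
    omega
  have hu' : N (M :: L') ≤ (μ - 1) * X2 := hu.trans (Nat.mul_le_mul_right _ (by omega))
  have hLR' : L = (R ++ [m]) ++ L' := by
    rw [hLR]
    simp
  have hdrop : N (M :: L) + (R ++ [m]).sum ≤ N (M :: L') := by
    have h1 := drop_sum hN M (R ++ [m]) L' (by rw [← hLR']; exact hMpos)
    rwa [← hLR'] at h1
  have hρ : 2 * ST (R ++ [m]) ≤ (μ + 1) * (R ++ [m]).sum := by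
    refine ST_sum μ _ fun b hb => hL0 b (hL.subset ?_)
    rw [hLR']
    exact List.mem_append_left _ hb
  have hSTL : ST L = ST (R ++ [m]) + ST L' := by
    conv_lhs => rw [hLR']
    exact ST_append _ _
  have h3 : (μ + 1) * (R ++ [m]).sum ≤ (μ + 1) * N (M :: L') :=
    Nat.mul_le_mul_left _ (by omega)
  have h4 : N L' = N L + ST (R ++ [m]) := by omega
  obtain ⟨ν, rfl⟩ : ∃ ν, μ = ν + 1 := ⟨μ - 1, by omega⟩
  have h5 : ν + 1 - 1 = ν := by omega
  have h6 : (ν + 1) ^ 2 - 1 = (ν + 2) * ν := by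
    have : (ν + 1) ^ 2 = (ν + 2) * ν + 1 := by ring
    omega
  rw [h5] at hu'
  have h7 : (ν + 2) * N (M :: L') ≤ (ν + 2) * ν * X2 := by
    rw [mul_assoc]
    exact Nat.mul_le_mul_left _ hu'
  have h8 : ν * N (M :: L') ≤ ν ^ 2 * X2 := by
    rw [sq, mul_assoc]
    exact Nat.mul_le_mul_left _ hu'
  have h9 : (ν + 1 + 1) * N (M :: L') = ν * N (M :: L') + 2 * N (M :: L') := by ring
  have h10 : (ν + 2) * N (M :: L') = ν * N (M :: L') + 2 * N (M :: L') := by ring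
  refine numC (ν + 1) (M + 1) X2 (N L) (N L') hμ ?_ ?_ hX2'
  · rw [← h2M, h5]
    omega
  · rw [h6]
    omega

end FPS
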