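import Pool.Agent.Lib.FPW.Defs

/-!
# FPW.DmB: basic properties of the generic dimension

PROOFS. `Dm` is the infimum of a set of natural numbers which is nonempty (constant tuple `p`):
`Nat.sInf_mem`, `Nat.sInf_le`. `series_cons`: unfold (`Fin.forall_fin_succ`). `Dm_cons_zero`: the
condition of multiplicity `0` is empty (`ptIdeal ^ 0 = ⊤`), drop or add (any smooth point) the first
point. `Dm_swap`, `Dm_perm`: reindexing, `series F e (q ∘ σ) (m ∘ σ) = series F e q m`. `Dm_anti`: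
`series` with `a + 1` is contained in `series` with `a` (finite dimensional: contained in
`restrictTotalDegree (Fin 3) ℂ e`). `Dm_nil`: `special_finrank_E` (FPS/Special.lean). `mults_le_Dm`: every
`series` contains `mults F e`. `Dm_tail`: `series F e (Fin.cons x q) (Fin.cons a m) ≤ series F e q m`.
-/

namespace FPS

open MvPolynomial

theorem Dm_le (F : MvPolynomial (Fin 3) ℂ) (e : ℕ) {r : ℕ} (m : Fin r → ℕ)
    (q : Fin r → Fin 3 → ℂ) (hq : ∀ l, Sm F (q l)) :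
    Dm F e m ≤ Module.finrank ℂ (series F e q m) :=
  Nat.sInf_le ⟨q, hq, rfl⟩

theorem Dm_attained (F : MvPolynomial (Fin 3) ℂ) (hsm : ∃ p, Sm F p) (e : ℕ) {r : ℕ}
    (m : Fin r → ℕ) :
    ∃ q : Fin r → Fin 3 → ℂ, (∀ l, Sm F (q l)) ∧ Module.finrank ℂ (series F e q m) = Dm F e m := by
  obtain ⟨p, hp⟩ := hsm
  exact Nat.sInf_mem (s := {n | ∃ q : Fin r → Fin 3 → ℂ, (∀ l, Sm F (q l)) ∧
    Module.finrank ℂ (series F e q m) = n}) ⟨_, fun _ => p, fun _ => hp, rfl⟩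

theorem series_fin (F : MvPolynomial (Fin 3) ℂ) (e : ℕ) {r : ℕ} (q : Fin r → Fin 3 → ℂ)
    (m : Fin r → ℕ) : FiniteDimensional ℂ (series F e q m) := by
  have hE : FiniteDimensional ℂ (MvPolynomial.restrictTotalDegree (Fin 3) ℂ e) := inferInstance
  have hle : series F e q m ≤ MvPolynomial.restrictTotalDegree (Fin 3) ℂ e := fun G hG =>
    (MvPolynomial.mem_restrictTotalDegree _ _ _).2 hG.1
  exact Submodule.finiteDimensional_of_le hle

theorem series_cons (F : MvPolynomial (Fin 3) ℂ) (e : ℕ) {r : ℕ} (x : Fin 3 → ℂ)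
    (q : Fin r → Fin 3 → ℂ) (a : ℕ) (m : Fin r → ℕ) :
    series F e (Fin.cons x q : Fin (r + 1) → Fin 3 → ℂ) (Fin.cons a m : Fin (r + 1) → ℕ)
      = series F e q m ⊓ JI F x a := by
  ext G
  constructor
  · rintro ⟨h1, h2⟩
    refine ⟨⟨h1, fun l => ?_⟩, ?_⟩
    · have := h2 l.succ
      rwa [Fin.cons_succ, Fin.cons_succ] at this
    · have := h2 0
      rwa [Fin.cons_zero, Fin.cons_zero] at this
  · rintro ⟨⟨h1, h2⟩, h3⟩
    refine ⟨h1, fun l => ?_⟩
    refine Fin.cases ?_ (fun l => ?_) l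
    · rw [Fin.cons_zero, Fin.cons_zero]
      exact h3
    · rw [Fin.cons_succ, Fin.cons_succ]
      exact h2 l

theorem Dm_nil (F : MvPolynomial (Fin 3) ℂ) (hsm : ∃ p, Sm F p) (e : ℕ) (m : Fin 0 → ℕ) :
    Dm F e m = (e + 3).choose 3 := by
  obtain ⟨q, -, hq⟩ := Dm_attained F hsm e m
  rw [← hq]
  have h1 : series F e q m = MvPolynomial.restrictTotalDegree (Fin 3) ℂ e := by
    ext G
    rw [MvPolynomial.mem_restrictTotalDegree]
    exact ⟨fun h => h.1, fun h => ⟨h, fun l => l.elim0⟩⟩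
  rw [h1, special_finrank_E]

theorem Dm_cons_zero (F : MvPolynomial (Fin 3) ℂ) (hsm : ∃ p, Sm F p) (e : ℕ) {r : ℕ}
    (m : Fin r → ℕ) : Dm F e (Fin.cons 0 m : Fin (r + 1) → ℕ) = Dm F e m := by
  have key : ∀ (x : Fin 3 → ℂ) (q : Fin r → Fin 3 → ℂ),
      series F e (Fin.cons x q : Fin (r + 1) → Fin 3 → ℂ) (Fin.cons 0 m : Fin (r + 1) → ℕ)
        = series F e q m := by
    intro x q
    rw [series_cons]
    refine inf_eq_left.2 fun G _ => ?_
    change G ∈ Ideal.span {F} ⊔ ptIdeal x ^ 0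
    rw [pow_zero, Ideal.one_eq_top, sup_top_eq]
    trivial
  apply le_antisymm
  · obtain ⟨q, hq, hq'⟩ := Dm_attained F hsm e m
    obtain ⟨p, hp⟩ := hsm
    rw [← hq', ← key p q]
    refine Dm_le F e _ _ fun l => ?_
    refine Fin.cases ?_ (fun l => ?_) l
    · exact hp
    · exact hq l
  · obtain ⟨q, hq, hq'⟩ := Dm_attained F hsm e (Fin.cons 0 m : Fin (r + 1) → ℕ)
    rw [← hq', ← Fin.cons_self_tail q, key]
    exact Dm_le F e _ _ fun l => hq l.succ

theorem DmB_series_perm (F : MvPolynomial (Fin 3) ℂ) (e : ℕ) {r : ℕ} (q : Fin r → Fin 3 → ℂ)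
    (m : Fin r → ℕ) (σ : Equiv.Perm (Fin r)) :
    series F e (q ∘ σ) (m ∘ σ) = series F e q m := by
  ext G
  constructor
  · rintro ⟨h1, h2⟩
    refine ⟨h1, fun l => ?_⟩
    have := h2 (σ.symm l)
    simpa using this
  · rintro ⟨h1, h2⟩
    exact ⟨h1, fun l => h2 (σ l)⟩

theorem Dm_perm (F : MvPolynomial (Fin 3) ℂ) (e : ℕ) {r : ℕ} (m : Fin r → ℕ)
    (σ : Equiv.Perm (Fin r)) : Dm F e (m ∘ σ) = Dm F e m := by
  unfold Dm
  congr 1
  ext n
  constructor
  · rintro ⟨q, hq, hq'⟩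
    refine ⟨q ∘ σ.symm, fun l => hq _, ?_⟩
    rw [← hq', ← DmB_series_perm F e (q ∘ σ.symm) m σ]
    have h2 : (q ∘ σ.symm) ∘ σ = q := by
      funext l
      simp
    rw [h2]
  · rintro ⟨q, hq, hq'⟩
    refine ⟨q ∘ σ, fun l => hq _, ?_⟩
    rw [← hq', DmB_series_perm]

theorem Dm_swap (F : MvPolynomial (Fin 3) ℂ) (e : ℕ) {r : ℕ} (a b : ℕ) (m : Fin r → ℕ) :
    Dm F e (Fin.cons a (Fin.cons b m : Fin (r + 1) → ℕ) : Fin (r + 2) → ℕ)
      = Dm F e (Fin.cons b (Fin.cons a m : Fin (r + 1) → ℕ) : Fin (r + 2) → ℕ) := by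
  rw [← Dm_perm F e (Fin.cons b (Fin.cons a m : Fin (r + 1) → ℕ) : Fin (r + 2) → ℕ)
    (Equiv.swap 0 1)]
  congr 1
  funext l
  refine Fin.cases ?_ (fun l => ?_) l
  · simp only [Function.comp_apply, Equiv.swap_apply_left]
    rfl
  · refine Fin.cases ?_ (fun l => ?_) l
    · simp only [Function.comp_apply]
      have : (Fin.succ 0 : Fin (r + 2)) = 1 := rfl
      rw [this, Equiv.swap_apply_right]
      rfl
    · simp only [Function.comp_apply]
      rw [Equiv.swap_apply_of_ne_of_ne]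
      · rfl
      · exact Fin.succ_ne_zero _
      · intro h
        have h2 : (1 : Fin (r + 2)) = Fin.succ 0 := rfl
        rw [h2] at h
        exact Fin.succ_ne_zero _ (Fin.succ_injective _ h)

theorem DmB_JI_anti (F : MvPolynomial (Fin 3) ℂ) (p : Fin 3 → ℂ) (a : ℕ) :
    JI F p (a + 1) ≤ JI F p a := by
  intro G hG
  exact (sup_le_sup_left (Ideal.pow_le_pow_right (Nat.le_succ a)) (Ideal.span {F}) :
    Ideal.span {F} ⊔ ptIdeal p ^ (a + 1) ≤ Ideal.span {F} ⊔ ptIdeal p ^ a) hG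

theorem Dm_anti (F : MvPolynomial (Fin 3) ℂ) (hsm : ∃ p, Sm F p) (e : ℕ) {r : ℕ} (a : ℕ)
    (m : Fin r → ℕ) :
    Dm F e (Fin.cons (a + 1) m : Fin (r + 1) → ℕ) ≤ Dm F e (Fin.cons a m : Fin (r + 1) → ℕ) := by
  obtain ⟨q, hq, hq'⟩ := Dm_attained F hsm e (Fin.cons a m : Fin (r + 1) → ℕ)
  rw [← hq']
  refine (Dm_le F e _ q hq).trans ?_
  rw [← Fin.cons_self_tail q, series_cons, series_cons]
  have := series_fin F e (Fin.tail q) m
  exact Submodule.finrank_mono (inf_le_inf_left _ (DmB_JI_anti F (q 0) a))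

theorem mults_le_Dm (F : MvPolynomial (Fin 3) ℂ) (hsm : ∃ p, Sm F p) (e : ℕ) {r : ℕ}
    (m : Fin r → ℕ) : Module.finrank ℂ (mults F e) ≤ Dm F e m := by
  obtain ⟨q, hq, hq'⟩ := Dm_attained F hsm e m
  rw [← hq']
  have := series_fin F e q m
  apply Submodule.finrank_mono
  rintro G ⟨h4, h5⟩
  exact ⟨h4, fun l => Ideal.mem_sup_left (Ideal.mem_span_singleton.2 h5)⟩

end FPS
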