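import Pool.Agent.Lib.FPW.Defs

/-!
# FPW.JetW: orders of vanishing on the surface through the tangent derivations

PROOF. `dl_self`: `δ_i F = F_z F_i - F_i F_z = 0`. `dl_JI`: Leibniz rule; `δ_i (m^(j+1)) ⊆ m^j`.
`mem_JI_succ`, direction `→`: `dl_JI`, and `JI F p (j+1) ≤ JI F p 1 = {G : G(p) = 0}` (`F(p) = 0`;
compare `eval_of_mem`, `mem_of_eval` in `FPS/SimpInd.lean`). Direction `←`: show `G ∈ JI F p k` for all
`1 ≤ k ≤ j + 1` by induction on `k`. After a translation (`shift p`, see `FPS/JetA.lean`, commutes with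
`dl`; `mem_pt_iff`, `mem_vars_iff`) let `p = 0`, `F = a x + b y + c z + (order ≥ 2)`, `c = F_z(p) ≠ 0`.
(R) every element of `m^k` is, modulo `(F) + m^(k+1)`, a form `φ` of degree `k` in `x`, `y` only
(`z ≡ -(a x + b y)/c` modulo `(F) + m^2`). (Z) a form `ψ` of degree `k - 1` in `x`, `y` which lies in
`(F) + m^k` is `0`: if `ψ - A F ∈ m^k`, `A` of order `t < k - 1` with leading form `A_t`, then
`A_t (a x + b y + c z)` is `0` or (if `t + 1 = k - 1`) equal to `ψ`, which is impossible (degree in `z`);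
if `A` has order `≥ k - 1`, then `ψ ∈ m^k`, so `ψ = 0`. Now let `G ∈ JI F p k`, `1 ≤ k ≤ j`; by (R)
`G = A F + φ + n`, `n ∈ m^(k+1)`. Then `δ_i G = F δ_i A + F_z ∂_i φ + δ_i n ∈ (F) + m^j` gives
`F_z(p) ∂_i φ ∈ (F) + m^k`, so `∂_x φ = ∂_y φ = 0` by (Z), and `φ = 0` (Euler, `k ≥ 1`).
`mem_JI_words`: induction on `j` with `mem_JI_succ` (the words of length `< j + 1` are `[]` and `w ++ [i]`
with `w` of length `< j`, and `wd F (w ++ [i]) G = wd F w (dl F i G)`).
-/

namespace FPS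

open MvPolynomial

namespace JetWAux

theorem mem_JI' {F : MvPolynomial (Fin 3) ℂ} {p : Fin 3 → ℂ} {j : ℕ} {G : MvPolynomial (Fin 3) ℂ} :
    G ∈ JI F p j ↔ ∃ a, ∃ b ∈ ptIdeal p ^ j, a * F + b = G := by
  change G ∈ Ideal.span {F} ⊔ ptIdeal p ^ j ↔ _
  rw [Ideal.mem_span_singleton_sup]

theorem deriv_pow (D : Derivation ℂ (MvPolynomial (Fin 3) ℂ) (MvPolynomial (Fin 3) ℂ))
    (I : Ideal (MvPolynomial (Fin 3) ℂ)) (n : ℕ) : ∀ b ∈ I ^ (n + 1), D b ∈ I ^ n := by
  induction n with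
  | zero => intro b _; simp
  | succ n ih =>
    intro b hb
    rw [pow_succ] at hb
    refine Submodule.mul_induction_on hb ?_ ?_
    · intro x hx y hy
      rw [Derivation.leibniz, smul_eq_mul, smul_eq_mul]
      refine Ideal.add_mem _ (Ideal.mul_mem_right _ _ hx) ?_
      rw [pow_succ']
      exact Ideal.mul_mem_mul hy (ih x hx)
    · intro x y hx hy
      rw [map_add]
      exact Ideal.add_mem _ hx hy

end JetWAux

theorem dl_self (F : MvPolynomial (Fin 3) ℂ) (i : Fin 2) : dl F i F = 0 := by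
  simp only [dl, Derivation.sub_apply, Derivation.smul_apply, smul_eq_mul]
  ring

theorem dl_JI (F : MvPolynomial (Fin 3) ℂ) (p : Fin 3 → ℂ) (j : ℕ) (i : Fin 2)
    (G : MvPolynomial (Fin 3) ℂ) (hG : G ∈ JI F p (j + 1)) : dl F i G ∈ JI F p j := by
  rw [JetWAux.mem_JI'] at hG ⊢
  obtain ⟨a, b, hb, rfl⟩ := hG
  refine ⟨dl F i a, dl F i b, JetWAux.deriv_pow _ _ _ b hb, ?_⟩
  rw [map_add, Derivation.leibniz, dl_self, smul_zero, zero_add, smul_eq_mul, mul_comm]

theorem wd_append (F : MvPolynomial (Fin 3) ℂ) (w w' : List (Fin 2)) (G : MvPolynomial (Fin 3) ℂ) :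
    wd F (w ++ w') G = wd F w (wd F w' G) := by
  induction w with
  | nil => rfl
  | cons i w ih =>
    change dl F i (wd F (w ++ w') G) = dl F i (wd F w (wd F w' G))
    rw [ih]

namespace JetWAux

theorem eval_of_mem' (F G : MvPolynomial (Fin 3) ℂ) (x : Fin 3 → ℂ) (hF : eval x F = 0)
    (h : G ∈ Ideal.span {F} ⊔ ptIdeal x ^ 1) : eval x G = 0 := by
  have h1 : Ideal.span {F} ⊔ ptIdeal x ^ 1 ≤ RingHom.ker (eval x) := by
    rw [pow_one]
    refine sup_le ?_ ?_
    · rw [Ideal.span_le]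
      intro H hH
      rw [Set.mem_singleton_iff] at hH
      rw [hH]
      exact hF
    · unfold ptIdeal
      rw [Ideal.span_le]
      rintro _ ⟨i, rfl⟩
      show eval x (X i - C (x i)) = 0
      simp
  exact h1 h

theorem sub_eval_mem (x : Fin 3 → ℂ) (H : MvPolynomial (Fin 3) ℂ) : H - C (eval x H) ∈ ptIdeal x := by
  induction H using MvPolynomial.induction_on with
  | C a => simp
  | add A B h1 h2 =>
    have h3 : A + B - C (eval x (A + B)) = (A - C (eval x A)) + (B - C (eval x B)) := by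
      rw [map_add, C_add]; ring
    rw [h3]
    exact Ideal.add_mem _ h1 h2
  | mul_X A i h1 =>
    have h3 : A * X i - C (eval x (A * X i)) =
        (A - C (eval x A)) * X i + C (eval x A) * (X i - C (x i)) := by
      rw [map_mul, eval_X, C_mul]; ring
    rw [h3]
    exact Ideal.add_mem _ (Ideal.mul_mem_right _ _ h1)
      (Ideal.mul_mem_left _ _ (Ideal.subset_span ⟨i, rfl⟩))

end JetWAux

theorem mem_JI_one (F : MvPolynomial (Fin 3) ℂ) (p : Fin 3 → ℂ) (hp : eval p F = 0)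
    (G : MvPolynomial (Fin 3) ℂ) : G ∈ JI F p 1 ↔ eval p G = 0 := by
  constructor
  · intro h
    exact JetWAux.eval_of_mem' F G p hp h
  · intro h
    change G ∈ Ideal.span {F} ⊔ ptIdeal p ^ 1
    rw [pow_one]
    refine Ideal.mem_sup_right ?_
    have h1 := JetWAux.sub_eval_mem p G
    rwa [h, C_0, sub_zero] at h1

namespace JetWAux

theorem JI_anti {F : MvPolynomial (Fin 3) ℂ} {p : Fin 3 → ℂ} {j k : ℕ} (h : j ≤ k) : JI F p k ≤ JI F p j := by
  intro G hG
  have h1 : Ideal.span {F} ⊔ ptIdeal p ^ k ≤ Ideal.span {F} ⊔ ptIdeal p ^ j :=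
    sup_le_sup_left (Ideal.pow_le_pow_right h) _
  exact h1 hG

/-- the easy direction -/
theorem words_of_mem (F : MvPolynomial (Fin 3) ℂ) (p : Fin 3 → ℂ) (hp : eval p F = 0) (w : List (Fin 2)) :
    ∀ (j : ℕ) (G : MvPolynomial (Fin 3) ℂ), G ∈ JI F p j → w.length < j → eval p (wd F w G) = 0 := by
  induction w using List.reverseRecOn with
  | nil =>
    intro j G hG hj
    have h1 : G ∈ JI F p 1 := JI_anti (Nat.succ_le_of_lt (by simpa using hj)) hG
    exact (mem_JI_one F p hp G).1 h1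
  | append_singleton w i ih =>
    intro j G hG hj
    rw [wd_append]
    rw [List.length_append, List.length_singleton] at hj
    obtain ⟨j', rfl⟩ : ∃ j', j = j' + 1 := ⟨j - 1, by omega⟩
    exact ih j' _ (dl_JI F p j' i G hG) (by omega)

theorem mul_mem_JI {F : MvPolynomial (Fin 3) ℂ} {p : Fin 3 → ℂ} {r s : ℕ} {a b : MvPolynomial (Fin 3) ℂ}
    (ha : a ∈ ptIdeal p ^ r) (hb : b ∈ JI F p s) : a * b ∈ JI F p (r + s) := by
  rw [mem_JI'] at hb ⊢
  obtain ⟨c, n, hn, rfl⟩ := hb
  refine ⟨a * c, a * n, ?_, by ring⟩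
  rw [pow_add]
  exact Ideal.mul_mem_mul ha hn

theorem pow_le_JI {F : MvPolynomial (Fin 3) ℂ} {p : Fin 3 → ℂ} {r : ℕ} {a : MvPolynomial (Fin 3) ℂ}
    (ha : a ∈ ptIdeal p ^ r) : a ∈ JI F p r := Ideal.mem_sup_right ha

/-- the local coordinates -/
noncomputable def u (p : Fin 3 → ℂ) (i : Fin 3) : MvPolynomial (Fin 3) ℂ := X i - C (p i)

theorem u_mem (p : Fin 3 → ℂ) (i : Fin 3) : u p i ∈ ptIdeal p := Ideal.subset_span ⟨i, rfl⟩

/-- linear parts -/
theorem lin_part (p : Fin 3 → ℂ) (x : MvPolynomial (Fin 3) ℂ) (hx : x ∈ ptIdeal p) :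
    ∃ c : Fin 3 → ℂ, x - ∑ i, C (c i) * u p i ∈ ptIdeal p ^ 2 := by
  unfold ptIdeal at hx
  obtain ⟨h, rfl⟩ := (Ideal.mem_span_range_iff_exists_fun).1 hx
  refine ⟨fun i => eval p (h i), ?_⟩
  rw [← Finset.sum_sub_distrib]
  refine Ideal.sum_mem _ fun i _ => ?_
  have h1 : h i * (X i - C (p i)) - C (eval p (h i)) * u p i = (h i - C (eval p (h i))) * u p i := by
    unfold u; ring
  rw [h1, pow_two]
  exact Ideal.mul_mem_mul (sub_eval_mem p (h i)) (u_mem p i)

theorem lin_two (F : MvPolynomial (Fin 3) ℂ) (p : Fin 3 → ℂ) (hp : Sm F p) (x : MvPolynomial (Fin 3) ℂ)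
    (hx : x ∈ ptIdeal p) : ∃ α β : ℂ, x - (C α * u p 0 + C β * u p 1) ∈ JI F p 2 := by
  obtain ⟨c, hc⟩ := lin_part p x hx
  have hF : F ∈ ptIdeal p := by
    have h1 := sub_eval_mem p F
    rwa [hp.1, C_0, sub_zero] at h1
  obtain ⟨a, ha⟩ := lin_part p F hF
  have ha2 : a 2 = eval p (pderiv 2 F) := by
    have h1 := deriv_pow (pderiv 2) (ptIdeal p) 1 _ ha
    have h2 : eval p (pderiv 2 (F - ∑ i, C (a i) * u p i)) = 0 := by
      refine eval_of_mem' 0 _ p (by simp) (Ideal.mem_sup_right h1)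
    rw [map_sub, map_sub, sub_eq_zero] at h2
    rw [h2, Fin.sum_univ_three]
    simp [u, pderiv_X]
  have ha0 : a 2 ≠ 0 := by rw [ha2]; exact hp.2
  refine ⟨c 0 - c 2 * a 0 / a 2, c 1 - c 2 * a 1 / a 2, ?_⟩
  rw [mem_JI']
  refine ⟨C (c 2 / a 2), (x - ∑ i, C (c i) * u p i) - C (c 2 / a 2) * (F - ∑ i, C (a i) * u p i),
    Ideal.sub_mem _ hc (Ideal.mul_mem_left _ _ ha), ?_⟩
  have h3 : (C (c 2) : MvPolynomial (Fin 3) ℂ) = C (c 2 / a 2) * C (a 2) := by
    rw [← C_mul, div_mul_cancel₀ _ ha0]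
  have h4 : (C (c 0 - c 2 * a 0 / a 2) : MvPolynomial (Fin 3) ℂ) = C (c 0) - C (c 2 / a 2) * C (a 0) := by
    rw [← C_mul, ← C_sub]; congr 1; ring
  have h5 : (C (c 1 - c 2 * a 1 / a 2) : MvPolynomial (Fin 3) ℂ) = C (c 1) - C (c 2 / a 2) * C (a 1) := by
    rw [← C_mul, ← C_sub]; congr 1; ring
  rw [h4, h5, Fin.sum_univ_three, Fin.sum_univ_three, h3]
  ring

/-- forms of degree `k` in the first two coordinates -/
noncomputable def S (p : Fin 3 → ℂ) (k : ℕ) : Submodule ℂ (MvPolynomial (Fin 3) ℂ) :=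
  Submodule.span ℂ (Set.range fun i : Fin (k + 1) => u p 0 ^ (i : ℕ) * u p 1 ^ (k - (i : ℕ)))

theorem mon_mem_S (p : Fin 3 → ℂ) (k a b : ℕ) (h : a + b = k) : u p 0 ^ a * u p 1 ^ b ∈ S p k := by
  refine Submodule.subset_span ⟨⟨a, by omega⟩, ?_⟩
  have h1 : k - a = b := by omega
  simp [h1]

theorem S_le (p : Fin 3 → ℂ) (k : ℕ) (s : MvPolynomial (Fin 3) ℂ) (hs : s ∈ S p k) : s ∈ ptIdeal p ^ k := by
  have h1 : S p k ≤ (ptIdeal p ^ k).restrictScalars ℂ := by
    unfold S
    rw [Submodule.span_le]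
    rintro _ ⟨i, rfl⟩
    change u p 0 ^ (i : ℕ) * u p 1 ^ (k - (i : ℕ)) ∈ ptIdeal p ^ k
    have h2 : ptIdeal p ^ k = ptIdeal p ^ (i : ℕ) * ptIdeal p ^ (k - (i : ℕ)) := by
      rw [← pow_add]; congr 1; omega
    rw [h2]
    exact Ideal.mul_mem_mul (Ideal.pow_mem_pow (u_mem p 0) _) (Ideal.pow_mem_pow (u_mem p 1) _)
  exact h1 hs

theorem S_mul (p : Fin 3 → ℂ) (k : ℕ) (s : MvPolynomial (Fin 3) ℂ) (hs : s ∈ S p k) (α β : ℂ) :
    s * (C α * u p 0 + C β * u p 1) ∈ S p (k + 1) := by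
  unfold S at hs
  induction hs using Submodule.span_induction with
  | mem x hx =>
    obtain ⟨i, rfl⟩ := hx
    have h1 : u p 0 ^ (i : ℕ) * u p 1 ^ (k - (i : ℕ)) * (C α * u p 0 + C β * u p 1) =
        α • (u p 0 ^ ((i : ℕ) + 1) * u p 1 ^ (k - (i : ℕ))) +
          β • (u p 0 ^ (i : ℕ) * u p 1 ^ (k - (i : ℕ) + 1)) := by
      rw [smul_eq_C_mul, smul_eq_C_mul]; ring
    change u p 0 ^ (i : ℕ) * u p 1 ^ (k - (i : ℕ)) * (C α * u p 0 + C β * u p 1) ∈ S p (k + 1)
    rw [h1]
    exact Submodule.add_mem _ (Submodule.smul_mem _ _ (mon_mem_S p _ _ _ (by omega)))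
      (Submodule.smul_mem _ _ (mon_mem_S p _ _ _ (by omega)))
  | zero => rw [zero_mul]; exact Submodule.zero_mem _
  | add x y _ _ hx hy => rw [add_mul]; exact Submodule.add_mem _ hx hy
  | smul c x _ hx => rw [smul_mul_assoc]; exact Submodule.smul_mem _ _ hx

theorem red (F : MvPolynomial (Fin 3) ℂ) (p : Fin 3 → ℂ) (hp : Sm F p) (k : ℕ) :
    ∀ g ∈ ptIdeal p ^ k, g ∈ S p k ⊔ JI F p (k + 1) := by
  induction k with
  | zero =>
    intro g _
    rw [Submodule.mem_sup]
    refine ⟨C (eval p g), ?_, g - C (eval p g), ?_, by ring⟩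
    · have h1 := mon_mem_S p 0 0 0 rfl
      rw [pow_zero, pow_zero, mul_one] at h1
      have h2 := Submodule.smul_mem _ (eval p g) h1
      rwa [smul_eq_C_mul, mul_one] at h2
    · refine pow_le_JI ?_
      rw [zero_add, pow_one]
      exact sub_eval_mem p g
  | succ k ih =>
    intro g hg
    rw [pow_succ] at hg
    refine Submodule.mul_induction_on hg ?_ ?_
    · intro g hg x hx
      obtain ⟨s, hs, h, hh, rfl⟩ := Submodule.mem_sup.1 (ih g hg)
      obtain ⟨α, β, hl⟩ := lin_two F p hp x hx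
      rw [Submodule.mem_sup]
      refine ⟨s * (C α * u p 0 + C β * u p 1), S_mul p k s hs α β,
        s * (x - (C α * u p 0 + C β * u p 1)) + x * h, ?_, by ring⟩
      refine Submodule.add_mem _ ?_ ?_
      · have h1 := mul_mem_JI (S_le p k s hs) hl
        rwa [show k + 2 = k + 1 + 1 from rfl] at h1
      · have h1 := mul_mem_JI (r := 1) (by rwa [pow_one]) hh
        rwa [add_comm] at h1
    · intro x y hx hy
      exact Submodule.add_mem _ hx hy

theorem dl_u (F : MvPolynomial (Fin 3) ℂ) (p : Fin 3 → ℂ) (i j : Fin 2) :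
    dl F i (u p j.castSucc) = if i = j then pderiv 2 F else 0 := by
  simp only [dl, Derivation.sub_apply, Derivation.smul_apply, smul_eq_mul, u, map_sub, pderiv_X,
    pderiv_C, sub_zero]
  fin_cases i <;> fin_cases j <;> simp

theorem dl_mon (F : MvPolynomial (Fin 3) ℂ) (p : Fin 3 → ℂ) (i : Fin 2) (a b : ℕ)
    (g : MvPolynomial (Fin 3) ℂ) :
    dl F i (u p 0 ^ a * u p 1 ^ b * g) = u p 0 ^ a * u p 1 ^ b * dl F i g +
      (if i = 0 then (a : MvPolynomial (Fin 3) ℂ) * (u p 0 ^ (a - 1) * u p 1 ^ b * (pderiv 2 F * g))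
        else (b : MvPolynomial (Fin 3) ℂ) * (u p 0 ^ a * u p 1 ^ (b - 1) * (pderiv 2 F * g))) := by
  have h0 := dl_u F p i 0
  have h1 := dl_u F p i 1
  rw [show (Fin.castSucc (0 : Fin 2)) = (0 : Fin 3) from rfl] at h0
  rw [show (Fin.castSucc (1 : Fin 2)) = (1 : Fin 3) from rfl] at h1
  rw [Derivation.leibniz, Derivation.leibniz, Derivation.leibniz_pow, Derivation.leibniz_pow, h0, h1]
  simp only [smul_eq_mul, nsmul_eq_mul]
  fin_cases i <;> simp <;> ring

theorem wd_nil (F : MvPolynomial (Fin 3) ℂ) (G : MvPolynomial (Fin 3) ℂ) : wd F [] G = G := rfl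

theorem wd_single (F : MvPolynomial (Fin 3) ℂ) (i : Fin 2) (G : MvPolynomial (Fin 3) ℂ) :
    wd F [i] G = dl F i G := rfl

theorem wd_mon (F : MvPolynomial (Fin 3) ℂ) (p : Fin 3 → ℂ) (hp : eval p F = 0) (w : List (Fin 2)) :
    ∀ (a b : ℕ) (g : MvPolynomial (Fin 3) ℂ), a + b = w.length →
      eval p (wd F w (u p 0 ^ a * u p 1 ^ b * g)) =
        (if w.count 0 = a then (eval p (pderiv 2 F)) ^ w.length * ((a.factorial : ℂ) * b.factorial) else 0) *
          eval p g := by
  induction w using List.reverseRecOn with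
  | nil =>
    intro a b g hab
    rw [List.length_nil] at hab
    obtain ⟨rfl, rfl⟩ : a = 0 ∧ b = 0 := by omega
    rw [wd_nil, List.count_nil, if_pos rfl, List.length_nil]
    simp
  | append_singleton w i ih =>
    intro a b g hab
    rw [List.length_append, List.length_singleton] at hab
    rw [wd_append, wd_single]
    have hz : ∀ h : MvPolynomial (Fin 3) ℂ, eval p (wd F w (u p 0 ^ a * u p 1 ^ b * h)) = 0 := by
      intro h
      refine words_of_mem F p hp w (w.length + 1) _ ?_ (Nat.lt_succ_self _)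
      refine pow_le_JI (Ideal.mul_mem_right _ _ ?_)
      exact S_le p _ _ (mon_mem_S p _ _ _ hab)
    rw [dl_mon, map_add, map_add, hz, zero_add, List.count_append, List.length_append,
      List.length_singleton]
    have hcs : ∀ (n : ℕ) (h : MvPolynomial (Fin 3) ℂ),
        eval p (wd F w ((n : MvPolynomial (Fin 3) ℂ) * h)) = n * eval p (wd F w h) := by
      intro n h
      have h1 : (n : MvPolynomial (Fin 3) ℂ) * h = (n : ℂ) • h := by
        rw [smul_eq_C_mul, map_natCast]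
      rw [h1, map_smul, smul_eq_C_mul, map_mul, eval_C]
    by_cases hi : i = 0
    · subst hi
      rw [if_pos rfl, hcs]
      rcases a with _ | a
      · simp
      · rw [Nat.add_sub_cancel, ih a b _ (by omega), map_mul]
        by_cases hc : w.count 0 = a
        · rw [if_pos hc, if_pos (by simp [hc]), Nat.factorial_succ]
          push_cast
          ring
        · rw [if_neg hc, if_neg (by simpa using hc)]
          ring
    · have hi1 : i = 1 := by
        fin_cases i
        · exact absurd rfl hi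
        · rfl
      subst hi1
      rw [if_neg hi, hcs]
      rcases b with _ | b
      · have hlt : w.count 0 ≤ w.length := List.count_le_length
        have hne : ¬ (w.count 0 + List.count 0 [(1 : Fin 2)] = a) := by
          simp
          omega
        rw [if_neg hne]
        simp
      · rw [Nat.add_sub_cancel, ih a b _ (by omega), map_mul]
        by_cases hc : w.count 0 = a
        · rw [if_pos hc, if_pos (by simp [hc]), Nat.factorial_succ]
          push_cast
          ring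
        · rw [if_neg hc, if_neg (by simpa using hc)]
          ring

/-- a form of degree `k` in the coordinates which is killed by the words of length `k` vanishes -/
theorem form_zero (F : MvPolynomial (Fin 3) ℂ) (p : Fin 3 → ℂ) (hp : Sm F p) (k : ℕ)
    (s : MvPolynomial (Fin 3) ℂ) (hs : s ∈ S p k)
    (h : ∀ w : List (Fin 2), w.length = k → eval p (wd F w s) = 0) : s = 0 := by
  obtain ⟨c, rfl⟩ := (Submodule.mem_span_range_iff_exists_fun ℂ).1 hs
  refine Finset.sum_eq_zero fun i _ => ?_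
  have h1 := h (cw k i) (by unfold cw; simp; omega)
  rw [map_sum, map_sum] at h1
  have h2 : ∀ j : Fin (k + 1), eval p (wd F (cw k i) (c j • (u p 0 ^ (j : ℕ) * u p 1 ^ (k - (j : ℕ))))) =
      if j = i then c i * ((eval p (pderiv 2 F)) ^ k * (((i : ℕ).factorial : ℂ) * (k - (i : ℕ)).factorial))
        else 0 := by
    intro j
    have h3 := wd_mon F p hp.1 (cw k i) j (k - j) 1 (by unfold cw; simp; omega)
    have hlen : (cw k i).length = k := by unfold cw; simp; omega
    have hcount : (cw k i).count 0 = i := by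
      unfold cw
      simp [List.count_append, List.count_replicate]
    rw [mul_one, map_one, mul_one, hlen, hcount] at h3
    rw [map_smul, smul_eq_C_mul, map_mul, eval_C, h3]
    by_cases hj : j = i
    · subst hj
      simp
    · rw [if_neg hj, if_neg (fun h4 => hj (Fin.ext h4.symm)), mul_zero]
  rw [Finset.sum_congr rfl fun j _ => h2 j, Finset.sum_ite_eq' Finset.univ i, if_pos (Finset.mem_univ i)] at h1
  have h4 : (eval p (pderiv 2 F)) ^ k * (((i : ℕ).factorial : ℂ) * (k - (i : ℕ)).factorial) ≠ 0 :=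
    mul_ne_zero (pow_ne_zero _ hp.2) (mul_ne_zero (Nat.cast_ne_zero.2 (Nat.factorial_ne_zero _))
      (Nat.cast_ne_zero.2 (Nat.factorial_ne_zero _)))
  rw [(mul_eq_zero.1 h1).resolve_right h4, zero_smul]

theorem mem_of_words (F : MvPolynomial (Fin 3) ℂ) (p : Fin 3 → ℂ) (hp : Sm F p) (j : ℕ)
    (G : MvPolynomial (Fin 3) ℂ) (h : ∀ w : List (Fin 2), w.length < j → eval p (wd F w G) = 0) :
    G ∈ JI F p j := by
  induction j with
  | zero =>
    refine pow_le_JI ?_
    simp
  | succ j ih =>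
    have h1 := ih fun w hw => h w (by omega)
    obtain ⟨a, b, hb, rfl⟩ := mem_JI'.1 h1
    obtain ⟨s, hs, n, hn, hsn⟩ := Submodule.mem_sup.1 (red F p hp j b hb)
    have h2 : a * F + b = s + (a * F + n) := by rw [← hsn]; ring
    have h3 : a * F + n ∈ JI F p (j + 1) := by
      obtain ⟨a', b', hb', rfl⟩ := mem_JI'.1 hn
      exact mem_JI'.2 ⟨a + a', b', hb', by ring⟩
    have h4 : s = 0 := by
      refine form_zero F p hp j s hs fun w hw => ?_
      have h5 := h w (by omega)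
      rw [h2, map_add, map_add, words_of_mem F p hp.1 w (j + 1) _ h3 (by omega), add_zero] at h5
      exact h5
    rw [h2, h4, zero_add]
    exact h3

end JetWAux

theorem mem_JI_words (F : MvPolynomial (Fin 3) ℂ) (p : Fin 3 → ℂ) (hp : Sm F p) (j : ℕ)
    (G : MvPolynomial (Fin 3) ℂ) :
    G ∈ JI F p j ↔ ∀ w : List (Fin 2), w.length < j → eval p (wd F w G) = 0 :=
  ⟨fun h w hw => JetWAux.words_of_mem F p hp.1 w j G h hw, JetWAux.mem_of_words F p hp j G⟩

theorem mem_JI_succ (F : MvPolynomial (Fin 3) ℂ) (p : Fin 3 → ℂ) (hp : Sm F p) (j : ℕ)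
    (G : MvPolynomial (Fin 3) ℂ) :
    G ∈ JI F p (j + 1) ↔ eval p G = 0 ∧ ∀ i, dl F i G ∈ JI F p j := by
  constructor
  · intro h
    exact ⟨JetWAux.words_of_mem F p hp.1 [] (j + 1) G h (Nat.succ_pos _), fun i => dl_JI F p j i G h⟩
  · rintro ⟨h0, h1⟩
    refine JetWAux.mem_of_words F p hp (j + 1) G fun w hw => ?_
    induction w using List.reverseRecOn with
    | nil => exact h0
    | append_singleton w i _ =>
      rw [wd_append]
      rw [List.length_append, List.length_singleton] at hw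
      exact JetWAux.words_of_mem F p hp.1 w j _ (h1 i) (by omega)

end FPS
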