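import Pool.Agent.Lib.FPW.Defs

/-!
# FPW.MaxR: at a point of maximal rank the kernel can be differentiated

PROOF of `maxrank`. Let `M(x)` be the map `V → ℂ^ι`, `H ↦ (eval x (A i H))_i`, of rank `ρ` at `x0`; by
`hmax` its rank is `≤ ρ` at all `x` with `Sm F x`. Let `b_i = eval x0 (D (A i G))`; claim: `b` lies in
the image of `M(x0)`. Otherwise choose `G_1, ..., G_ρ ∈ V` with `M(x0) G_k` linearly independent; then
`M(x0) G_1, ..., M(x0) G_ρ, b` are independent, and there is a set `W` of `ρ + 1` rows (an injection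
`Fin (ρ+1) → ι`) with nonzero minor. Let `m = det (A_w G_1, ..., A_w G_ρ, A_w G)_{w ∈ W}`, a polynomial. It
vanishes at all `x` with `Sm F x` (rank `≤ ρ`). So `F ∣ m`: otherwise `F ∤ m * pderiv 2 F` (`F` prime,
`F ∤ pderiv 2 F` because of `hx0`), and `exists_point` (`FPS/Pencil.lean`) gives `x` on `F = 0` with
`m(x) ≠ 0`, `Sm F x`. Hence `F ∣ D m` (`hD`, Leibniz), so `(D m)(x0) = 0`. Expand `m` along the last
column: `m = ∑_w ± (A_w G) n_w`; since `(A_w G)(x0) = 0` we get `0 = (D m)(x0) = ∑_w ± b_w n_w(x0)`, which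
is the nonzero minor above: contradiction.
-/

namespace FPS

open MvPolynomial

/-- the elements of `V` at which all the operators `A i` vanish at `x` -/
noncomputable def zer {ι : Type*} (V : Submodule ℂ (MvPolynomial (Fin 3) ℂ))
    (A : ι → MvPolynomial (Fin 3) ℂ →ₗ[ℂ] MvPolynomial (Fin 3) ℂ) (x : Fin 3 → ℂ) :
    Submodule ℂ (MvPolynomial (Fin 3) ℂ) where
  carrier := {G | G ∈ V ∧ ∀ i, eval x (A i G) = 0}
  add_mem' := by
    rintro G H ⟨h1, h2⟩ ⟨h3, h4⟩
    exact ⟨V.add_mem h1 h3, fun i => by rw [map_add, map_add, h2 i, h4 i, add_zero]⟩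
  zero_mem' := ⟨V.zero_mem, fun i => by rw [map_zero, map_zero]⟩
  smul_mem' := by
    rintro c G ⟨h1, h2⟩
    exact ⟨V.smul_mem c h1, fun i => by rw [map_smul, smul_eval, h2 i, mul_zero]⟩

/-- the evaluation map `H ↦ (A i H (x))_i` on `V` -/
noncomputable def evM {ι : Type*} (V : Submodule ℂ (MvPolynomial (Fin 3) ℂ))
    (A : ι → MvPolynomial (Fin 3) ℂ →ₗ[ℂ] MvPolynomial (Fin 3) ℂ) (x : Fin 3 → ℂ) :
    V →ₗ[ℂ] (ι → ℂ) :=
  LinearMap.pi fun i => (aeval x).toLinearMap ∘ₗ A i ∘ₗ V.subtype

theorem evM_apply {ι : Type*} (V : Submodule ℂ (MvPolynomial (Fin 3) ℂ))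
    (A : ι → MvPolynomial (Fin 3) ℂ →ₗ[ℂ] MvPolynomial (Fin 3) ℂ) (x : Fin 3 → ℂ) (H : V) (i : ι) :
    evM V A x H i = eval x (A i H.1) := by
  simp only [evM, LinearMap.pi_apply, LinearMap.comp_apply, Submodule.subtype_apply,
    AlgHom.toLinearMap_apply]
  exact RingHom.congr_fun (coe_aeval_eq_eval x) _

theorem zer_eq_max {ι : Type*} (V : Submodule ℂ (MvPolynomial (Fin 3) ℂ))
    (A : ι → MvPolynomial (Fin 3) ℂ →ₗ[ℂ] MvPolynomial (Fin 3) ℂ) (x : Fin 3 → ℂ) :
    zer V A x = (LinearMap.ker (evM V A x)).map V.subtype := by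
  ext G
  constructor
  · rintro ⟨h1, h2⟩
    refine ⟨⟨G, h1⟩, ?_, rfl⟩
    rw [SetLike.mem_coe, LinearMap.mem_ker]
    funext i
    rw [evM_apply]
    exact h2 i
  · rintro ⟨H, hH, rfl⟩
    rw [SetLike.mem_coe, LinearMap.mem_ker] at hH
    refine ⟨H.2, fun i => ?_⟩
    have := congrFun hH i
    rw [evM_apply] at this
    exact this

theorem maxrank {ι : Type*} [Finite ι] (F : MvPolynomial (Fin 3) ℂ) (hF : Prime F)
    (V : Submodule ℂ (MvPolynomial (Fin 3) ℂ)) [FiniteDimensional ℂ V]
    (D : Derivation ℂ (MvPolynomial (Fin 3) ℂ) (MvPolynomial (Fin 3) ℂ)) (hD : F ∣ D F)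
    (A : ι → MvPolynomial (Fin 3) ℂ →ₗ[ℂ] MvPolynomial (Fin 3) ℂ) (x0 : Fin 3 → ℂ) (hx0 : Sm F x0)
    (hmax : ∀ x, Sm F x → Module.finrank ℂ (zer V A x0) ≤ Module.finrank ℂ (zer V A x))
    (G : MvPolynomial (Fin 3) ℂ) (hG : G ∈ zer V A x0) :
    ∃ G1 ∈ V, ∀ i, eval x0 (A i G1) = eval x0 (D (A i G)) := by
  classical
  haveI : Fintype ι := Fintype.ofFinite ι
  by_contra hcon
  set b : ι → ℂ := fun i => eval x0 (D (A i G)) with hb
  -- the rank at `x` is at most the rank at `x0`
  have hrank : ∀ x, Sm F x → Module.finrank ℂ (LinearMap.range (evM V A x)) ≤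
      Module.finrank ℂ (LinearMap.range (evM V A x0)) := by
    intro x hx
    have h1 := LinearMap.finrank_range_add_finrank_ker (evM V A x)
    have h2 := LinearMap.finrank_range_add_finrank_ker (evM V A x0)
    have h3 := hmax x hx
    rw [zer_eq_max V A x, zer_eq_max V A x0,
      ← (Submodule.equivMapOfInjective V.subtype V.injective_subtype
        (LinearMap.ker (evM V A x0))).finrank_eq,
      ← (Submodule.equivMapOfInjective V.subtype V.injective_subtype
        (LinearMap.ker (evM V A x))).finrank_eq] at h3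
    omega
  have hbn : b ∉ LinearMap.range (evM V A x0) := by
    rintro ⟨H, hH⟩
    refine hcon ⟨H.1, H.2, fun i => ?_⟩
    have := congrFun hH i
    rw [evM_apply] at this
    exact this
  -- a basis of the range, and preimages
  set ρ := Module.finrank ℂ (LinearMap.range (evM V A x0)) with hρ
  let bs := Module.finBasis ℂ (LinearMap.range (evM V A x0))
  choose g hg using fun k => (bs k).2
  have hli0 : LinearIndependent ℂ (fun k => (bs k : ι → ℂ)) := by
    have := bs.linearIndependent.map' (LinearMap.range (evM V A x0)).subtype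
      (Submodule.ker_subtype _)
    exact this
  have hbspan : b ∉ Submodule.span ℂ (Set.range fun k => (bs k : ι → ℂ)) := by
    intro hmem
    apply hbn
    refine (Submodule.span_le.2 ?_) hmem
    rintro _ ⟨k, rfl⟩
    exact (bs k).2
  have hli : LinearIndependent ℂ (Fin.cons b (fun k => (bs k : ι → ℂ)) : Fin (ρ + 1) → ι → ℂ) :=
    linearIndependent_finCons.2 ⟨hli0, hbspan⟩
  set v : Fin (ρ + 1) → ι → ℂ := Fin.cons b (fun k => (bs k : ι → ℂ)) with hv
  obtain ⟨P, hP⟩ := (Fintype.linearCombination ℂ v).exists_leftInverse_of_injective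
    (LinearMap.ker_eq_bot.2 (linearIndependent_iff_injective_fintypeLinearCombination.1 hli))
  have hPv : ∀ k, P (v k) = Pi.single k 1 := by
    intro k
    have := LinearMap.congr_fun hP (Pi.single k 1)
    simpa [Fintype.linearCombination_apply_single] using this
  have hPsum : ∀ (u : ι → ℂ) w, P u w = ∑ i, u i * P (Pi.single i 1) w := by
    intro u w
    conv_lhs => rw [← Finset.univ_sum_single u]
    rw [map_sum, Finset.sum_apply]
    refine Finset.sum_congr rfl fun i _ => ?_
    have : (Pi.single i (u i) : ι → ℂ) = u i • Pi.single i 1 := by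
      rw [← Pi.single_smul, smul_eq_mul, mul_one]
    rw [this, map_smul, Pi.smul_apply, smul_eq_mul]
  let Gs : Fin (ρ + 1) → V := Fin.cons ⟨G, hG.1⟩ g
  let Q : Matrix (Fin (ρ + 1)) (Fin (ρ + 1)) (MvPolynomial (Fin 3) ℂ) :=
    Matrix.of fun w k => ∑ i, A i (Gs k).1 * C (P (Pi.single i 1) w)
  have hQev : ∀ x w k, eval x (Q w k) = P (evM V A x (Gs k)) w := by
    intro x w k
    rw [hPsum]
    simp only [Q, Matrix.of_apply, map_sum, map_mul, eval_C, evM_apply]
  -- the determinant vanishes on the surface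
  have hvan : ∀ x, Sm F x → eval x Q.det = 0 := by
    intro x hx
    by_contra hne
    rw [RingHom.map_det] at hne
    have hcols := Matrix.linearIndependent_cols_of_det_ne_zero hne
    have hcols2 : LinearIndependent ℂ (fun k => P (evM V A x (Gs k))) := by
      have h : (fun k => P (evM V A x (Gs k))) = ((eval x).mapMatrix Q).col := by
        funext k w
        rw [← hQev]
        rfl
      rw [h]
      exact hcols
    have hcols3 : LinearIndependent ℂ (fun k => evM V A x (Gs k)) :=
      LinearIndependent.of_comp P hcols2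
    have hcols4 : LinearIndependent ℂ
        (fun k => (⟨evM V A x (Gs k), LinearMap.mem_range_self _ _⟩ :
          LinearMap.range (evM V A x))) :=
      LinearIndependent.of_comp (LinearMap.range (evM V A x)).subtype hcols3
    have := hcols4.fintype_card_le_finrank
    rw [Fintype.card_fin] at this
    have h5 := hrank x hx
    omega
  have hFQ : F ∣ Q.det := by
    by_contra hnd
    have hnd2 : ¬ F ∣ Q.det * pderiv 2 F := by
      intro h
      rcases hF.dvd_or_dvd h with h | h
      · exact hnd h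
      · obtain ⟨R, hR⟩ := h
        apply hx0.2
        rw [hR, map_mul, hx0.1, zero_mul]
    obtain ⟨x, hx1, hx2⟩ := exists_point F hF _ hnd2
    rw [map_mul] at hx2
    exact hx2 (by rw [hvan x ⟨hx1, fun h => hx2 (by rw [h, mul_zero])⟩, zero_mul])
  have hD0 : eval x0 (D Q.det) = 0 := by
    obtain ⟨R, hR⟩ := hFQ
    obtain ⟨R', hR'⟩ := hD
    rw [hR, Derivation.leibniz, hR', smul_eq_mul, smul_eq_mul, map_add, map_mul, map_mul, map_mul,
      hx0.1]
    ring
  -- expand the determinant along the first column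
  rw [Matrix.det_succ_column_zero, map_sum, map_sum] at hD0
  have hterm : ∀ w : Fin (ρ + 1), eval x0 (D ((-1) ^ (w : ℕ) * Q w 0 *
      (Q.submatrix w.succAbove Fin.succ).det)) =
      (-1) ^ (w : ℕ) * (P b w) *
        (Matrix.det (Matrix.of fun (a c : Fin ρ) => P (v c.succ) (w.succAbove a))) := by
    intro w
    have e1 : eval x0 (Q w 0) = 0 := by
      rw [hQev]
      have : evM V A x0 (Gs 0) = 0 := by
        funext i
        rw [evM_apply]
        exact hG.2 i
      rw [this, map_zero]
      rfl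
    have e2 : eval x0 (D (Q w 0)) = P b w := by
      rw [hPsum]
      simp only [Q, Matrix.of_apply, map_sum, Derivation.leibniz, map_add, smul_eq_mul, map_mul,
        eval_C]
      refine Finset.sum_congr rfl fun i _ => ?_
      have hc : D (C (P (Pi.single i 1) w)) = 0 := by
        rw [← algebraMap_eq]
        exact D.map_algebraMap _
      rw [hc, map_zero, mul_zero, zero_add, mul_comm]
      rfl
    have e3 : eval x0 (Q.submatrix w.succAbove Fin.succ).det =
        Matrix.det (Matrix.of fun (a c : Fin ρ) => P (v c.succ) (w.succAbove a)) := by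
      rw [RingHom.map_det]
      congr 1
      ext a c
      simp only [RingHom.mapMatrix_apply, Matrix.map_apply, Matrix.submatrix_apply,
        Matrix.of_apply]
      rw [hQev]
      have : evM V A x0 (Gs c.succ) = v c.succ := by
        simp only [Gs, hv, Fin.cons_succ]
        exact hg c
      rw [this]
    have e4 : D ((-1) ^ (w : ℕ) : MvPolynomial (Fin 3) ℂ) = 0 := by
      have : ((-1) ^ (w : ℕ) : MvPolynomial (Fin 3) ℂ) = algebraMap ℂ _ ((-1) ^ (w : ℕ)) := by
        simp
      rw [this]
      exact D.map_algebraMap _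
    rw [Derivation.leibniz, Derivation.leibniz, e4]
    simp only [smul_eq_mul, mul_zero, add_zero, map_add, map_mul, e1, e2, e3, mul_zero, zero_mul,
      zero_add, map_pow, map_neg, map_one]
    ring
  rw [Finset.sum_congr rfl fun w _ => hterm w] at hD0
  have hPb : ∀ w, P b w = if w = 0 then 1 else 0 := by
    intro w
    have h6 := congrFun (hPv 0) w
    rw [hv, Fin.cons_zero] at h6
    rw [h6, Pi.single_apply]
  rw [Finset.sum_eq_single (0 : Fin (ρ + 1))] at hD0
  · rw [hPb, if_pos rfl] at hD0
    have hid : (Matrix.of fun (a c : Fin ρ) => P (v c.succ) ((0 : Fin (ρ + 1)).succAbove a)) =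
        (1 : Matrix (Fin ρ) (Fin ρ) ℂ) := by
      ext a c
      rw [Matrix.of_apply, hPv, Fin.succAbove_zero, Pi.single_apply, Matrix.one_apply]
      by_cases hac : a = c
      · subst hac; simp
      · rw [if_neg hac, if_neg (fun h => hac (Fin.succ_injective _ h))]
    rw [hid, Matrix.det_one] at hD0
    simp at hD0
  · intro w _ hw
    rw [hPb, if_neg hw]
    ring
  · intro h
    exact absurd (Finset.mem_univ _) h

end FPS
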