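import Pool.Agent.Lib.FPW.Defs

/-!
# FPW.SysA: first consequences of the abstract properties

Write `g a = N (a :: L) - N ((a+1) :: L)` (`≥ 0` by `anti`).
PROOFS. `sys_anti`: induction from `anti`. `sys_le`: `zero` and `sys_anti`. `sys_top`: induction on `L`
with `swap` and `sys_le` (`N (B :: b :: L) = N (b :: B :: L) ≤ N (B :: L)`). `sys_lower`: sum of `step`.
`sys_mono`: if `g a ≤ a`, then `g a' ≤ g a` for all `a' ≥ a` (induction with `mac`).
`sys_key`: `N L = ∑_{a < X} g a` (telescoping, `zero`). If `g a ≤ a` for some `a < b`, then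
`g a' ≤ a ≤ b - 1` for all `a' ≥ a` and `g a' ≤ a' + 1 ≤ a ≤ b - 1` for `a' < a`; so
`N L ≤ (b - 1) X`, a contradiction. So `g a = a + 1` for all `a < b`, and `N (b :: L) = N L - T b`.
`sys_drop`: `g a ≥ 1` for all `a < b`: if `g a = 0` with `a < b`, then `g a' = 0` for all `a' ≥ a`
(`sys_mono`), so `N (b :: L) = N (c :: L)` for all `c ≥ b`; for `c ≥ B` this is `0` by `sys_top`.
-/

namespace FPS

namespace SysAAux

theorem T_succ (m : ℕ) : T (m + 1) = T m + (m + 1) := by
  unfold T
  have h : (m + 1) * (m + 1 + 1) = m * (m + 1) + (m + 1) * 2 := by ring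
  rw [h, Nat.add_mul_div_right _ _ (by norm_num)]

end SysAAux

open SysAAux

theorem sys_anti {N : List ℕ → ℕ} {B : ℕ} (hN : Sys N B) (a b : ℕ) (hab : a ≤ b) (L : List ℕ) :
    N (b :: L) ≤ N (a :: L) := by
  induction b, hab using Nat.le_induction with
  | base => exact le_rfl
  | succ n hn ih => exact (hN.anti n L).trans ih

theorem sys_le {N : List ℕ → ℕ} {B : ℕ} (hN : Sys N B) (a : ℕ) (L : List ℕ) :
    N (a :: L) ≤ N L := by
  rw [← hN.zero L]
  exact sys_anti hN 0 a (Nat.zero_le _) L

theorem sys_top {N : List ℕ → ℕ} {B : ℕ} (hN : Sys N B) (L : List ℕ) : N (B :: L) = 0 := by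
  induction L with
  | nil => exact hN.top
  | cons b L ih =>
    have h := sys_le hN b (B :: L)
    rw [← hN.swap B b L, ih] at h
    omega

theorem sys_lower {N : List ℕ → ℕ} {B : ℕ} (hN : Sys N B) (b : ℕ) (L : List ℕ) :
    N L ≤ N (b :: L) + T b := by
  induction b with
  | zero => rw [hN.zero]; exact Nat.le_add_right _ _
  | succ n ih =>
    have h := hN.step n L
    rw [T_succ]
    omega

namespace SysAAux

/-- the gap -/
def g (N : List ℕ → ℕ) (L : List ℕ) (a : ℕ) : ℕ := N (a :: L) - N ((a + 1) :: L)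

theorem g_add {N : List ℕ → ℕ} {B : ℕ} (hN : Sys N B) (L : List ℕ) (a : ℕ) :
    N (a :: L) = N ((a + 1) :: L) + g N L a := by
  have h := hN.anti a L
  unfold g
  omega

theorem g_le {N : List ℕ → ℕ} {B : ℕ} (hN : Sys N B) (L : List ℕ) (a : ℕ) :
    g N L a ≤ a + 1 := by
  have h := hN.step a L
  unfold g
  omega

theorem g_succ {N : List ℕ → ℕ} {B : ℕ} (hN : Sys N B) (L : List ℕ) (a : ℕ)
    (h : g N L a ≤ a) : g N L (a + 1) ≤ g N L a := by
  have h1 := g_add hN L a
  have h2 := g_add hN L (a + 1)
  have h3 := hN.mac a L (by omega)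
  have e : a + 1 + 1 = a + 2 := rfl
  rw [e] at h2
  omega

theorem sys_mono {N : List ℕ → ℕ} {B : ℕ} (hN : Sys N B) (L : List ℕ) (a a' : ℕ)
    (h : g N L a ≤ a) (ha : a ≤ a') : g N L a' ≤ g N L a := by
  induction a', ha using Nat.le_induction with
  | base => exact le_rfl
  | succ n hn ih => exact (g_succ hN L n (by omega)).trans ih

theorem tele {N : List ℕ → ℕ} {B : ℕ} (hN : Sys N B) (L : List ℕ) (X : ℕ) :
    N L = N (X :: L) + ∑ a ∈ Finset.range X, g N L a := by
  induction X with
  | zero => rw [hN.zero]; simp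
  | succ n ih =>
    rw [Finset.sum_range_succ]
    have h := g_add hN L n
    omega

theorem T_sum (b : ℕ) : ∑ a ∈ Finset.range b, (a + 1) = T b := by
  induction b with
  | zero => rfl
  | succ n ih => rw [Finset.sum_range_succ, ih, T_succ]

end SysAAux

theorem sys_key {N : List ℕ → ℕ} {B : ℕ} (hN : Sys N B) (b : ℕ) (hb : 1 ≤ b) (L : List ℕ) (X : ℕ)
    (hX : N (X :: L) = 0) (h : (b - 1) * X < N L) : N (b :: L) + T b = N L := by
  have hall : ∀ a, a < b → g N L a = a + 1 := by
    intro a hab
    by_contra hne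
    have h1 : g N L a ≤ a := by
      have := g_le hN L a
      omega
    have h2 : ∀ a' ∈ Finset.range X, g N L a' ≤ b - 1 := by
      intro a' _
      by_cases hc : a ≤ a'
      · have := sys_mono hN L a a' h1 hc
        omega
      · have := g_le hN L a'
        omega
    have h3 := Finset.sum_le_sum h2
    rw [Finset.sum_const, Finset.card_range, smul_eq_mul, mul_comm] at h3
    have h4 := tele hN L X
    omega
  have h5 := tele hN L b
  have h6 : ∑ a ∈ Finset.range b, g N L a = T b := by
    rw [← T_sum b]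
    exact Finset.sum_congr rfl fun a ha => hall a (Finset.mem_range.1 ha)
  omega

theorem sys_drop {N : List ℕ → ℕ} {B : ℕ} (hN : Sys N B) (b : ℕ) (L : List ℕ)
    (h : 0 < N (b :: L)) : N (b :: L) + b ≤ N L := by
  have hall : ∀ a ∈ Finset.range b, 1 ≤ g N L a := by
    intro a ha
    rw [Finset.mem_range] at ha
    by_contra hne
    have h1 : g N L a = 0 := by omega
    have h2 : ∀ c, b ≤ c → N (c :: L) = N (b :: L) := by
      intro c hc
      induction c, hc using Nat.le_induction with
      | base => rfl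
      | succ n hn ih =>
        have h3 := sys_mono hN L a n (by omega) (by omega)
        have h4 := g_add hN L n
        omega
    have h5 := h2 (max b B) (le_max_left _ _)
    have h6 := sys_anti hN B (max b B) (le_max_right _ _) L
    rw [sys_top hN L] at h6
    omega
  have h3 := Finset.sum_le_sum hall
  have h4 := tele hN L b
  rw [Finset.sum_const, Finset.card_range, smul_eq_mul, mul_one] at h3
  omega

end FPS
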