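import Pool.Agent.Lib.FPS.Main2
import Pool.Agent.Lib.FPW.Defs

/-!
# FPW.TwoU: the profile of the surface `z = x^a y^2` after removing one big point

All statements were checked numerically. Write `n i = rowN a 1 e i = Phi a 1 (i/2) E_i`,
`E_i = e + 1 - i % 2 - i / 2` (`rowN_one`); `Phi a s K E ≥ E`.
PROOF of `fit`: `M - i ≤ e - i ≤ E_i ≤ n i`.
PROOF of `usable2`. `h' i = n i - (M - i)`, row `i + s`, `1 ≤ s ≤ μ`. If `i + s ≥ M`, then
`(μ - s) * h' i ≤ (μ - s) * n i ≤ μ * n (i + s) = μ * h' (i + s)` by `usable1`. Otherwise, with `E = E_i`,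
the proof of `usable1` (`FPS/Row1.lean`: `Row1Aux.step2`) gives `n (i+s) E (E-1) ≥ n i (E-s) (E-s-1)`, so
`μ n (i+s) - (μ-s) n i ≥ s * n i * (1 - μ (2E-1-s) / (E (E-1)))`, where the last factor is `≥ 0`
(`2 μ ≤ E`), `n i ≥ E`, and `E (1 - μ (2E-1-s) / (E(E-1))) ≥ E - 2 μ ≥ M - i - μ` (as `E ≥ e - i`,
`M + μ ≤ e`). So `μ n (i+s) - (μ-s) n i ≥ s (M - i - μ) = μ (M - i - s) - (μ - s) (M - i)`.
PROOF of `sum_prof`: `∑_{i < 2 (e+1)} (M - i) = T M` (`M ≤ e`), `fit`, `sum_rowN`.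
-/

namespace FPS

/-- the profile left by a point of multiplicity `M` at row `0` -/
def prof (a e M : ℕ) (i : ℕ) : ℕ := rowN a 1 e i - (M - i)

namespace TwoUAux

theorem row_ge (a e i : ℕ) : e + 1 - i % 2 - i / 2 ≤ rowN a 1 e i := by
  rw [rowN_one]
  unfold Phi
  exact Nat.le_add_right _ _

theorem key (E N z N' μ s Q : ℤ) (hs : 1 ≤ s) (hsμ : s ≤ μ) (hQ : 0 ≤ Q) (hE : Q + 2 * μ ≤ E)
    (hN : E ≤ N) (hz : z ≤ N')
    (hA : N * ((E - s) * (E - s - 1)) ≤ z * (E * (E - 1))) :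
    s * Q ≤ μ * N' - (μ - s) * N := by
  have hE2 : 2 ≤ E := by linarith
  have hE1 : 0 ≤ E - 1 := by linarith
  have hpos : 0 < E * (E - 1) := by
    apply mul_pos <;> linarith
  have h1 : μ * (N * ((E - s) * (E - s - 1))) ≤ μ * (N' * (E * (E - 1))) := by
    apply mul_le_mul_of_nonneg_left _ (by linarith)
    exact hA.trans (mul_le_mul_of_nonneg_right hz hpos.le)
  have h2 : (E - 1) * Q ≤ E * (E - 1) - μ * (2 * E - 1 - s) := by
    have h3 : μ * (2 * E - 1 - s) ≤ μ * (2 * (E - 1)) := by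
      apply mul_le_mul_of_nonneg_left _ (by linarith)
      linarith
    have h4 : (E - 1) * Q ≤ (E - 1) * (E - 2 * μ) := by
      apply mul_le_mul_of_nonneg_left _ hE1
      linarith
    linarith [h3, h4]
  have h5 : s * (N * ((E - 1) * Q)) ≤ s * (N * (E * (E - 1) - μ * (2 * E - 1 - s))) := by
    apply mul_le_mul_of_nonneg_left _ (by linarith)
    exact mul_le_mul_of_nonneg_left h2 (by linarith)
  have h6 : s * (E * ((E - 1) * Q)) ≤ s * (N * ((E - 1) * Q)) := by
    apply mul_le_mul_of_nonneg_left _ (by linarith)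
    exact mul_le_mul_of_nonneg_right hN (mul_nonneg hE1 hQ)
  have h7 : (s * Q) * (E * (E - 1)) ≤ (μ * N' - (μ - s) * N) * (E * (E - 1)) := by
    have e1 : (s * Q) * (E * (E - 1)) = s * (E * ((E - 1) * Q)) := by ring
    have e2 : s * (N * (E * (E - 1) - μ * (2 * E - 1 - s))) =
        μ * (N * ((E - s) * (E - s - 1))) - (μ - s) * N * (E * (E - 1)) := by ring
    have e3 : (μ * N' - (μ - s) * N) * (E * (E - 1)) =
        μ * (N' * (E * (E - 1))) - (μ - s) * N * (E * (E - 1)) := by ring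
    rw [e1, e3]
    linarith [h1, h5, h6, e2]
  exact le_of_mul_le_mul_right h7 hpos

theorem sum_tri (M : ℕ) : ∀ k, M ≤ k → ∑ i ∈ Finset.range k, (M - i) = T M := by
  induction M with
  | zero =>
    intro k _
    simp [T]
  | succ M ih =>
    intro k hk
    obtain ⟨k, rfl⟩ : ∃ k', k = k' + 1 := ⟨k - 1, by omega⟩
    rw [Finset.sum_range_succ']
    have h1 : ∑ i ∈ Finset.range k, (M + 1 - (i + 1)) = ∑ i ∈ Finset.range k, (M - i) :=
      Finset.sum_congr rfl fun i _ => by omega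
    rw [h1, ih k (by omega)]
    unfold T
    have h2 : (M + 1) * (M + 1 + 1) = M * (M + 1) + 2 * (M + 1) := by ring
    rw [h2]
    omega

end TwoUAux

open TwoUAux

theorem fit (a e M i : ℕ) (hM : M ≤ e) : M - i ≤ rowN a 1 e i := by
  have h := row_ge a e i
  omega

open RowFunAux Row1Aux in
theorem usable2 (a e μ M i : ℕ) (ha : 1 ≤ a) (hM : M + μ ≤ e)
    (hE : 2 * μ ≤ e + 1 - i % 2 - i / 2) : Usable (prof a e M) μ i := by
  intro s hs
  have hu := usable1 a e μ i ha hE s hs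
  have hf1 := fit a e M i (by omega)
  have hf2 := fit a e M (i + s) (by omega)
  rcases Nat.eq_zero_or_pos s with h0 | h0
  · subst h0
    exact le_rfl
  unfold prof
  by_cases hMi : M - i ≤ μ
  · -- the right hand side of the key inequality is not positive
    rcases Nat.lt_or_ge (i + s) M with hlt | hge
    · obtain ⟨x, hx⟩ : ∃ x, rowN a 1 e i = x + (M - i) := ⟨rowN a 1 e i - (M - i), by omega⟩
      obtain ⟨y, hy⟩ : ∃ y, rowN a 1 e (i + s) = y + (M - (i + s)) :=
        ⟨rowN a 1 e (i + s) - (M - (i + s)), by omega⟩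
      rw [hx, hy] at hu ⊢
      rw [Nat.add_sub_cancel, Nat.add_sub_cancel]
      obtain ⟨w, hw⟩ : ∃ w, M - i = w + s := ⟨M - i - s, by omega⟩
      obtain ⟨d, hd⟩ : ∃ d, μ = d + s := ⟨μ - s, by omega⟩
      have hwd : w ≤ d := by omega
      have e1 : M - (i + s) = w := by omega
      rw [e1, hw, hd] at hu
      rw [hd]
      rw [Nat.add_sub_cancel] at hu ⊢
      -- `d (x + w + s) ≤ (d + s) (y + w)` gives `d x ≤ (d + s) y` as `(d + s) w ≤ d (w + s)`
      have h3 : (d + s) * w ≤ d * (w + s) := by nlinarith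
      nlinarith
    · have e1 : M - (i + s) = 0 := by omega
      rw [e1, Nat.sub_zero]
      exact (Nat.mul_le_mul_left _ (Nat.sub_le _ _)).trans hu
  · rcases Nat.lt_or_ge (i + s) M with hlt | hge
    · have h1 : Phi a 1 (i / 2) (e + 1 - i % 2 - i / 2 - s) ≤ rowN a 1 e (i + s) := by
        unfold rowN
        refine (phi_mono_E a 1 (i / 2) ?_).trans (phi_mono_K a 1 _ ?_)
        · show e + 1 - i % 2 - i / 2 - s ≤ e + 1 - (i + s) % 2 - (i + s) / 2
          omega
        · show i / 2 ≤ (i + s) / 2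
          omega
      have hge := row_ge a e i
      have hEQ : (M - i - μ) + 2 * μ ≤ e + 1 - i % 2 - i / 2 := by omega
      have h2 := step2 a (i / 2) s (e + 1 - i % 2 - i / 2 - s)
      have e3 : e + 1 - i % 2 - i / 2 - s + s = e + 1 - i % 2 - i / 2 := by omega
      rw [e3, ← rowN_one] at h2
      obtain ⟨E, hEd⟩ : ∃ E, E = e + 1 - i % 2 - i / 2 := ⟨_, rfl⟩
      rw [← hEd] at h1 h2 hge hEQ
      obtain ⟨z, hz⟩ : ∃ z, z = Phi a 1 (i / 2) (E - s) := ⟨_, rfl⟩
      rw [← hz] at h1 h2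
      obtain ⟨F, hF⟩ : ∃ F, E = F + s + 1 := ⟨E - s - 1, by omega⟩
      have h2' : (rowN a 1 e i : ℤ) * (((E : ℤ) - s) * ((E : ℤ) - s - 1)) ≤
          (z : ℤ) * ((E : ℤ) * ((E : ℤ) - 1)) := by
        have e4 : E - s = F + 1 := by omega
        have e5 : E - 1 = F + s := by omega
        have e6 : F + 1 - 1 = F := by omega
        rw [e4, e5, e6] at h2
        have h3 : ((rowN a 1 e i * ((F + 1) * F) : ℕ) : ℤ) ≤ ((z * (E * (F + s)) : ℕ) : ℤ) := by
          exact_mod_cast h2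
        push_cast at h3
        have e7 : (E : ℤ) = F + s + 1 := by exact_mod_cast hF
        have e8 : (E : ℤ) - s = F + 1 := by rw [e7]; ring
        have e9 : (E : ℤ) - s - 1 = F := by rw [e7]; ring
        have e10 : (E : ℤ) - 1 = F + s := by rw [e7]; ring
        rw [e9, e8, e10]
        exact h3
      have hk := key (E : ℤ) (rowN a 1 e i : ℤ) (z : ℤ) (rowN a 1 e (i + s) : ℤ) (μ : ℤ) (s : ℤ)
        ((M - i - μ : ℕ) : ℤ) (by exact_mod_cast h0) (by exact_mod_cast hs)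
        (Int.natCast_nonneg _) (by exact_mod_cast hEQ) (by exact_mod_cast hge)
        (by exact_mod_cast h1) h2'
      zify [hf1, hf2, hs]
      have c1 : ((M - i - μ : ℕ) : ℤ) = (M : ℤ) - i - μ := by omega
      have c2 : ((M - i : ℕ) : ℤ) = (M : ℤ) - i := by omega
      have c3 : ((M - (i + s) : ℕ) : ℤ) = (M : ℤ) - i - s := by omega
      rw [c1] at hk
      rw [c2, c3]
      have e11 : (μ : ℤ) * ((rowN a 1 e (i + s) : ℤ) - ((M : ℤ) - i - s)) -
          ((μ : ℤ) - s) * ((rowN a 1 e i : ℤ) - ((M : ℤ) - i)) =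
          ((μ : ℤ) * (rowN a 1 e (i + s) : ℤ) - ((μ : ℤ) - s) * (rowN a 1 e i : ℤ)) -
          s * ((M : ℤ) - i - μ) := by ring
      linarith [hk, e11]
    · have e1 : M - (i + s) = 0 := by omega
      rw [e1, Nat.sub_zero]
      exact (Nat.mul_le_mul_left _ (Nat.sub_le _ _)).trans hu

theorem sum_prof (a e M : ℕ) (ha : 1 ≤ a) (hM : M ≤ e) :
    ∑ i ∈ Finset.range (2 * (e + 1)), prof a e M i + T M = h0 (a + 2) e := by
  rw [← sum_tri M (2 * (e + 1)) (by omega), ← Finset.sum_add_distrib, ← sum_rowN a e ha]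
  refine Finset.sum_congr rfl fun i _ => ?_
  have h := fit a e M i hM
  unfold prof
  omega

end FPS
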